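import Mathlib

set_option autoImplicit false
open Finset

namespace Pool.Agent.Vis5f

/-- points of the plane -/
abbrev Pt := ℝ × ℝ

/-- the standard pairing -/
def dot (φ p : Pt) : ℝ := φ.1 * p.1 + φ.2 * p.2

open Classical in
/-- the points of `X` where the functional `φ` is largest -/
noncomputable def face (φ : Pt) (X : Finset Pt) : Finset Pt :=
  X.filter (fun p => ∀ q ∈ X, dot φ q ≤ dot φ p)

/-- number of points of colour `c` -/
noncomputable def cnt (χ : Pt → Bool) (c : Bool) (F : Finset Pt) : ℕ :=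
  (F.filter (fun p => χ p = c)).card

/-- the loss of a side -/
noncomputable def lam (χ : Pt → Bool) (F : Finset Pt) : ℕ :=
  min (cnt χ true F) (cnt χ false F) - 1

/-- every two-coloured segment of `X` has a point of `C` inside -/
def Blocks (C : Finset Pt) (χ : Pt → Bool) (X : Finset Pt) : Prop :=
  ∀ p ∈ X, ∀ q ∈ X, χ p ≠ χ q → ∃ c ∈ C, c ∈ openSegment ℝ p q

open Classical in
/-- number of points of `C` in the hull of `X` -/
noncomputable def nb (C X : Finset Pt) : ℕ :=
  (C.filter (fun c => c ∈ convexHull ℝ (X : Set Pt))).card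

/-- affine functions -/
def ev (l : ℝ × ℝ × ℝ) (p : Pt) : ℝ := l.1 * p.1 + l.2.1 * p.2 + l.2.2

theorem mem_face {φ : Pt} {X : Finset Pt} {p : Pt} :
    p ∈ face φ X ↔ p ∈ X ∧ ∀ q ∈ X, dot φ q ≤ dot φ p := by
  unfold face
  simp only [mem_filter]

theorem face_subset (φ : Pt) (X : Finset Pt) : face φ X ⊆ X := fun _ h => (mem_face.1 h).1

theorem face_eq {φ : Pt} {X : Finset Pt} {p q : Pt} (hp : p ∈ face φ X) (hq : q ∈ face φ X) :
    dot φ p = dot φ q :=
  le_antisymm ((mem_face.1 hq).2 p (mem_face.1 hp).1) ((mem_face.1 hp).2 q (mem_face.1 hq).1)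

theorem Blocks.mono {C : Finset Pt} {χ : Pt → Bool} {X Y : Finset Pt} (h : Blocks C χ X)
    (hY : Y ⊆ X) : Blocks C χ Y := fun p hp q hq => h p (hY hp) q (hY hq)

theorem ev_combo (l : ℝ × ℝ × ℝ) (u v : Pt) {a b : ℝ} (hab : a + b = 1) :
    ev l (a • u + b • v) = a * ev l u + b * ev l v := by
  simp only [ev, Prod.fst_add, Prod.snd_add, Prod.smul_fst, Prod.smul_snd, smul_eq_mul]
  linear_combination (-l.2.2) * hab

theorem dot_combo (φ u v : Pt) (a b : ℝ) :
    dot φ (a • u + b • v) = a * dot φ u + b * dot φ v := by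
  simp only [dot, Prod.fst_add, Prod.snd_add, Prod.smul_fst, Prod.smul_snd, smul_eq_mul]
  ring

theorem ev_neg (l : ℝ × ℝ × ℝ) (p : Pt) : ev (-l) p = - ev l p := by
  simp only [ev, Prod.fst_neg, Prod.snd_neg]; ring

theorem ev_add (l m : ℝ × ℝ × ℝ) (p : Pt) : ev (l + m) p = ev l p + ev m p := by
  simp only [ev, Prod.fst_add, Prod.snd_add]; ring

theorem ev_sub (l m : ℝ × ℝ × ℝ) (p : Pt) : ev (l - m) p = ev l p - ev m p := by
  simp only [ev, Prod.fst_sub, Prod.snd_sub]; ring

theorem hull_le {X : Finset Pt} {m : ℝ × ℝ × ℝ} (h : ∀ p ∈ X, ev m p ≤ 0) {z : Pt}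
    (hz : z ∈ convexHull ℝ (X : Set Pt)) : ev m z ≤ 0 := by
  have hc : Convex ℝ {p : Pt | ev m p ≤ 0} := by
    intro x hx y hy a b ha hb hab
    simp only [Set.mem_ofPred_eq] at hx hy ⊢
    rw [ev_combo m x y hab]
    nlinarith [mul_nonneg ha (neg_nonneg.2 hx), mul_nonneg hb (neg_nonneg.2 hy)]
  exact convexHull_min (fun p hp => h p hp) hc hz

theorem hull_lt {X : Finset Pt} {m : ℝ × ℝ × ℝ} (h : ∀ p ∈ X, ev m p < 0) {z : Pt}
    (hz : z ∈ convexHull ℝ (X : Set Pt)) : ev m z < 0 := by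
  have hc : Convex ℝ {p : Pt | ev m p < 0} := by
    intro x hx y hy a b ha hb hab
    simp only [Set.mem_ofPred_eq] at hx hy ⊢
    rw [ev_combo m x y hab]
    rcases eq_or_lt_of_le ha with h0 | h0
    · have hb1 : b = 1 := by linarith
      rw [← h0, hb1]; linarith
    · nlinarith [mul_pos h0 (neg_pos.2 hx), mul_nonneg hb (neg_nonneg.2 hy.le)]
  exact convexHull_min (fun p hp => h p hp) hc hz

theorem openSegment_sub_hull {X : Finset Pt} {u v z : Pt} (hu : u ∈ X) (hv : v ∈ X)
    (hz : z ∈ openSegment ℝ u v) : z ∈ convexHull ℝ (X : Set Pt) :=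
  (convex_convexHull ℝ _).openSegment_subset (subset_convexHull ℝ _ (mem_coe.2 hu))
    (subset_convexHull ℝ _ (mem_coe.2 hv)) hz

theorem cnt_mono (χ : Pt → Bool) (c : Bool) {F G : Finset Pt} (h : F ⊆ G) :
    cnt χ c F ≤ cnt χ c G := card_le_card (filter_subset_filter _ h)

theorem cnt_union (χ : Pt → Bool) (c : Bool) {F G : Finset Pt} (h : Disjoint F G) :
    cnt χ c (F ∪ G) = cnt χ c F + cnt χ c G := by
  unfold cnt
  rw [filter_union, card_union_of_disjoint (disjoint_filter_filter h)]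

theorem cnt_add (χ : Pt → Bool) (F : Finset Pt) : cnt χ true F + cnt χ false F = F.card := by
  unfold cnt
  have := Finset.card_filter_add_card_filter_not (s := F) (fun p => χ p = true)
  rw [← this]
  congr 2
  ext p
  simp

theorem lam_mono (χ : Pt → Bool) {F G : Finset Pt} (h : F ⊆ G) : lam χ F ≤ lam χ G := by
  have h1 := cnt_mono χ true h
  have h2 := cnt_mono χ false h
  unfold lam; omega

theorem lam_add (χ : Pt → Bool) {F G H : Finset Pt} (h : Disjoint F G) (hF : F ⊆ H) (hG : G ⊆ H) :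
    lam χ F + lam χ G ≤ lam χ H := by
  have h1 := cnt_mono χ true (union_subset hF hG)
  have h2 := cnt_mono χ false (union_subset hF hG)
  rw [cnt_union χ _ h] at h1 h2
  unfold lam; omega

end Pool.Agent.Vis5f
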