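import Pool.Agent.Lib.MP_5f22fc_co.Graph

set_option autoImplicit false
open Finset

namespace Pool.Agent.Vis5f

open Classical in
/-- the points of a side other than its last one -/
noncomputable def low (φ : Pt) (X : Finset Pt) : Finset Pt :=
  (face φ X).filter (fun z => ∃ q ∈ face φ X, alo φ z < alo φ q)

theorem low_subset (φ : Pt) (X : Finset Pt) : low φ X ⊆ face φ X := by
  classical
  exact filter_subset _ _

theorem low_cnt {φ : Pt} (h : φ ≠ 0) (X : Finset Pt) (χ : Pt → Bool) (c : Bool) :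
    cnt χ c (face φ X) ≤ cnt χ c (low φ X) + 1 := by
  classical
  rcases (face φ X).eq_empty_or_nonempty with h0 | h0
  · rw [h0]; simp [cnt]
  obtain ⟨q, hq, qmax⟩ := exists_max_image _ (alo φ) h0
  have : (face φ X).filter (fun p => χ p = c) ⊆ insert q ((low φ X).filter (fun p => χ p = c)) := by
    intro z hz
    obtain ⟨hz1, hz2⟩ := mem_filter.1 hz
    by_cases e : z = q
    · rw [e]; exact mem_insert_self _ _
    · refine mem_insert_of_mem (mem_filter.2 ⟨mem_filter.2 ⟨hz1, q, hq, ?_⟩, hz2⟩)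
      exact lt_of_le_of_ne (qmax z hz1) (fun e2 => e (eq_of_alo h (face_eq hz1 hq) e2))
  exact (card_le_card this).trans (card_insert_le _ _)

theorem par_eq {X : Finset Pt} (hnl : NotLine X) {φ ψ z : Pt} (h1 : ‖φ‖ = 1) (h2 : ‖ψ‖ = 1)
    (hzf : z ∈ face φ X) (hz' : z ∈ face ψ X) (hcr : φ.1 * ψ.2 - φ.2 * ψ.1 = 0) : ψ = φ := by
  have hφ := ne_of_unit h1
  have hη := sq_pos_of_ne hφ
  set s := φ.1 * ψ.1 + φ.2 * ψ.2 with hs
  have e1 : (φ.1 ^ 2 + φ.2 ^ 2) * ψ.1 = s * φ.1 := by rw [hs]; linear_combination (-φ.2) * hcr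
  have e2 : (φ.1 ^ 2 + φ.2 ^ 2) * ψ.2 = s * φ.2 := by rw [hs]; linear_combination φ.1 * hcr
  rcases lt_trichotomy s 0 with h0 | h0 | h0
  · exfalso
    have : ψ = -φ := unit_eq h2 (by rw [norm_neg, h1]) hη (neg_pos.2 h0)
      (by simp only [Prod.fst_neg]; linarith) (by simp only [Prod.snd_neg]; linarith)
    obtain ⟨x, hx, y, hy, hxy⟩ := hnl φ hφ
    apply hxy
    have k : ∀ x ∈ X, dot φ x = dot φ z := by
      intro x hx
      have a1 := (mem_face.1 hzf).2 x hx
      have a2 := (mem_face.1 hz').2 x hx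
      rw [this, dot_neg, dot_neg] at a2
      linarith
    rw [k x hx, k y hy]
  · exfalso
    rw [h0, zero_mul] at e1 e2
    exact ne_of_unit h2 (Prod.ext ((mul_eq_zero.1 e1).resolve_left hη.ne')
      ((mul_eq_zero.1 e2).resolve_left hη.ne'))
  · exact unit_eq h2 h1 hη h0 e1 e2

theorem low_disj {X : Finset Pt} (hnl : NotLine X) {φ ψ z : Pt} (h1 : ‖φ‖ = 1) (h2 : ‖ψ‖ = 1)
    (hz : z ∈ low φ X) (hz' : z ∈ low ψ X) : ψ = φ := by
  classical
  obtain ⟨z1, q, hq, lq⟩ := mem_filter.1 hz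
  obtain ⟨z2, r, hr, lr⟩ := mem_filter.1 hz'
  have hη := sq_pos_of_ne (ne_of_unit h1)
  have hη' := sq_pos_of_ne (ne_of_unit h2)
  have a1 := (mem_face.1 z2).2 q (face_subset _ _ hq)
  have a2 := (mem_face.1 z1).2 r (face_subset _ _ hr)
  have f1 := face_eq z1 hq
  have f2 := face_eq z2 hr
  refine par_eq hnl h1 h2 z1 z2 ?_
  have k1 : (φ.1 ^ 2 + φ.2 ^ 2) * (dot ψ q - dot ψ z) =
      (φ.1 * ψ.2 - φ.2 * ψ.1) * (alo φ q - alo φ z) := by
    simp only [dot, alo] at f1 ⊢
    linear_combination (-(φ.1 * ψ.1 + φ.2 * ψ.2)) * f1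
  have k2 : (ψ.1 ^ 2 + ψ.2 ^ 2) * (dot φ r - dot φ z) =
      - (φ.1 * ψ.2 - φ.2 * ψ.1) * (alo ψ r - alo ψ z) := by
    simp only [dot, alo] at f2 ⊢
    linear_combination (-(φ.1 * ψ.1 + φ.2 * ψ.2)) * f2
  have m1 : (φ.1 * ψ.2 - φ.2 * ψ.1) * (alo φ q - alo φ z) ≤ 0 := by
    rw [← k1]; exact mul_nonpos_of_nonneg_of_nonpos hη.le (by linarith)
  have m2 : - (φ.1 * ψ.2 - φ.2 * ψ.1) * (alo ψ r - alo ψ z) ≤ 0 := by
    rw [← k2]; exact mul_nonpos_of_nonneg_of_nonpos hη'.le (by linarith)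
  have n1 : φ.1 * ψ.2 - φ.2 * ψ.1 ≤ 0 := by
    by_contra hc
    push Not at hc
    nlinarith [mul_pos hc (sub_pos.2 lq)]
  have n2 : 0 ≤ φ.1 * ψ.2 - φ.2 * ψ.1 := by
    by_contra hc
    push Not at hc
    nlinarith [mul_pos (neg_pos.2 hc) (sub_pos.2 lr)]
  linarith

/-- the line `a b` has points of `X` strictly on both sides -/
def Val (X : Finset Pt) (a b : Pt) : Prop :=
  (∃ x ∈ X, 0 < det a b x) ∧ ∃ y ∈ X, det a b y < 0

theorem Val.ne {X : Finset Pt} {a b : Pt} (h : Val X a b) : a ≠ b := by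
  rintro rfl
  obtain ⟨⟨x, _, hx⟩, _⟩ := h
  simp [det] at hx

theorem Val.not_face {X : Finset Pt} {a b φ : Pt} (h : Val X a b) (hφ : φ ≠ 0)
    (ha : a ∈ face φ X) (hb : b ∈ face φ X) : False := by
  obtain ⟨⟨x, hx, dx⟩, y, hy, dy⟩ := h
  have hη := sq_pos_of_ne hφ
  have f := face_eq ha hb
  have k : ∀ z, (φ.1 ^ 2 + φ.2 ^ 2) * det a b z =
      (alo φ b - alo φ a) * (dot φ a - dot φ z) := by
    intro z
    simp only [dot, alo, det] at f ⊢
    linear_combination (φ.2 * (z.1 - a.1) - φ.1 * (z.2 - a.2)) * f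
  have a1 := sub_nonneg.2 ((mem_face.1 ha).2 x hx)
  have a2 := sub_nonneg.2 ((mem_face.1 ha).2 y hy)
  have b1 := mul_pos hη dx
  have b2 := mul_neg_of_pos_of_neg hη dy
  rw [k] at b1 b2
  rcases le_total 0 (alo φ b - alo φ a) with e | e
  · linarith [mul_nonneg e a2]
  · linarith [mul_nonpos_of_nonpos_of_nonneg e a1]

theorem exists_param {a b z : Pt} (hab : a ≠ b) (h : det a b z = 0) :
    ∃ τ : ℝ, z = (1 - τ) • a + τ • b := by
  have hw : (b.1 - a.1, b.2 - a.2) ≠ (0 : Pt) := by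
    intro e
    apply hab
    have e1 := congrArg Prod.fst e
    have e2 := congrArg Prod.snd e
    simp only [Prod.fst_zero, Prod.snd_zero] at e1 e2
    exact Prod.ext (by linarith) (by linarith)
  have hη := sq_pos_of_ne hw
  simp only at hη
  refine ⟨((z.1 - a.1) * (b.1 - a.1) + (z.2 - a.2) * (b.2 - a.2)) /
    ((b.1 - a.1) ^ 2 + (b.2 - a.2) ^ 2), ?_⟩
  simp only [det] at h
  refine Prod.ext ?_ ?_
  · simp only [Prod.fst_add, Prod.smul_fst, smul_eq_mul]
    field_simp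
    linear_combination (-(b.2 - a.2)) * h
  · simp only [Prod.snd_add, Prod.smul_snd, smul_eq_mul]
    field_simp
    linear_combination (b.1 - a.1) * h

theorem Val.ends {X : Finset Pt} {a b s s' φ z : Pt} (h : Val X a b) (hs : s ≠ 0) (hs' : s' ≠ 0)
    (hφ : φ ≠ 0) (ha : a ∈ face s X) (hb : b ∈ face s' X) (hz : det a b z = 0)
    (z1 : dot s z ≤ dot s a) (z2 : dot s' z ≤ dot s' b) (z3 : ∀ x ∈ X, dot φ x ≤ dot φ z) :
    z = a ∨ z = b := by
  obtain ⟨τ, e⟩ := exists_param h.ne hz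
  have aX := face_subset _ _ ha
  have bX := face_subset _ _ hb
  have k : ∀ ψ, dot ψ z = (1 - τ) * dot ψ a + τ * dot ψ b := fun ψ => by rw [e, dot_combo]
  rcases lt_trichotomy τ 0 with t | t | t
  · exfalso
    have a1 := (mem_face.1 ha).2 b bX
    have a2 : dot s a ≤ dot s b := by
      rw [k] at z1
      by_contra hc
      push Not at hc
      nlinarith [mul_pos (neg_pos.2 t) (sub_pos.2 hc)]
    exact h.not_face hs ha (mem_face.2 ⟨bX, fun q hq => ((mem_face.1 ha).2 q hq).trans a2⟩)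
  · left; rw [e, t]; simp
  rcases lt_trichotomy τ 1 with u | u | u
  · exfalso
    have a1 := z3 a aX
    have a2 := z3 b bX
    have a3 := k φ
    have b1 : dot φ z ≤ dot φ a := by
      by_contra hc
      push Not at hc
      nlinarith [mul_pos (sub_pos.2 u) (sub_pos.2 hc), mul_nonneg t.le (sub_nonneg.2 a2)]
    have b2 : dot φ z ≤ dot φ b := by
      by_contra hc
      push Not at hc
      nlinarith [mul_pos t (sub_pos.2 hc), mul_nonneg (sub_pos.2 u).le (sub_nonneg.2 a1)]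
    exact h.not_face hφ (mem_face.2 ⟨aX, fun q hq => (z3 q hq).trans b1⟩)
      (mem_face.2 ⟨bX, fun q hq => (z3 q hq).trans b2⟩)
  · right; rw [e, u]; simp
  · exfalso
    have a1 := (mem_face.1 hb).2 a aX
    have a2 : dot s' b ≤ dot s' a := by
      rw [k] at z2
      by_contra hc
      push Not at hc
      nlinarith [mul_pos (sub_pos.2 u) (sub_pos.2 hc)]
    exact h.not_face hs' (mem_face.2 ⟨aX, fun q hq => ((mem_face.1 hb).2 q hq).trans a2⟩) hb

theorem Val.on_line {X : Finset Pt} {a b s s' φ u : Pt} (h : Val X a b) (hs : s ≠ 0) (hs' : s' ≠ 0)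
    (hφ : φ ≠ 0) (ha : a ∈ face s X) (hb : b ∈ face s' X) (hu : u ∈ face φ X)
    (hz : det a b u = 0) : u = a ∨ u = b :=
  h.ends hs hs' hφ ha hb hz ((mem_face.1 ha).2 u (face_subset _ _ hu))
    ((mem_face.1 hb).2 u (face_subset _ _ hu)) (mem_face.1 hu).2

theorem det_combo (a b u v : Pt) {x y : ℝ} (h : x + y = 1) :
    det a b (x • u + y • v) = x * det a b u + y * det a b v := by
  simp only [det, Prod.fst_add, Prod.snd_add, Prod.smul_fst, Prod.smul_snd, smul_eq_mul]
  linear_combination ((b.1 - a.1) * a.2 - (b.2 - a.2) * a.1) * h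

theorem Val.cross {X : Finset Pt} (hnl : NotLine X) {a b s s' φ u v : Pt} (h : Val X a b)
    (hs : ‖s‖ = 1) (hs' : ‖s'‖ = 1) (hφ : ‖φ‖ = 1) (ha : a ∈ face s X) (hb : b ∈ face s' X)
    (hu : u ∈ face φ X) (hv : v ∈ face φ X) (du : 0 < det a b u) (dv : det a b v < 0) :
    s = φ ∨ s' = φ := by
  classical
  have hd : 0 < det a b u - det a b v := by linarith
  set x := - det a b v / (det a b u - det a b v) with hx
  set y := det a b u / (det a b u - det a b v) with hy
  have x0 : 0 < x := div_pos (by linarith) hd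
  have y0 : 0 < y := div_pos du hd
  have xy : x + y = 1 := by rw [hx, hy]; field_simp; ring
  have huv : u ≠ v := by
    rintro rfl
    linarith
  have uX := face_subset _ _ hu
  have vX := face_subset _ _ hv
  have z0 : det a b (x • u + y • v) = 0 := by
    rw [det_combo a b u v xy, hx, hy]; field_simp; ring
  have conv : ∀ ψ w : Pt, dot ψ u ≤ dot ψ w → dot ψ v ≤ dot ψ w →
      dot ψ (x • u + y • v) ≤ dot ψ w := by
    intro ψ w k1 k2
    rw [dot_combo]
    have e : dot ψ w = x * dot ψ w + y * dot ψ w := by rw [← add_mul, xy, one_mul]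
    linarith [mul_le_mul_of_nonneg_left k1 x0.le, mul_le_mul_of_nonneg_left k2 y0.le]
  have z3 : ∀ q ∈ X, dot φ q ≤ dot φ (x • u + y • v) := by
    intro q hq
    rw [dot_combo, ← face_eq hu hv, ← add_mul, xy, one_mul]
    exact (mem_face.1 hu).2 q hq
  have key := h.ends (ne_of_unit hs) (ne_of_unit hs') (ne_of_unit hφ) ha hb z0
    (conv s a ((mem_face.1 ha).2 u uX) ((mem_face.1 ha).2 v vX))
    (conv s' b ((mem_face.1 hb).2 u uX) ((mem_face.1 hb).2 v vX)) z3
  have inn : ∀ w ∈ X, x • u + y • v = w → w ∈ inner φ X := by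
    intro w hw e
    exact mem_filter.2 ⟨mem_face.2 ⟨hw, e ▸ z3⟩, u, hu, v, hv, huv, x, y, x0, y0, xy, e⟩
  rcases key with e | e
  · exact Or.inl (inner_face hnl hφ hs (inn a (face_subset _ _ ha) e) ha)
  · exact Or.inr (inner_face hnl hφ hs' (inn b (face_subset _ _ hb) e) hb)

theorem rank_sum {ι : Type*} (V : Finset ι) (f : ι → ℝ) (hf : ∀ x ∈ V, ∀ y ∈ V, f x = f y → x = y)
    (g : ℕ → ℝ) :
    ∑ b ∈ V, g (V.filter (fun y => f y < f b)).card = ∑ r ∈ range V.card, g r := by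
  classical
  set ρ : ι → ℕ := fun b => (V.filter (fun y => f y < f b)).card with hρ
  have lt : ∀ x ∈ V, ∀ y ∈ V, f x < f y → ρ x < ρ y := by
    intro x hx y _ hxy
    refine card_lt_card ⟨fun z hz => mem_filter.2 ⟨(mem_filter.1 hz).1,
      (mem_filter.1 hz).2.trans hxy⟩, fun hs => ?_⟩
    exact lt_irrefl _ (mem_filter.1 (hs (mem_filter.2 ⟨hx, hxy⟩))).2
  have inj : Set.InjOn ρ V := by
    intro x hx y hy e
    rcases lt_trichotomy (f x) (f y) with h | h | h
    · exact absurd e (lt x hx y hy h).ne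
    · exact hf x hx y hy h
    · exact absurd e.symm (lt y hy x hx h).ne
  have im : V.image ρ = range V.card := by
    refine eq_of_subset_of_card_le ?_ (by rw [card_image_of_injOn inj, card_range])
    intro r hr
    obtain ⟨b, hb, rfl⟩ := mem_image.1 hr
    refine mem_range.2 (card_lt_card ⟨filter_subset _ _, fun hs => ?_⟩)
    exact lt_irrefl _ (mem_filter.1 (hs hb)).2
  rw [← im, sum_image inj]

theorem harm {M : ℝ} (hM : 0 < M) (V : ℕ) :
    Real.log ((2 * V + M) / M) ≤ 2 * ∑ r ∈ range V, 1 / (2 * (r : ℝ) + M) := by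
  induction V with
  | zero => simp [hM.ne']
  | succ V ih =>
    have p : (0 : ℝ) < 2 * V + M := by positivity
    have e : (2 * ((V + 1 : ℕ) : ℝ) + M) / M = ((2 * V + M) / M) * ((2 * V + M + 2) / (2 * V + M)) := by
      push_cast; field_simp; ring
    rw [e, Real.log_mul (by positivity) (by positivity), sum_range_succ, mul_add]
    have := Real.log_le_sub_one_of_pos (show (0 : ℝ) < (2 * V + M + 2) / (2 * V + M) by positivity)
    have e2 : (2 * V + M + 2) / (2 * V + M) - 1 = 2 * (1 / (2 * (V : ℝ) + M)) := by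
      field_simp; ring
    linarith

end Pool.Agent.Vis5f
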