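import Pool.Agent.Lib.MP_5f22fc_co.Fan

set_option autoImplicit false
open Finset Filter Topology

namespace Pool.Agent.Vis5f

/-- sign of a point relative to a colour -/
def sg (χ : Pt → Bool) (c : Bool) (p : Pt) : ℤ := if χ p = c then -1 else 1

theorem sum_sg (χ : Pt → Bool) (c : Bool) (F : Finset Pt) :
    ∑ p ∈ F, sg χ c p = (cnt χ (!c) F : ℤ) - cnt χ c F := by
  unfold sg cnt
  rw [sum_ite]
  have : F.filter (fun p => ¬ χ p = c) = F.filter (fun p => χ p = !c) := by
    congr 1; ext p; cases c <;> simp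
  simp [this]
  ring

theorem bal_iff (χ : Pt → Bool) (c : Bool) (F : Finset Pt) :
    cnt χ true F = cnt χ false F ↔ ∑ p ∈ F, sg χ c p = 0 := by
  rw [sum_sg]
  cases c <;> simp <;> omega

/-- a balanced cut with a two-coloured side facing the other part -/
def GoodCut (χ : Pt → Bool) (X : Finset Pt) : Prop :=
  ∃ (X1 X2 : Finset Pt) (ξ : ℝ × ℝ × ℝ) (φ0 a b : Pt), X1 ∪ X2 = X ∧ Sep X1 X2 ξ ∧
    cnt χ true X1 = cnt χ false X1 ∧ cnt χ true X2 = cnt χ false X2 ∧ X1.Nonempty ∧
    X2.Nonempty ∧ Cov φ0 X1 X2 ∧ a ∈ face φ0 X1 ∧ b ∈ face φ0 X1 ∧ χ a ≠ χ b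

theorem cut_aux {X : Finset Pt} {χ : Pt → Bool} {a : Pt} (ha : a ∈ X) (sv wv : Pt)
    (hs : ∀ p ∈ X.erase a, 0 < dot sv p - dot sv a)
    (hinj : ∀ p q, dot sv p = dot sv q → dot wv p = dot wv q → p = q)
    (bal : cnt χ true X = cnt χ false X) (D : Finset Pt) (hD : D ⊆ X.erase a)
    (hlow : ∀ q ∈ D, ∀ q' ∈ X.erase a, (dot wv q' - dot wv a) / (dot sv q' - dot sv a) ≤
      (dot wv q - dot wv a) / (dot sv q - dot sv a) → q' ∈ D)
    (hsum : 1 ≤ ∑ q ∈ D, sg χ (χ a) q) (hr : ∃ r ∈ X.erase a, r ∉ D) : GoodCut χ X := by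
  classical
  set s : Pt → ℝ := fun p => dot sv p - dot sv a with hsd
  set w : Pt → ℝ := fun p => dot wv p - dot wv a with hwd
  set sl : Pt → ℝ := fun p => w p / s p with hsl
  set key : Pt → ℝ ×ₗ ℝ := fun p => toLex (sl p, s p) with hkey
  set Y := X.erase a with hY
  set g := sg χ (χ a) with hg
  have hga : g a = -1 := by simp [hg, sg]
  have hg1 : ∀ p, g p ≤ 1 := by
    intro p; simp only [hg, sg]; split_ifs <;> omega
  have hYsum : ∑ p ∈ Y, g p = 1 := by
    have h1 := (bal_iff χ (χ a) X).1 bal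
    have h2 := add_sum_erase X g ha
    rw [← hY, hga, h1] at h2
    omega
  have hw : ∀ p ∈ Y, w p = sl p * s p := by
    intro p hp
    have : s p ≠ 0 := (hs p hp).ne'
    simp only [hsl]
    field_simp
  have hkinj : ∀ p ∈ Y, ∀ q ∈ Y, key p = key q → p = q := by
    intro p hp q hq h
    simp only [hkey, toLex_inj, Prod.mk.injEq] at h
    have h2 : w p = w q := by rw [hw p hp, hw q hq, h.1, h.2]
    refine hinj p q ?_ ?_
    · have := h.2; simp only [hsd] at this; linarith
    · simp only [hwd] at h2; linarith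
  have hkle : ∀ p q, key p ≤ key q ↔ sl p < sl q ∨ (sl p = sl q ∧ s p ≤ s q) := by
    intro p q; simp only [hkey, Prod.Lex.toLex_le_toLex]
  have hklt : ∀ p q, key p < key q ↔ sl p < sl q ∨ (sl p = sl q ∧ s p < s q) := by
    intro p q; simp only [hkey, Prod.Lex.toLex_lt_toLex]
  set E : Pt → ℤ := fun p => ∑ q ∈ Y.filter (fun q => key q ≤ key p), g q with hE
  have hDne : D.Nonempty := by
    rw [nonempty_iff_ne_empty]
    rintro rfl
    simp at hsum
  obtain ⟨m, hm, hmmax⟩ := exists_max_image D key hDne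
  have hEm : 1 ≤ E m := by
    have : Y.filter (fun q => key q ≤ key m) = D := by
      ext q
      simp only [mem_filter]
      constructor
      · rintro ⟨hq, hk⟩
        refine hlow m hm q hq ?_
        rcases (hkle q m).1 hk with h | h
        · exact h.le
        · exact h.1.le
      · intro hq
        exact ⟨hD hq, hmmax q hq⟩
    simp only [hE, this]
    exact hsum
  obtain ⟨b, hb, hbmin⟩ := exists_min_image (Y.filter (fun p => 1 ≤ E p)) key
    ⟨m, mem_filter.2 ⟨hD hm, hEm⟩⟩
  obtain ⟨hbY, hbE⟩ := mem_filter.1 hb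
  have hbm : key b ≤ key m := hbmin m (mem_filter.2 ⟨hD hm, hEm⟩)
  have hpre : ∑ q ∈ Y.filter (fun q => key q < key b), g q ≤ 0 := by
    rcases (Y.filter (fun q => key q < key b)).eq_empty_or_nonempty with h | h
    · rw [h]; simp
    · obtain ⟨q, hq, hqmax⟩ := exists_max_image _ key h
      obtain ⟨hqY, hqb⟩ := mem_filter.1 hq
      have e : Y.filter (fun x => key x < key b) = Y.filter (fun x => key x ≤ key q) := by
        ext x
        simp only [mem_filter]
        constructor
        · rintro ⟨h1, h2⟩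
          exact ⟨h1, hqmax x (mem_filter.2 ⟨h1, h2⟩)⟩
        · rintro ⟨h1, h2⟩
          exact ⟨h1, h2.trans_lt hqb⟩
      rw [e]
      by_contra hc
      have : key b ≤ key q := hbmin q (mem_filter.2 ⟨hqY, by simp only [hE]; omega⟩)
      exact absurd hqb (not_lt.2 this)
  have hEb : E b = g b + ∑ q ∈ Y.filter (fun q => key q < key b), g q := by
    have e : Y.filter (fun x => key x ≤ key b) = insert b (Y.filter (fun x => key x < key b)) := by
      ext x
      simp only [mem_filter, mem_insert]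
      constructor
      · rintro ⟨h1, h2⟩
        rcases eq_or_lt_of_le h2 with h | h
        · exact Or.inl (hkinj x h1 b hbY h)
        · exact Or.inr ⟨h1, h⟩
      · rintro (h | h)
        · subst h; exact ⟨hbY, le_rfl⟩
        · exact ⟨h.1, h.2.le⟩
    simp only [hE, e]
    rw [sum_insert (by simp)]
  have hgb : g b = 1 := by have := hg1 b; omega
  have hE1 : E b = 1 := by omega
  have hcol : χ a ≠ χ b := by
    intro h
    simp [hg, sg, h] at hgb
  set ρ := sl b with hρ
  set X1 := insert a (Y.filter (fun q => key q ≤ key b)) with hX1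
  set X2 := Y.filter (fun q => ¬ key q ≤ key b) with hX2
  have haY : a ∉ Y := notMem_erase a X
  obtain ⟨r, hrY, hrD⟩ := hr
  have hrρ : ρ < sl r := by
    by_contra hc
    apply hrD
    refine hlow m hm r hrY ?_
    have : sl b ≤ sl m := by
      rcases (hkle b m).1 hbm with h | h
      · exact h.le
      · exact h.1.le
    exact (not_lt.1 hc).trans this
  have hrX2 : r ∈ X2 := by
    refine mem_filter.2 ⟨hrY, ?_⟩
    rw [not_le, hklt]
    exact Or.inl hrρ
  set φ0 : Pt := (wv.1 - ρ * sv.1, wv.2 - ρ * sv.2) with hφ0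
  have hdot : ∀ p, dot φ0 p - dot φ0 a = w p - ρ * s p := by
    intro p
    simp only [hφ0, hwd, hsd, dot]; ring
  have hdY : ∀ p ∈ Y, dot φ0 p - dot φ0 a = (sl p - ρ) * s p := by
    intro p hp
    rw [hdot, hw p hp]; ring
  have hX1le : ∀ p ∈ X1, dot φ0 p ≤ dot φ0 a := by
    intro p hp
    rcases mem_insert.1 hp with h | h
    · rw [h]
    · obtain ⟨hpY, hk⟩ := mem_filter.1 h
      have h1 : sl p ≤ ρ := by
        rcases (hkle p b).1 hk with h | h
        · exact h.le
        · exact h.1.le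
      have := hdY p hpY
      nlinarith [hs p hpY]
  set f : ℝ → ℝ × ℝ × ℝ := fun ε => (φ0.1 + ε * sv.1, φ0.2 + ε * sv.2,
    - dot φ0 a - ε * dot sv a - ε * s b - ε ^ 2) with hf
  have hev : ∀ ε p, ev (f ε) p = (dot φ0 p - dot φ0 a) + ε * (s p - s b - ε) := by
    intro ε p
    simp only [hf, ev, hsd, dot]; ring
  have hcont : ∀ p : Pt, Tendsto (fun ε => ev (f ε) p) (𝓝[>] 0) (𝓝 (dot φ0 p - dot φ0 a)) := by
    intro p
    have : Continuous (fun ε : ℝ => (dot φ0 p - dot φ0 a) + ε * (s p - s b - ε)) := by fun_prop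
    have h2 := this.tendsto 0
    simp only [zero_mul, add_zero] at h2
    simp only [hev]
    exact h2.mono_left nhdsWithin_le_nhds
  have hpos : ∀ᶠ ε in 𝓝[>] (0 : ℝ), 0 < ε := self_mem_nhdsWithin
  have h1 : ∀ᶠ ε in 𝓝[>] (0 : ℝ), ∀ p ∈ X1, ev (f ε) p < 0 := by
    rw [eventually_all_finset]
    intro p hp
    rcases eq_or_lt_of_le (hX1le p hp) with h | h
    · have hsp : s p ≤ s b := by
        rcases mem_insert.1 hp with h' | h'
        · rw [h']; simp only [hsd, sub_self]; exact (hs b hbY).le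
        · obtain ⟨hpY, hk⟩ := mem_filter.1 h'
          rcases (hkle p b).1 hk with h2 | h2
          · have := hdY p hpY
            nlinarith [hs p hpY]
          · exact h2.2
      filter_upwards [hpos] with ε hε
      rw [hev, h]
      nlinarith
    · exact (hcont p).eventually (gt_mem_nhds (by linarith))
  have h2 : ∀ᶠ ε in 𝓝[>] (0 : ℝ), ∀ p ∈ X2, 0 < ev (f ε) p := by
    rw [eventually_all_finset]
    intro p hp
    obtain ⟨hpY, hk⟩ := mem_filter.1 hp
    rw [not_le, hklt] at hk
    rcases hk with h | h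
    · refine (hcont p).eventually (lt_mem_nhds ?_)
      rw [hdY p hpY]
      exact mul_pos (by linarith) (hs p hpY)
    · have hlt : ∀ᶠ ε in 𝓝[>] (0 : ℝ), ε < s p - s b :=
        (gt_mem_nhds (by linarith [h.2]) : ∀ᶠ ε in 𝓝 (0 : ℝ), ε < s p - s b).filter_mono
          nhdsWithin_le_nhds
      filter_upwards [hpos, hlt] with ε hε hε'
      rw [hev, hdY p hpY, ← h.1, hρ, sub_self, zero_mul, zero_add]
      exact mul_pos hε (by linarith)
  obtain ⟨ε, s1, s2⟩ := (h1.and h2).exists
  have hbX1 : b ∈ X1 := mem_insert_of_mem (mem_filter.2 ⟨hbY, le_rfl⟩)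
  refine ⟨X1, X2, f ε, φ0, a, b, ?_, ⟨s1, s2⟩, ?_, ?_, insert_nonempty _ _, ⟨r, hrX2⟩,
    ⟨r, hrX2, ?_⟩, ?_, ?_, hcol⟩
  · rw [hX1, hX2, insert_union, filter_union_filter_not_eq, hY, insert_erase ha]
  · rw [bal_iff χ (χ a), hX1, sum_insert (fun h => haY (mem_filter.1 h).1)]
    simp only [hE] at hE1
    rw [← hg, hga, hE1]; rfl
  · rw [bal_iff χ (χ a), ← hg]
    have := sum_filter_add_sum_filter_not Y (fun q => key q ≤ key b) g
    simp only [hE] at hE1
    rw [hE1, hYsum, ← hX2] at this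
    omega
  · intro u hu
    have := hdY r hrY
    have := mul_pos (sub_pos.2 hrρ) (hs r hrY)
    linarith [hX1le u hu]
  · exact mem_face.2 ⟨mem_insert_self _ _, hX1le⟩
  · refine mem_face.2 ⟨hbX1, fun q hq => ?_⟩
    have := hdY b hbY
    rw [← hρ, sub_self, zero_mul] at this
    linarith [hX1le q hq]

theorem cut_or_line {X : Finset Pt} {χ : Pt → Bool} (hne : X.Nonempty)
    (bal : cnt χ true X = cnt χ false X) :
    (∃ φ : Pt, φ ≠ 0 ∧ ∀ p ∈ X, ∀ q ∈ X, dot φ p = dot φ q) ∨ GoodCut χ X := by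
  classical
  obtain ⟨a, ha, hmax⟩ := exists_max_image X (fun p => p.1 ^ 2 + p.2 ^ 2) hne
  set sv : Pt := (-a.1, -a.2) with hsv
  set wv : Pt := (-a.2, a.1) with hwv
  have hs : ∀ p ∈ X.erase a, 0 < dot sv p - dot sv a := by
    intro p hp
    obtain ⟨hpa, hpX⟩ := mem_erase.1 hp
    have h1 := hmax p hpX
    have h2 : 0 < (p.1 - a.1) ^ 2 + (p.2 - a.2) ^ 2 := by
      by_contra hc
      apply hpa
      have e1 : p.1 - a.1 = 0 := by nlinarith [sq_nonneg (p.1 - a.1), sq_nonneg (p.2 - a.2)]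
      have e2 : p.2 - a.2 = 0 := by nlinarith [sq_nonneg (p.1 - a.1), sq_nonneg (p.2 - a.2)]
      exact Prod.ext (by linarith) (by linarith)
    simp only [hsv, dot] at h1 ⊢
    nlinarith
  have hYsum : ∑ p ∈ X.erase a, sg χ (χ a) p = 1 := by
    have h1 := (bal_iff χ (χ a) X).1 bal
    have h2 := add_sum_erase X (sg χ (χ a)) ha
    have hga : sg χ (χ a) a = -1 := by simp [sg]
    rw [hga, h1] at h2
    omega
  have hYne : (X.erase a).Nonempty := by
    rw [nonempty_iff_ne_empty]
    intro h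
    rw [h] at hYsum
    simp at hYsum
  have ha0 : 0 < a.1 ^ 2 + a.2 ^ 2 := by
    obtain ⟨p, hp⟩ := hYne
    have := hs p hp
    by_contra hc
    have e1 : a.1 = 0 := by nlinarith [sq_nonneg a.1, sq_nonneg a.2]
    have e2 : a.2 = 0 := by nlinarith [sq_nonneg a.1, sq_nonneg a.2]
    simp [hsv, dot, e1, e2] at this
  have hinj : ∀ p q, dot sv p = dot sv q → dot wv p = dot wv q → p = q := by
    intro p q h1 h2
    simp only [hsv, hwv, dot] at h1 h2
    have k1 : (a.1 ^ 2 + a.2 ^ 2) * (p.1 - q.1) = 0 := by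
      linear_combination (-a.1) * h1 - a.2 * h2
    have k2 : (a.1 ^ 2 + a.2 ^ 2) * (p.2 - q.2) = 0 := by
      linear_combination (-a.2) * h1 + a.1 * h2
    have := (mul_eq_zero.1 k1).resolve_left ha0.ne'
    have := (mul_eq_zero.1 k2).resolve_left ha0.ne'
    exact Prod.ext (by linarith) (by linarith)
  set sl : Pt → ℝ := fun p => (dot wv p - dot wv a) / (dot sv p - dot sv a) with hsl
  obtain ⟨m, hm, hmin⟩ := exists_min_image _ sl hYne
  set R1 := (X.erase a).filter (fun q => sl q ≤ sl m) with hR1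
  set R2 := (X.erase a).filter (fun q => ¬ sl q ≤ sl m) with hR2
  rcases R2.eq_empty_or_nonempty with h2 | ⟨r, hr⟩
  · left
    refine ⟨(wv.1 - sl m * sv.1, wv.2 - sl m * sv.2), ?_, ?_⟩
    · intro h
      have e1 := congrArg Prod.fst h
      have e2 := congrArg Prod.snd h
      simp only [hsv, hwv, Prod.fst_zero, Prod.snd_zero] at e1 e2
      have : a.1 ^ 2 + a.2 ^ 2 = 0 := by linear_combination (-a.2) * e1 + a.1 * e2
      linarith
    · have key : ∀ p ∈ X, dot (wv.1 - sl m * sv.1, wv.2 - sl m * sv.2) p =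
          dot (wv.1 - sl m * sv.1, wv.2 - sl m * sv.2) a := by
        intro p hp
        by_cases hpa : p = a
        · rw [hpa]
        have hpY : p ∈ X.erase a := mem_erase.2 ⟨hpa, hp⟩
        have h3 : sl p ≤ sl m := by
          by_contra hc
          have : p ∈ R2 := mem_filter.2 ⟨hpY, hc⟩
          rw [h2] at this
          simp at this
        have h4 : sl p = sl m := le_antisymm h3 (hmin p hpY)
        have h5 : dot wv p - dot wv a = sl m * (dot sv p - dot sv a) := by
          rw [← h4]; simp only [hsl]; field_simp [(hs p hpY).ne']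
        simp only [dot] at h5 ⊢
        linear_combination h5
      intro p hp q hq
      rw [key p hp, key q hq]
  · right
    have hsplit := sum_filter_add_sum_filter_not (X.erase a) (fun q => sl q ≤ sl m) (sg χ (χ a))
    rw [hYsum, ← hR1, ← hR2] at hsplit
    by_cases hc : 1 ≤ ∑ q ∈ R1, sg χ (χ a) q
    · refine cut_aux ha sv wv hs hinj bal R1 (filter_subset _ _) ?_ hc
        ⟨r, (mem_filter.1 hr).1, fun h => (mem_filter.1 hr).2 (mem_filter.1 h).2⟩
      intro q hq q' hq' hle
      exact mem_filter.2 ⟨hq', le_trans hle (mem_filter.1 hq).2⟩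
    · have hneg : ∀ p, dot (-wv) p = - dot wv p := by
        intro p; simp only [dot, Prod.fst_neg, Prod.snd_neg]; ring
      refine cut_aux ha sv (-wv) hs ?_ bal R2 (filter_subset _ _) ?_ (by omega)
        ⟨m, hm, fun h => (mem_filter.1 h).2 le_rfl⟩
      · intro p q h1 h2
        rw [hneg, hneg] at h2
        exact hinj p q h1 (by linarith)
      · intro q hq q' hq' hle
        refine mem_filter.2 ⟨hq', fun h => (mem_filter.1 hq).2 (le_trans ?_ h)⟩
        simp only [hneg] at hle
        have e : ∀ p, (- dot wv p - - dot wv a) / (dot sv p - dot sv a) = - sl p := by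
          intro p; simp only [hsl]; ring
        rw [e, e] at hle
        linarith

end Pool.Agent.Vis5f
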