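import Pool.Agent.Lib.MP_5f22fc_co.Pocket

set_option autoImplicit false
open Finset Filter Topology

namespace Pool.Agent.Vis5f

/-- twice the signed area -/
def det (p q r : Pt) : ℝ := (q.1 - p.1) * (r.2 - p.2) - (q.2 - p.2) * (r.1 - p.1)

theorem cubic_ne {c0 c1 c2 c3 : ℝ} (h : c1 ≠ 0 ∨ c2 ≠ 0 ∨ c3 ≠ 0) :
    ∀ᶠ ε in 𝓝[≠] (0 : ℝ), c0 + c1 * ε + c2 * ε ^ 2 + c3 * ε ^ 3 ≠ 0 := by
  set P : Polynomial ℝ := Polynomial.C c0 + Polynomial.C c1 * Polynomial.X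
    + Polynomial.C c2 * Polynomial.X ^ 2 + Polynomial.C c3 * Polynomial.X ^ 3 with hP
  have hne : P ≠ 0 := by
    intro h0
    have e1 := congrArg (fun Q => Polynomial.coeff Q 1) h0
    have e2 := congrArg (fun Q => Polynomial.coeff Q 2) h0
    have e3 := congrArg (fun Q => Polynomial.coeff Q 3) h0
    simp [hP, Polynomial.coeff_C, Polynomial.coeff_X_pow] at e1 e2 e3
    tauto
  have hf := Polynomial.finite_setOfPred_isRoot hne
  have := hf.eventually_cofinite_notMem.filter_mono (nhdsNE_le_cofinite (0 : ℝ))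
  filter_upwards [this] with ε hε
  intro h0
  apply hε
  simp only [Polynomial.IsRoot.def, hP]
  simp [h0]

theorem exists_gen {X1 X2 : Finset Pt} {ξ : ℝ × ℝ × ℝ} (hs : Sep X1 X2 ξ) :
    ∃ ξ', Sep X1 X2 ξ' ∧ Gen X1 X2 ξ' := by
  set f : ℝ → ℝ × ℝ × ℝ := fun ε => (ξ.1 + ε ^ 2, ξ.2.1 + ε ^ 3, ξ.2.2 + ε) with hf
  have hev : ∀ ε p, ev (f ε) p = ev ξ p + ε + ε ^ 2 * p.1 + ε ^ 3 * p.2 := by
    intro ε p
    simp only [hf, ev]; ring
  have hcont : ∀ p : Pt, Tendsto (fun ε => ev (f ε) p) (𝓝[≠] 0) (𝓝 (ev ξ p)) := by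
    intro p
    have : Continuous (fun ε : ℝ => ev ξ p + ε + ε ^ 2 * p.1 + ε ^ 3 * p.2) := by fun_prop
    have h2 := this.tendsto 0
    simp only [add_zero, ne_eq, OfNat.ofNat_ne_zero, not_false_eq_true, zero_pow, zero_mul] at h2
    simp only [hev]
    exact h2.mono_left nhdsWithin_le_nhds
  have h1 : ∀ᶠ ε in 𝓝[≠] (0 : ℝ), ∀ p ∈ X1, ev (f ε) p < 0 := by
    rw [eventually_all_finset]
    intro p hp
    exact (hcont p).eventually (gt_mem_nhds (hs.1 p hp))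
  have h2 : ∀ᶠ ε in 𝓝[≠] (0 : ℝ), ∀ p ∈ X2, 0 < ev (f ε) p := by
    rw [eventually_all_finset]
    intro p hp
    exact (hcont p).eventually (lt_mem_nhds (hs.2 p hp))
  have h3 : ∀ᶠ ε in 𝓝[≠] (0 : ℝ), ∀ u ∈ X1, ∀ u' ∈ X1, ∀ v ∈ X2, ∀ v' ∈ X2,
      u ≠ u' → det u v v' ≠ 0 → det u' v v' * ev (f ε) u ≠ det u v v' * ev (f ε) u' := by
    simp only [eventually_all_finset]
    intro u _ u' _ v _ v' _
    by_cases huu : u = u'
    · exact Eventually.of_forall (fun _ h => absurd huu h)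
    by_cases hd : det u v v' = 0
    · exact Eventually.of_forall (fun _ _ h => absurd hd h)
    have hc : det u' v v' - det u v v' ≠ 0 ∨ det u' v v' * u.1 - det u v v' * u'.1 ≠ 0 ∨
        det u' v v' * u.2 - det u v v' * u'.2 ≠ 0 := by
      by_contra hc
      push Not at hc
      obtain ⟨a1, a2, a3⟩ := hc
      have e : det u' v v' = det u v v' := by linarith
      rw [e] at a2 a3
      apply huu
      have b2 : det u v v' * (u.1 - u'.1) = 0 := by linarith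
      have b3 : det u v v' * (u.2 - u'.2) = 0 := by linarith
      have := (mul_eq_zero.1 b2).resolve_left hd
      have := (mul_eq_zero.1 b3).resolve_left hd
      exact Prod.ext (by linarith) (by linarith)
    filter_upwards [cubic_ne (c0 := det u' v v' * ev ξ u - det u v v' * ev ξ u') hc] with ε hε
    intro _ _ h
    apply hε
    rw [hev, hev] at h
    linear_combination h
  obtain ⟨ε, a1, a2, a3⟩ := (h1.and (h2.and h3)).exists
  refine ⟨f ε, ⟨a1, a2⟩, ?_⟩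
  rintro l ⟨u, v⟩ ⟨u', v'⟩ ⟨hu, hv, tu, tv⟩ ⟨hu', hv', tu', tv'⟩
  simp only at hu hv tu tv hu' hv' tu' tv' ⊢
  by_contra hc
  push Not at hc
  obtain ⟨huu, hvv⟩ := hc
  have hxu := a1 u hu
  generalize f ε = η at *
  have hd : det u v v' ≠ 0 := by
    intro hd
    apply hvv
    simp only [ev, det] at tu tv tv' hd hxu
    have k1 : (η.1 * u.1 + η.2.1 * u.2 + η.2.2) * (v'.1 - v.1) = 0 := by
      linear_combination (1 / 2 : ℝ) * (v'.1 - v.1) * (tu - tv) - (1 / 2 : ℝ) * (u.1 - v.1) * (tv' - tv)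
        - (1 / 2 : ℝ) * (l.2.1 - η.2.1) * hd
    have k2 : (η.1 * u.1 + η.2.1 * u.2 + η.2.2) * (v'.2 - v.2) = 0 := by
      linear_combination (1 / 2 : ℝ) * (v'.2 - v.2) * (tu - tv) - (1 / 2 : ℝ) * (u.2 - v.2) * (tv' - tv)
        + (1 / 2 : ℝ) * (l.1 - η.1) * hd
    have := (mul_eq_zero.1 k1).resolve_left hxu.ne
    have := (mul_eq_zero.1 k2).resolve_left hxu.ne
    exact Prod.ext (by linarith) (by linarith)
  apply a3 u hu u' hu' v hv v' hv' huu hd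
  simp only [ev, det] at tu tv tu' tv' ⊢
  linear_combination (1 / 2 : ℝ) * ((v.1 - u'.1) * (v'.2 - u'.2) - (v.2 - u'.2) * (v'.1 - u'.1)) * tu
    - (1 / 2 : ℝ) * ((v.1 - u.1) * (v'.2 - u.2) - (v.2 - u.2) * (v'.1 - u.1)) * tu'
    + (1 / 2 : ℝ) * ((u'.1 - u.1) * (v'.2 - u.2) - (u'.2 - u.2) * (v'.1 - u.1)) * tv
    - (1 / 2 : ℝ) * ((u'.1 - u.1) * (v.2 - u.2) - (u'.2 - u.2) * (v.1 - u.1)) * tv'

/-- some point of `X2` lies strictly beyond `X1` in direction `φ` -/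
def Cov (φ : Pt) (X1 X2 : Finset Pt) : Prop := ∃ v ∈ X2, ∀ u ∈ X1, dot φ u < dot φ v

theorem exists_fan {X1 X2 : Finset Pt} {ξ : ℝ × ℝ × ℝ} (hs : Sep X1 X2 ξ) (hne : X1.Nonempty)
    {φ : Pt} (hc : Cov φ X1 X2) :
    ∃ l : ℝ × ℝ × ℝ, ∃ v ∈ X2, ∃ t : ℝ, 0 < t ∧ Adm X1 X2 ξ l ∧
      (∀ u ∈ face φ X1, Tight X1 X2 ξ l (u, v)) ∧
      l.1 + ξ.1 = t * φ.1 ∧ l.2.1 + ξ.2.1 = t * φ.2 := by
  classical
  obtain ⟨u0, hu0, hmax⟩ := exists_max_image X1 (dot φ) hne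
  obtain ⟨v0, hv0, hv0'⟩ := hc
  set M := dot φ u0 with hM
  have hT : (X2.filter (fun q => M < dot φ q)).Nonempty :=
    ⟨v0, mem_filter.2 ⟨hv0, hv0' u0 hu0⟩⟩
  obtain ⟨v, hv, hmin⟩ := exists_min_image _ (fun q => 2 * ev ξ q / (dot φ q - M)) hT
  obtain ⟨hv2, hvM⟩ := mem_filter.1 hv
  set t := 2 * ev ξ v / (dot φ v - M) with ht
  have ht0 : 0 < t := div_pos (by linarith [hs.2 v hv2]) (by linarith)
  have htv : t * (dot φ v - M) = 2 * ev ξ v := by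
    rw [ht]; field_simp [(sub_pos.2 hvM).ne']
  set l : ℝ × ℝ × ℝ := (t * φ.1 - ξ.1, t * φ.2 - ξ.2.1, - t * M - ξ.2.2) with hl
  have hev : ∀ p, ev l p = t * (dot φ p - M) - ev ξ p := by
    intro p
    simp only [hl, ev, dot]; ring
  refine ⟨l, v, hv2, t, ht0, ⟨?_, ?_⟩, ?_, ?_, ?_⟩
  · intro p hp
    rw [hev]
    nlinarith [hmax p hp]
  · intro q hq
    rw [hev]
    by_cases hq' : M < dot φ q
    · have := hmin q (mem_filter.2 ⟨hq, hq'⟩)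
      rw [le_div_iff₀ (sub_pos.2 hq')] at this
      linarith
    · push Not at hq'
      nlinarith [hs.2 q hq]
  · intro u hu
    have h1 : dot φ u = M := le_antisymm (hmax u (mem_face.1 hu).1) ((mem_face.1 hu).2 u0 hu0)
    refine ⟨(mem_face.1 hu).1, hv2, ?_, ?_⟩
    · simp only [hev, h1]; ring
    · simp only [hev, htv]; ring
  · simp only [hl]; ring
  · simp only [hl]; ring

theorem unit_eq {φ ψ : Pt} (h1 : ‖φ‖ = 1) (h2 : ‖ψ‖ = 1) {t s : ℝ} (ht : 0 < t) (hs : 0 < s)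
    (e1 : t * φ.1 = s * ψ.1) (e2 : t * φ.2 = s * ψ.2) : φ = ψ := by
  have e : t • φ = s • ψ := Prod.ext e1 e2
  have := congrArg norm e
  rw [norm_smul, norm_smul, h1, h2, Real.norm_of_nonneg ht.le, Real.norm_of_nonneg hs.le] at this
  have hts : t = s := by linarith
  subst hts
  exact smul_right_injective _ ht.ne' e

theorem Sep.swap {X1 X2 : Finset Pt} {ξ : ℝ × ℝ × ℝ} (hs : Sep X1 X2 ξ) : Sep X2 X1 (-ξ) :=
  ⟨fun p hp => by rw [ev_neg]; linarith [hs.2 p hp], fun p hp => by rw [ev_neg]; linarith [hs.1 p hp]⟩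

theorem Adm.swap {X1 X2 : Finset Pt} {ξ l : ℝ × ℝ × ℝ} (h : Adm X2 X1 (-ξ) l) : Adm X1 X2 ξ l :=
  ⟨fun p hp => by have := h.2 p hp; rwa [ev_neg] at this,
    fun p hp => by have := h.1 p hp; rwa [ev_neg, neg_neg] at this⟩

theorem Tight.swap {X1 X2 : Finset Pt} {ξ l : ℝ × ℝ × ℝ} {u v : Pt}
    (h : Tight X2 X1 (-ξ) l (v, u)) : Tight X1 X2 ξ l (u, v) := by
  obtain ⟨a, b, c, d⟩ := h
  rw [ev_neg] at c d
  exact ⟨b, a, d, by rw [c, neg_neg]⟩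

theorem lam_le_filter (χ : Pt → Bool) (F : Finset Pt) (c : Bool) :
    lam χ F ≤ (F.filter (fun u => χ u ≠ c)).card - 1 := by
  unfold lam cnt
  cases c
  · have : F.filter (fun u => χ u ≠ false) = F.filter (fun u => χ u = true) := by
      congr 1; ext u; simp
    rw [this]; omega
  · have : F.filter (fun u => χ u ≠ true) = F.filter (fun u => χ u = false) := by
      congr 1; ext u; simp
    rw [this]; omega

open Classical in
theorem pocket {C X1 X2 : Finset Pt} {χ : Pt → Bool} {ξ0 : ℝ × ℝ × ℝ} (hs0 : Sep X1 X2 ξ0)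
    (hb : Blocks C χ (X1 ∪ X2)) (h1 : X1.Nonempty) (h2 : X2.Nonempty)
    (Ψ1 Ψ2 : Finset Pt) (u1 : ∀ φ ∈ Ψ1, ‖φ‖ = 1 ∧ Cov φ X1 X2)
    (u2 : ∀ φ ∈ Ψ2, ‖φ‖ = 1 ∧ Cov φ X2 X1) {φ0 a b : Pt} (hc0 : Cov φ0 X1 X2)
    (ha : a ∈ face φ0 X1) (hb' : b ∈ face φ0 X1) (hab : χ a ≠ χ b) :
    1 + ∑ φ ∈ Ψ1, lam χ (face φ X1) + ∑ φ ∈ Ψ2, lam χ (face φ X2) ≤
      (C.filter (fun c => c ∈ convexHull ℝ ((X1 ∪ X2 : Finset Pt) : Set Pt) ∧
        c ∉ convexHull ℝ (X1 : Set Pt) ∧ c ∉ convexHull ℝ (X2 : Set Pt))).card := by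
  obtain ⟨ξ, hs, hg⟩ := exists_gen hs0
  have f1 : ∀ φ, Cov φ X1 X2 → _ := fun φ h => exists_fan hs h1 (φ := φ) h
  have f2 : ∀ φ, Cov φ X2 X1 → _ := fun φ h => exists_fan hs.swap h2 (φ := φ) h
  choose! l1 v1 hv1 t1 ht1 ad1 tt1 e11 e12 using f1
  choose! l2 v2 hv2 t2 ht2 ad2 tt2 e21 e22 using f2
  set l : Pt ⊕ Pt → ℝ × ℝ × ℝ := Sum.elim l1 l2 with hl
  set S : Pt ⊕ Pt → Finset (Pt × Pt) := Sum.elim
    (fun φ => ((face φ X1).filter (fun u => χ u ≠ χ (v1 φ))).image (fun u => (u, v1 φ)))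
    (fun φ => ((face φ X2).filter (fun u => χ u ≠ χ (v2 φ))).image (fun u => (v2 φ, u))) with hS
  have hadm : ∀ i ∈ Ψ1.disjSum Ψ2, Adm X1 X2 ξ (l i) := by
    rintro (φ | φ) hi
    · exact ad1 φ (u1 φ (inl_mem_disjSum.1 hi)).2
    · exact (ad2 φ (u2 φ (inr_mem_disjSum.1 hi)).2).swap
  have ht : ∀ i ∈ Ψ1.disjSum Ψ2, ∀ e ∈ S i, Tight X1 X2 ξ (l i) e ∧ χ e.1 ≠ χ e.2 := by
    rintro (φ | φ) hi e he
    · obtain ⟨u, hu, rfl⟩ := mem_image.1 he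
      exact ⟨tt1 φ (u1 φ (inl_mem_disjSum.1 hi)).2 u (mem_filter.1 hu).1, (mem_filter.1 hu).2⟩
    · obtain ⟨u, hu, rfl⟩ := mem_image.1 he
      exact ⟨(tt2 φ (u2 φ (inr_mem_disjSum.1 hi)).2 u (mem_filter.1 hu).1).swap,
        (mem_filter.1 hu).2.symm⟩
  have hmix : ∀ φ ∈ Ψ1, ∀ ψ ∈ Ψ2, l1 φ = l2 ψ → 1 < (S (Sum.inl φ)).card →
      1 < (S (Sum.inr ψ)).card → False := by
    intro φ hφ ψ hψ hll c1 c2
    obtain ⟨e, he, e', he', hee⟩ := one_lt_card.1 c1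
    obtain ⟨g, hg1, g', hg', hgg⟩ := one_lt_card.1 c2
    have te := (ht _ (inl_mem_disjSum.2 hφ) e he).1
    have te' := (ht _ (inl_mem_disjSum.2 hφ) e' he').1
    have tg := (ht _ (inr_mem_disjSum.2 hψ) g hg1).1
    have tg' := (ht _ (inr_mem_disjSum.2 hψ) g' hg').1
    simp only [hl, Sum.elim_inl, Sum.elim_inr] at te te' tg tg'
    rw [← hll] at tg tg'
    obtain ⟨u, _, rfl⟩ := mem_image.1 he
    obtain ⟨u', _, rfl⟩ := mem_image.1 he'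
    obtain ⟨w, _, rfl⟩ := mem_image.1 hg1
    obtain ⟨w', _, rfl⟩ := mem_image.1 hg'
    rcases hg (l1 φ) (u, w) (u', w') ⟨te.1, tg.2.1, te.2.2.1, tg.2.2.2⟩
      ⟨te'.1, tg'.2.1, te'.2.2.1, tg'.2.2.2⟩ with h | h
    · simp only at h
      exact hee (by rw [h])
    · simp only at h
      exact hgg (by rw [h])
  have hinj : ∀ i ∈ Ψ1.disjSum Ψ2, ∀ j ∈ Ψ1.disjSum Ψ2, l i = l j → 1 < (S i).card →
      1 < (S j).card → i = j := by
    rintro (φ | φ) hi (ψ | ψ) hj hll c1 c2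
    · have a1 := u1 φ (inl_mem_disjSum.1 hi)
      have a2 := u1 ψ (inl_mem_disjSum.1 hj)
      simp only [hl, Sum.elim_inl] at hll
      congr 1
      refine unit_eq a1.1 a2.1 (ht1 φ a1.2) (ht1 ψ a2.2) ?_ ?_
      · rw [← e11 φ a1.2, ← e11 ψ a2.2, hll]
      · rw [← e12 φ a1.2, ← e12 ψ a2.2, hll]
    · exact (hmix φ (inl_mem_disjSum.1 hi) ψ (inr_mem_disjSum.1 hj) hll c1 c2).elim
    · exact (hmix ψ (inl_mem_disjSum.1 hj) φ (inr_mem_disjSum.1 hi) hll.symm c2 c1).elim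
    · have a1 := u2 φ (inr_mem_disjSum.1 hi)
      have a2 := u2 ψ (inr_mem_disjSum.1 hj)
      simp only [hl, Sum.elim_inr] at hll
      congr 1
      refine unit_eq a1.1 a2.1 (ht2 φ a1.2) (ht2 ψ a2.2) ?_ ?_
      · rw [← e21 φ a1.2, ← e21 ψ a2.2, hll]
      · rw [← e22 φ a1.2, ← e22 ψ a2.2, hll]
  obtain ⟨e0, te0, ce0⟩ : ∃ e0 : Pt × Pt, Tight X1 X2 ξ (l1 φ0) e0 ∧ χ e0.1 ≠ χ e0.2 := by
    by_cases h : χ a = χ (v1 φ0)
    · exact ⟨(b, v1 φ0), tt1 φ0 hc0 b hb', fun h' => hab (h.trans h'.symm)⟩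
    · exact ⟨(a, v1 φ0), tt1 φ0 hc0 a ha, h⟩
  have hcount := pocket_count hs hg (Ψ1.disjSum Ψ2) l S hadm (fun i hi e he => (ht i hi e he).1)
    hinj te0
  have hgood : ∀ e ∈ insert e0 ((Ψ1.disjSum Ψ2).biUnion S),
      ∃ m, Adm X1 X2 ξ m ∧ Tight X1 X2 ξ m e ∧ χ e.1 ≠ χ e.2 := by
    intro e he
    rcases mem_insert.1 he with h | h
    · exact ⟨l1 φ0, ad1 φ0 hc0, h ▸ te0, h ▸ ce0⟩
    · obtain ⟨i, hi, h⟩ := mem_biUnion.1 h
      exact ⟨l i, hadm i hi, ht i hi e h⟩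
  have hbl : ∀ e ∈ insert e0 ((Ψ1.disjSum Ψ2).biUnion S),
      ∃ c ∈ C, c ∈ openSegment ℝ e.1 e.2 := by
    intro e he
    obtain ⟨m, _, tm, cm⟩ := hgood e he
    exact hb _ (mem_union_left _ tm.1) _ (mem_union_right _ tm.2.1) cm
  choose! c hcC hcS using hbl
  have hle : (insert e0 ((Ψ1.disjSum Ψ2).biUnion S)).card ≤
      (C.filter (fun c => c ∈ convexHull ℝ ((X1 ∪ X2 : Finset Pt) : Set Pt) ∧
        c ∉ convexHull ℝ (X1 : Set Pt) ∧ c ∉ convexHull ℝ (X2 : Set Pt))).card := by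
    refine card_le_card_of_injOn c ?_ ?_
    · intro e he
      have he' := mem_coe.1 he
      obtain ⟨m, am, tm, _⟩ := hgood e he'
      refine mem_coe.2 (mem_filter.2 ⟨hcC e he', ?_, good_not_hull hs am tm (hcS e he')⟩)
      exact openSegment_sub_hull (mem_union_left _ tm.1) (mem_union_right _ tm.2.1) (hcS e he')
    · intro e he e' he' hcc
      obtain ⟨m, am, tm, _⟩ := hgood e (mem_coe.1 he)
      obtain ⟨m', am', tm', _⟩ := hgood e' (mem_coe.1 he')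
      exact good_eq hs hg am am' tm tm' (hcS e (mem_coe.1 he)) (hcc ▸ hcS e' (mem_coe.1 he'))
  refine le_trans ?_ (hcount.trans hle)
  rw [sum_disjSum, add_assoc]
  refine Nat.add_le_add_left (Nat.add_le_add (sum_le_sum ?_) (sum_le_sum ?_)) 1
  · intro φ _
    simp only [hS, Sum.elim_inl]
    rw [card_image_of_injective _ (fun x y h => (Prod.ext_iff.1 h).1)]
    exact lam_le_filter χ _ _
  · intro φ _
    simp only [hS, Sum.elim_inr]
    rw [card_image_of_injective _ (fun x y h => (Prod.ext_iff.1 h).2)]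
    exact lam_le_filter χ _ _

end Pool.Agent.Vis5f
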