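import Pool.Agent.Lib.MP_5f22fc_co.Hull

set_option autoImplicit false
open Finset

namespace Pool.Agent.Vis5f

/-- `G` is the visibility graph of `P` -/
def IsVis (P : Finset Pt) (G : SimpleGraph Pt) : Prop :=
  ∀ p q : Pt, G.Adj p q ↔ (p ∈ P ∧ q ∈ P ∧ p ≠ q ∧ ∀ r ∈ P, r ∉ openSegment ℝ p q)

/-- `S` separates `A` from `B` -/
def IsCut (P : Finset Pt) (G : SimpleGraph Pt) (A B S : Finset Pt) : Prop :=
  A ∪ B ∪ S = P ∧ Disjoint A B ∧ ∀ a ∈ A, ∀ b ∈ B, ¬ G.Adj a b

theorem seg_sub {a b r : Pt} (h : r ∈ openSegment ℝ a b) :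
    openSegment ℝ r b ⊆ openSegment ℝ a b := by
  obtain ⟨s, t, hs, ht, hst, rfl⟩ := h
  rintro z ⟨u, v, hu, hv, huv, rfl⟩
  refine ⟨u * s, u * t + v, mul_pos hu hs, by positivity, ?_, ?_⟩
  · linear_combination u * hst + huv
  · rw [smul_add, smul_smul, smul_smul, add_smul, add_assoc]

variable {P A B S : Finset Pt} {G : SimpleGraph Pt}

theorem IsCut.subA (h : IsCut P G A B S) : A ⊆ P :=
  h.1 ▸ subset_union_left.trans subset_union_left

theorem IsCut.subB (h : IsCut P G A B S) : B ⊆ P :=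
  h.1 ▸ subset_union_right.trans subset_union_left

theorem IsCut.cases (h : IsCut P G A B S) {p : Pt} (hp : p ∈ P) : p ∈ A ∨ p ∈ B ∨ p ∈ S := by
  rw [← h.1] at hp
  simpa [or_assoc] using hp

theorem IsCut.symm (h : IsCut P G A B S) : IsCut P G B A S :=
  ⟨by rw [union_comm B A]; exact h.1, h.2.1.symm, fun b hb a ha e => h.2.2 a ha b hb e.symm⟩

theorem exists_blocker (hG : IsVis P G) (h : IsCut P G A B S) :
    ∀ a ∈ A, ∀ b ∈ B, ∃ c ∈ S, c ∈ openSegment ℝ a b := by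
  classical
  have key : ∀ n : ℕ, ∀ a ∈ A, ∀ b ∈ B, (P.filter (fun r => r ∈ openSegment ℝ a b)).card = n →
      ∃ c ∈ S, c ∈ openSegment ℝ a b := by
    intro n
    induction n using Nat.strong_induction_on with
    | _ n ih =>
    intro a ha b hb hn
    have hab : a ≠ b := fun e => disjoint_left.1 h.2.1 ha (e ▸ hb)
    have h1 := h.2.2 a ha b hb
    rw [hG] at h1
    have : ∃ r ∈ P, r ∈ openSegment ℝ a b := by
      by_contra hc
      push Not at hc
      exact h1 ⟨h.subA ha, h.subB hb, hab, hc⟩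
    obtain ⟨r, hrP, hr⟩ := this
    rcases h.cases hrP with e | e | e
    · have hrb : r ≠ b := fun e' => disjoint_left.1 h.2.1 e (e' ▸ hb)
      have hlt : (P.filter (fun x => x ∈ openSegment ℝ r b)).card < n := by
        rw [← hn]
        refine card_lt_card ⟨fun x hx => mem_filter.2 ⟨(mem_filter.1 hx).1,
          seg_sub hr (mem_filter.1 hx).2⟩, fun hs => ?_⟩
        have := (mem_filter.1 (hs (mem_filter.2 ⟨hrP, hr⟩))).2
        exact hrb (left_mem_openSegment_iff.1 this)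
      obtain ⟨c, hc, hc'⟩ := ih _ hlt r e b hb rfl
      exact ⟨c, hc, seg_sub hr hc'⟩
    · have hra : a ≠ r := fun e' => disjoint_left.1 h.2.1 ha (e' ▸ e)
      have hs : openSegment ℝ a r ⊆ openSegment ℝ a b := by
        rw [openSegment_symm ℝ a r, openSegment_symm ℝ a b]
        exact seg_sub (by rw [openSegment_symm]; exact hr)
      have hlt : (P.filter (fun x => x ∈ openSegment ℝ a r)).card < n := by
        rw [← hn]
        refine card_lt_card ⟨fun x hx => mem_filter.2 ⟨(mem_filter.1 hx).1,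
          hs (mem_filter.1 hx).2⟩, fun hs => ?_⟩
        have := (mem_filter.1 (hs (mem_filter.2 ⟨hrP, hr⟩))).2
        exact hra (right_mem_openSegment_iff.1 this)
      obtain ⟨c, hc, hc'⟩ := ih _ hlt a ha r e rfl
      exact ⟨c, hc, hs hc'⟩
    · exact ⟨r, e, hr⟩
  intro a ha b hb
  exact key _ a ha b hb rfl

theorem deg_triv (hG : IsVis P G) (h : IsCut P G A B S) {a : Pt} (ha : a ∈ A) :
    (G.neighborSet a).ncard + 1 ≤ S.card + A.card := by
  classical
  have : G.neighborSet a ⊆ ((S ∪ A.erase a : Finset Pt) : Set Pt) := by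
    intro x hx
    have hx' : G.Adj a x := hx
    rcases h.cases ((hG a x).1 hx').2.1 with e | e | e
    · exact mem_coe.2 (mem_union_right _ (mem_erase.2 ⟨hx'.ne.symm, e⟩))
    · exact absurd hx' (h.2.2 a ha x e)
    · exact mem_coe.2 (mem_union_left _ e)
  have h1 := Set.ncard_le_ncard this (finite_toSet _)
  rw [Set.ncard_coe_finset] at h1
  have h2 := card_union_le S (A.erase a)
  have h3 := card_erase_of_mem ha
  have h4 := card_pos.2 ⟨a, ha⟩
  omega

theorem deg_aux (hG : IsVis P G) (h : IsCut P G A B S) {φ b a0 : Pt} (hφ : φ ≠ 0) (hb : b ∈ B)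
    (F : Finset Pt) (hFA : F ⊆ A) (hF : ∀ a ∈ F, dot φ a = dot φ b) (ha0 : a0 ∈ F)
    (hlt : alo φ a0 < alo φ b) :
    ∃ a ∈ A, (G.neighborSet a).ncard + F.card ≤ S.card + A.card := by
  classical
  obtain ⟨a, ha, amin⟩ := exists_min_image F (alo φ) ⟨a0, ha0⟩
  have hab : alo φ a < alo φ b := (amin a0 ha0).trans_lt hlt
  obtain ⟨c, hc, s, t, hs, ht, hst, hce⟩ := exists_blocker hG h a (hFA ha) b hb
  set R := P.filter (fun x => G.Adj a x ∧ dot φ x = dot φ b ∧ alo φ a < alo φ x) with hR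
  have hR1 : R.card ≤ 1 := by
    have k : ∀ x ∈ R, ∀ y ∈ R, ¬ alo φ x < alo φ y := by
      intro x hx y hy hxy
      obtain ⟨xP, _, x2, x3⟩ := mem_filter.1 hx
      obtain ⟨_, y1, y2, _⟩ := mem_filter.1 hy
      exact ((hG a y).1 y1).2.2.2 x xP
        (mem_seg_of_alo hφ (by rw [hF a ha, x2]) (by rw [y2, x2]) x3 hxy)
    rw [card_le_one]
    intro x hx y hy
    refine eq_of_alo hφ ?_ (le_antisymm (not_lt.1 (k y hy x hx)) (not_lt.1 (k x hx y hy)))
    rw [(mem_filter.1 hx).2.2.1, (mem_filter.1 hy).2.2.1]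
  have hsub : G.neighborSet a ⊆ ((S.erase c ∪ (A \ F) ∪ R : Finset Pt) : Set Pt) := by
    intro x hx
    have hx' : G.Adj a x := hx
    have xP := ((hG a x).1 hx').2.1
    rw [mem_coe, mem_union, mem_union]
    rcases h.cases xP with e | e | e
    · by_cases e2 : x ∈ F
      · right
        refine mem_filter.2 ⟨xP, hx', hF x e2, lt_of_le_of_ne (amin x e2) (fun e3 => ?_)⟩
        exact hx'.ne (eq_of_alo hφ (by rw [hF a ha, hF x e2]) e3)
      · exact Or.inl (Or.inr (mem_sdiff.2 ⟨e, e2⟩))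
    · exact absurd hx' (h.2.2 a (hFA ha) x e)
    · by_cases e2 : x = c
      · right
        refine mem_filter.2 ⟨xP, hx', ?_, ?_⟩
        · rw [e2, ← hce, dot_combo, hF a ha, ← add_mul, hst, one_mul]
        · rw [e2, ← hce, alo_combo]
          have : s = 1 - t := by linarith
          rw [this]
          nlinarith [mul_pos ht (sub_pos.2 hab)]
      · exact Or.inl (Or.inl (mem_erase.2 ⟨e2, e⟩))
  have h1 := Set.ncard_le_ncard hsub (finite_toSet _)
  rw [Set.ncard_coe_finset] at h1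
  have h2 := card_union_le (S.erase c ∪ (A \ F)) R
  have h3 := card_union_le (S.erase c) (A \ F)
  have h4 := card_erase_of_mem hc
  have h5 := card_sdiff_add_card_eq_card hFA
  have h6 := card_pos.2 ⟨c, hc⟩
  exact ⟨a, hFA ha, by omega⟩

theorem deg_line (hG : IsVis P G) (h : IsCut P G A B S) {φ b : Pt} (hφ : φ ≠ 0) (hb : b ∈ B)
    (F : Finset Pt) (hFA : F ⊆ A) (hF : ∀ a ∈ F, dot φ a = dot φ b) (hne : F.Nonempty) :
    ∃ a ∈ A, (G.neighborSet a).ncard + F.card ≤ S.card + A.card := by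
  obtain ⟨a0, ha0⟩ := hne
  rcases lt_trichotomy (alo φ a0) (alo φ b) with e | e | e
  · exact deg_aux hG h hφ hb F hFA hF ha0 e
  · exact absurd hb (disjoint_left.1 h.2.1 (eq_of_alo hφ (hF a0 ha0) e ▸ hFA ha0))
  · refine deg_aux hG h (neg_ne_zero.2 hφ) hb F hFA
      (fun a ha => by rw [dot_neg, dot_neg, hF a ha]) ha0 ?_
    simp only [alo, Prod.fst_neg, Prod.snd_neg] at e ⊢
    linarith

open Classical in
/-- the colouring by membership in `A` -/
noncomputable def colA (A : Finset Pt) (p : Pt) : Bool := decide (p ∈ A)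

theorem colA_true {p : Pt} : colA A p = true ↔ p ∈ A := by simp [colA]

theorem colA_false {p : Pt} : colA A p = false ↔ p ∉ A := by simp [colA]

theorem nb_le (C X : Finset Pt) : nb C X ≤ C.card := by
  classical
  unfold nb
  exact card_filter_le _ _

theorem setup (hG : IsVis P G) (h : IsCut P G A B S) {B' : Finset Pt} (hB : B' ⊆ B)
    (hc : B'.card = A.card) :
    Blocks S (colA A) (A ∪ B') ∧ cnt (colA A) true (A ∪ B') = cnt (colA A) false (A ∪ B') ∧
      (A ∪ B').card = 2 * A.card := by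
  classical
  have hd : Disjoint A B' := h.2.1.mono_right hB
  refine ⟨?_, ?_, by rw [card_union_of_disjoint hd]; omega⟩
  · intro p hp q hq hpq
    by_cases e1 : p ∈ A <;> by_cases e2 : q ∈ A
    · exact absurd (by rw [colA_true.2 e1, colA_true.2 e2]) hpq
    · exact exists_blocker hG h p e1 q (hB ((mem_union.1 hq).resolve_left e2))
    · obtain ⟨c, hc, hc'⟩ := exists_blocker hG h q e2 p (hB ((mem_union.1 hp).resolve_left e1))
      exact ⟨c, hc, by rw [openSegment_symm]; exact hc'⟩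
    · exact absurd (by rw [colA_false.2 e1, colA_false.2 e2]) hpq
  · have e1 : (A ∪ B').filter (fun p => colA A p = true) = A := by
      ext p
      simp only [mem_filter, mem_union, colA_true]
      tauto
    have e2 : (A ∪ B').filter (fun p => colA A p = false) = B' := by
      ext p
      simp only [mem_filter, mem_union, colA_false]
      have := fun (hp : p ∈ B') (hq : p ∈ A) => disjoint_left.1 hd hq hp
      tauto
    unfold cnt
    rw [e1, e2, hc]

theorem deg_face (hG : IsVis P G) (h : IsCut P G A B S) {B' : Finset Pt} (hB : B' ⊆ B) {φ : Pt}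
    (hφ : ‖φ‖ = 1) (h1 : 1 ≤ lam (colA A) (face φ (A ∪ B'))) :
    ∃ a ∈ A, (G.neighborSet a).ncard + lam (colA A) (face φ (A ∪ B')) + 1 ≤ S.card + A.card := by
  classical
  unfold lam at h1 ⊢
  obtain ⟨b, hb, cb⟩ := exists_col (χ := colA A) (c := false) (F := face φ (A ∪ B')) (by omega)
  have hbB : b ∈ B := hB ((mem_union.1 (face_subset _ _ hb)).resolve_left (colA_false.1 cb))
  obtain ⟨a, ha, hd⟩ := deg_line hG h (ne_of_unit hφ) hbB
    ((face φ (A ∪ B')).filter (fun p => colA A p = true))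
    (fun p hp => colA_true.1 (mem_filter.1 hp).2) (fun p hp => face_eq (mem_filter.1 hp).1 hb)
    (card_pos.1 (by unfold cnt at h1; omega))
  refine ⟨a, ha, ?_⟩
  unfold cnt at h1 ⊢
  omega

theorem core_two (hG : IsVis P G) (h : IsCut P G A B S) {d : ℕ}
    (hd : ∀ p ∈ P, d ≤ (G.neighborSet p).ncard) (hA : A.Nonempty) {B' : Finset Pt} (hB : B' ⊆ B)
    (hc : B'.card = A.card)
    (h2 : {φ : Pt | ‖φ‖ = 1 ∧ 1 ≤ lam (colA A) (face φ (A ∪ B'))}.encard ≤ 2) :
    2 * d + 1 ≤ 3 * S.card := by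
  classical
  obtain ⟨b1, b2, b3⟩ := setup hG h hB hc
  obtain ⟨Φ, hΦ, hl⟩ := loss S (colA A) _ (A ∪ B') rfl (hA.mono subset_union_left) b2 b1
  have hnb := nb_le S (A ∪ B')
  set Ψ := Φ.filter (fun φ => 1 ≤ lam (colA A) (face φ (A ∪ B'))) with hΨ
  have hsum : ∑ φ ∈ Φ, lam (colA A) (face φ (A ∪ B')) =
      ∑ φ ∈ Ψ, lam (colA A) (face φ (A ∪ B')) := by
    rw [hΨ, sum_filter_of_ne]
    intro φ _ hne
    omega
  have hΨc : Ψ.card ≤ 2 := by
    have : (Ψ : Set Pt) ⊆ {φ : Pt | ‖φ‖ = 1 ∧ 1 ≤ lam (colA A) (face φ (A ∪ B'))} := by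
      intro φ hφ
      exact ⟨hΦ φ (mem_filter.1 hφ).1, (mem_filter.1 hφ).2⟩
    have h3 := (Set.encard_le_encard this).trans h2
    rw [Set.encard_coe_eq_coe_finsetCard] at h3
    exact_mod_cast h3
  rcases Ψ.eq_empty_or_nonempty with e | e
  · obtain ⟨a, ha⟩ := hA
    have := deg_triv hG h ha
    have := hd a (h.subA ha)
    rw [hsum, e, sum_empty] at hl
    omega
  · obtain ⟨φ, hφ, hmax⟩ := exists_max_image Ψ (fun φ => lam (colA A) (face φ (A ∪ B'))) e
    obtain ⟨a, ha, k⟩ := deg_face hG h hB (hΦ φ (mem_filter.1 hφ).1) (mem_filter.1 hφ).2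
    have := hd a (h.subA ha)
    have k2 := sum_le_card_nsmul Ψ _ _ hmax
    rw [smul_eq_mul] at k2
    have k3 := Nat.mul_le_mul_right (lam (colA A) (face φ (A ∪ B'))) hΨc
    omega

theorem core_gen (hG : IsVis P G) (h : IsCut P G A B S) {d : ℕ}
    (hd : ∀ p ∈ P, d ≤ (G.neighborSet p).ncard) (hA : A.Nonempty) (hAB : A.card ≤ B.card) :
    4 * d + 3 ≤ 7 * S.card := by
  classical
  obtain ⟨B', hB, hc⟩ := exists_subset_card_eq hAB
  obtain ⟨b1, b2, b3⟩ := setup hG h hB hc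
  obtain ⟨Φ, hΦ, hl⟩ := loss S (colA A) _ (A ∪ B') rfl (hA.mono subset_union_left) b2 b1
  have hnb := nb_le S (A ∪ B')
  have hApos := card_pos.2 hA
  obtain ⟨b, hb⟩ : B'.Nonempty := card_pos.1 (by omega)
  obtain ⟨a0, ha0⟩ := hA
  obtain ⟨c, hc0, _⟩ := exists_blocker hG h a0 ha0 b (hB hb)
  have hS := card_pos.2 ⟨c, hc0⟩
  by_cases hnl : NotLine (A ∪ B')
  swap
  · unfold NotLine at hnl
    push Not at hnl
    obtain ⟨φ, hφ, hline⟩ := hnl
    obtain ⟨a, ha, k⟩ := deg_line hG h hφ (hB hb) A Subset.rfl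
      (fun a ha => hline a (mem_union_left _ ha) b (mem_union_right _ hb)) ⟨a0, ha0⟩
    have := hd a (h.subA ha)
    omega
  by_cases e : ∃ φ ∈ Φ, 1 ≤ lam (colA A) (face φ (A ∪ B'))
  · obtain ⟨φ1, hφ1, e⟩ := e
    obtain ⟨φ, hφ, hmax⟩ := exists_max_image Φ (fun φ => lam (colA A) (face φ (A ∪ B'))) ⟨φ1, hφ1⟩
    have e2 := e.trans (hmax φ1 hφ1)
    obtain ⟨a, ha, k⟩ := deg_face hG h hB (hΦ φ hφ) e2
    have := hd a (h.subA ha)
    have := hull_bound b1 hnl Φ hΦ e2 hmax hφ e2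
    omega
  · push Not at e
    have : ∑ φ ∈ Φ, lam (colA A) (face φ (A ∪ B')) = 0 :=
      sum_eq_zero (fun φ hφ => by have := e φ hφ; omega)
    have := deg_triv hG h ha0
    have := hd a0 (h.subA ha0)
    omega

theorem exists_cut {S : Finset Pt} (hS : S ⊆ P)
    (hnc : ¬ (G.induce ((P : Set Pt) \ (S : Set Pt))).Preconnected) :
    ∃ A B : Finset Pt, IsCut P G A B S ∧ A.Nonempty ∧ B.Nonempty := by
  classical
  unfold SimpleGraph.Preconnected at hnc
  push Not at hnc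
  obtain ⟨u, v, huv⟩ := hnc
  set Q : Pt → Prop := fun p => ∃ hp : p ∈ (P : Set Pt) \ (S : Set Pt),
    (G.induce ((P : Set Pt) \ (S : Set Pt))).Reachable u ⟨p, hp⟩ with hQ
  refine ⟨(P \ S).filter Q, (P \ S).filter (fun p => ¬ Q p), ⟨?_, ?_, ?_⟩, ⟨u.1, ?_⟩, ⟨v.1, ?_⟩⟩
  · rw [filter_union_filter_not_eq, sdiff_union_of_subset hS]
  · exact disjoint_filter_filter_not _ _ _
  · intro a ha b hb hab
    obtain ⟨_, ha1, ha2⟩ := mem_filter.1 ha
    obtain ⟨hb1, hb2⟩ := mem_filter.1 hb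
    have hb3 : b ∈ (P : Set Pt) \ (S : Set Pt) := by simpa using hb1
    exact hb2 ⟨hb3, ha2.trans (SimpleGraph.Adj.reachable (by simpa using hab))⟩
  · exact mem_filter.2 ⟨mem_sdiff.2 ⟨u.2.1, u.2.2⟩, u.2, SimpleGraph.Reachable.refl _⟩
  · exact mem_filter.2 ⟨mem_sdiff.2 ⟨v.2.1, v.2.2⟩, fun ⟨_, hh⟩ => huv hh⟩

theorem deg_le (hG : IsVis P G) {p : Pt} (hp : p ∈ P) :
    (G.neighborSet p).ncard + 1 ≤ P.card := by
  classical
  have : G.neighborSet p ⊆ ((P.erase p : Finset Pt) : Set Pt) := by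
    intro x hx
    have hx' : G.Adj p x := hx
    exact mem_coe.2 (mem_erase.2 ⟨hx'.ne.symm, ((hG p x).1 hx').2.1⟩)
  have h1 := Set.ncard_le_ncard this (finite_toSet _)
  rw [Set.ncard_coe_finset, card_erase_of_mem hp] at h1
  have := card_pos.2 ⟨p, hp⟩
  omega

end Pool.Agent.Vis5f
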