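import Mathlib

set_option autoImplicit false
open Finset

namespace Pool.Agent.Vis5f

/-- few elements lack two close successors -/
theorem bad_count {τ : Type*} (F : Finset τ) (Φ : τ → ℕ)
    (hinj : ∀ s ∈ F, ∀ t ∈ F, Φ s = Φ t → s = t) (N R : ℕ) (hR : 0 < R)
    (hN : ∀ t ∈ F, Φ t < N) (B : Finset τ) (hB : B ⊆ F)
    (hbad : ∀ t ∈ B, ¬ ∃ t' ∈ F, ∃ t'' ∈ F, Φ t < Φ t' ∧ Φ t' < Φ t'' ∧ Φ t'' ≤ Φ t + R) :
    B.card ≤ 2 * (N / R + 1) := by
  classical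
  have h1 : ∀ t ∈ B, Φ t / R ∈ range (N / R + 1) := fun t ht =>
    mem_range.2 (Nat.lt_succ_of_le (Nat.div_le_div_right (hN t (hB ht)).le))
  have h2 : ∀ b ∈ range (N / R + 1), (B.filter (fun t => Φ t / R = b)).card ≤ 2 := by
    intro b _
    by_contra hc
    push Not at hc
    obtain ⟨x, hx, y, hy, z, hz, xy, xz, yz⟩ := two_lt_card.1 hc
    obtain ⟨x1, x2⟩ := mem_filter.1 hx
    obtain ⟨y1, y2⟩ := mem_filter.1 hy
    obtain ⟨z1, z2⟩ := mem_filter.1 hz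
    have bd : ∀ t, Φ t / R = b → R * b ≤ Φ t ∧ Φ t < R * b + R := by
      intro t ht
      have e1 := Nat.div_add_mod (Φ t) R
      have e2 := Nat.mod_lt (Φ t) hR
      rw [ht] at e1
      omega
    have bx := bd x x2
    have by' := bd y y2
    have bz := bd z z2
    have nxy : Φ x ≠ Φ y := fun e => xy (hinj x (hB x1) y (hB y1) e)
    have nxz : Φ x ≠ Φ z := fun e => xz (hinj x (hB x1) z (hB z1) e)
    have nyz : Φ y ≠ Φ z := fun e => yz (hinj y (hB y1) z (hB z1) e)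
    have key : ∀ a ∈ B, ∀ b' ∈ B, ∀ c ∈ B, Φ a < Φ b' → Φ b' < Φ c → Φ c ≤ Φ a + R → False :=
      fun a ha b' hb c hc e1 e2 e3 => hbad a ha ⟨b', hB hb, c, hB hc, e1, e2, e3⟩
    rcases lt_or_gt_of_ne nxy with a1 | a1 <;> rcases lt_or_gt_of_ne nxz with a2 | a2 <;>
      rcases lt_or_gt_of_ne nyz with a3 | a3
    · exact key x x1 y y1 z z1 a1 a3 (by omega)
    · exact key x x1 z z1 y y1 a2 a3 (by omega)
    · omega
    · exact key z z1 x x1 y y1 a2 a1 (by omega)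
    · exact key y y1 x x1 z z1 a1 a2 (by omega)
    · omega
    · exact key y y1 z z1 x x1 a3 a2 (by omega)
    · exact key z z1 y y1 x x1 a3 a1 (by omega)
  have := card_le_mul_card_image_of_maps_to h1 2 h2
  rwa [card_range] at this

/-- values whose classes are large are few -/
theorem big_vals {τ : Type*} (G : Finset τ) (m S : ℕ) (I : τ → ℕ) (hI : ∀ t ∈ G, I t < m)
    (Q : τ → ℝ) (h : ∀ s ∈ G, ∀ t ∈ G, I s = I t → Q s = Q t) (V : Finset ℝ)
    (hV : ∀ v ∈ V, m < S * ((G.filter (fun s => Q s = v)).image I).card) : V.card ≤ S := by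
  classical
  have hd : ((V.biUnion (fun v => (G.filter (fun s => Q s = v)).image I)).card) =
      ∑ v ∈ V, ((G.filter (fun s => Q s = v)).image I).card := by
    refine card_biUnion ?_
    intro v _ v' _ hne
    rw [Function.onFun, disjoint_left]
    intro i h1 h2
    obtain ⟨s, hs, e⟩ := mem_image.1 h1
    obtain ⟨t, ht, e'⟩ := mem_image.1 h2
    obtain ⟨s1, s2⟩ := mem_filter.1 hs
    obtain ⟨t1, t2⟩ := mem_filter.1 ht
    exact hne (by rw [← s2, ← t2]; exact h s s1 t t1 (e.trans e'.symm))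
  have hs : V.biUnion (fun v => (G.filter (fun s => Q s = v)).image I) ⊆ range m := by
    intro i hi
    obtain ⟨v, _, h1⟩ := mem_biUnion.1 hi
    obtain ⟨s, hs, e⟩ := mem_image.1 h1
    exact mem_range.2 (e ▸ hI s (mem_filter.1 hs).1)
  have h1 := card_le_card hs
  rw [hd, card_range] at h1
  have h2 : ∑ _v ∈ V, (m + 1) ≤ ∑ v ∈ V, S * ((G.filter (fun s => Q s = v)).image I).card :=
    sum_le_sum (fun v hv => hV v hv)
  rw [← mul_sum, sum_const, smul_eq_mul] at h2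
  have h3 := Nat.mul_le_mul_left S h1
  by_contra hc
  push Not at hc
  have h4 := Nat.mul_le_mul_right (m + 1) hc.le
  nlinarith

/-- the final count -/
theorem class_count {τ : Type*} (G : Finset τ) (m k S : ℕ) (I J : τ → ℕ) (hI : ∀ t ∈ G, I t < m)
    (hJ : ∀ t ∈ G, J t < m) (P Q : τ → ℝ)
    (hQ : ∀ s ∈ G, ∀ t ∈ G, I s = I t → Q s = Q t) (hP : ∀ s ∈ G, ∀ t ∈ G, J s = J t → P s = P t)
    (h1 : ∀ s ∈ G, ∀ t ∈ G, P s = P t → Q s = Q t → I s = I t → s = t)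
    (h2 : ∀ s ∈ G, ∀ t ∈ G, P s = P t → Q s = Q t → J s = J t → s = t)
    (V : Finset (ℝ × ℝ)) (hV : ∀ t ∈ G, (P t, Q t) ∈ V) (hk : V.card ≤ k) :
    S * G.card ≤ S * (S * S * m) + k * m := by
  classical
  set nQ : ℝ → ℕ := fun v => ((G.filter (fun s => Q s = v)).image I).card with hnQ
  set nP : ℝ → ℕ := fun v => ((G.filter (fun s => P s = v)).image J).card with hnP
  set G1 := G.filter (fun t => m < S * nP (P t) ∧ m < S * nQ (Q t)) with hG1
  set G2 := G.filter (fun t => ¬ (m < S * nP (P t) ∧ m < S * nQ (Q t))) with hG2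
  have hc : G1.card + G2.card = G.card := card_filter_add_card_filter_not _
  have a1 : (G1.image P).card ≤ S := by
    refine big_vals G m S J hJ P hP _ ?_
    intro v hv
    obtain ⟨t, ht, e⟩ := mem_image.1 hv
    rw [← e]
    exact (mem_filter.1 ht).2.1
  have a2 : (G1.image Q).card ≤ S := by
    refine big_vals G m S I hI Q hQ _ ?_
    intro v hv
    obtain ⟨t, ht, e⟩ := mem_image.1 hv
    rw [← e]
    exact (mem_filter.1 ht).2.2
  have a3 : G1.card ≤ ((G1.image P ×ˢ G1.image Q) ×ˢ range m).card := by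
    refine card_le_card_of_injOn (fun t => ((P t, Q t), I t)) ?_ ?_
    · intro t ht
      have ht' := mem_coe.1 ht
      exact mem_coe.2 (mem_product.2 ⟨mem_product.2 ⟨mem_image_of_mem _ ht',
        mem_image_of_mem _ ht'⟩, mem_range.2 (hI t (mem_filter.1 ht').1)⟩)
    · intro s hs t ht e
      simp only [Prod.mk.injEq] at e
      exact h1 s (mem_filter.1 (mem_coe.1 hs)).1 t (mem_filter.1 (mem_coe.1 ht)).1 e.1.1 e.1.2 e.2
  rw [card_product, card_product, card_range] at a3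
  have a4 : G1.card ≤ S * S * m :=
    a3.trans (Nat.mul_le_mul_right m (Nat.mul_le_mul a1 a2))
  have b1 : ∀ v ∈ V, S * (G2.filter (fun t => (P t, Q t) = v)).card ≤ m := by
    intro v _
    rcases (G2.filter (fun t => (P t, Q t) = v)).eq_empty_or_nonempty with h0 | ⟨t0, ht0⟩
    · rw [h0]; simp
    obtain ⟨t1, t2⟩ := mem_filter.1 ht0
    obtain ⟨_, t4⟩ := mem_filter.1 t1
    have ev : ∀ t ∈ G2.filter (fun t => (P t, Q t) = v), t ∈ G ∧ P t = P t0 ∧ Q t = Q t0 := by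
      intro t ht
      obtain ⟨u1, u2⟩ := mem_filter.1 ht
      have := u2.trans t2.symm
      simp only [Prod.mk.injEq] at this
      exact ⟨(mem_filter.1 u1).1, this.1, this.2⟩
    by_cases e : m < S * nP (P t0)
    · have e2 : S * nQ (Q t0) ≤ m := not_lt.1 (fun h => t4 ⟨e, h⟩)
      refine le_trans (Nat.mul_le_mul_left S ?_) e2
      refine card_le_card_of_injOn I ?_ ?_
      · intro t ht
        obtain ⟨u1, _, u3⟩ := ev t (mem_coe.1 ht)
        exact mem_coe.2 (mem_image_of_mem _ (mem_filter.2 ⟨u1, u3⟩))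
      · intro s hs t ht e'
        obtain ⟨u1, u2, u3⟩ := ev s (mem_coe.1 hs)
        obtain ⟨w1, w2, w3⟩ := ev t (mem_coe.1 ht)
        exact h1 s u1 t w1 (u2.trans w2.symm) (u3.trans w3.symm) e'
    · refine le_trans (Nat.mul_le_mul_left S ?_) (not_lt.1 e)
      refine card_le_card_of_injOn J ?_ ?_
      · intro t ht
        obtain ⟨u1, u2, _⟩ := ev t (mem_coe.1 ht)
        exact mem_coe.2 (mem_image_of_mem _ (mem_filter.2 ⟨u1, u2⟩))
      · intro s hs t ht e'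
        obtain ⟨u1, u2, u3⟩ := ev s (mem_coe.1 hs)
        obtain ⟨w1, w2, w3⟩ := ev t (mem_coe.1 ht)
        exact h2 s u1 t w1 (u2.trans w2.symm) (u3.trans w3.symm) e'
  have b2 : G2.card = ∑ v ∈ V, (G2.filter (fun t => (P t, Q t) = v)).card :=
    card_eq_sum_card_fiberwise (fun t ht => hV t (mem_filter.1 (mem_coe.1 ht)).1)
  have b3 : S * G2.card ≤ k * m := by
    rw [b2, mul_sum]
    refine (sum_le_card_nsmul V _ m b1).trans ?_
    rw [smul_eq_mul]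
    exact Nat.mul_le_mul_right m hk
  rw [← hc, mul_add]
  exact Nat.add_le_add (Nat.mul_le_mul_left S a4) b3

/-- three points on a hyperbola fix a coefficient -/
theorem coef_aux {x0 x1 x2 y0 y1 y2 z0 z1 z2 p q a b : ℝ} (hx0 : x0 ≠ 0) (hx1 : x1 ≠ 0)
    (hx2 : x2 ≠ 0) (h01 : x0 ≠ x1) (h02 : x0 ≠ x2) (h12 : x1 ≠ x2) (ha : a ≠ 0) (hb : b ≠ 0)
    (hq : q ≠ 0)
    (e0 : q * x0 + p * y0 = 1) (e1 : q * x1 + p * y1 = 1) (e2 : q * x2 + p * y2 = 1)
    (f0 : a / x0 + b * z0 = 1) (f1 : a / x1 + b * z1 = 1) (f2 : a / x2 + b * z2 = 1) :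
    p * ((y0 * z0 - y1 * z1) * (y0 - y2) - (y0 * z0 - y2 * z2) * (y0 - y1)) =
      (z0 - z1) * (y0 - y2) - (z0 - z2) * (y0 - y1) ∧
      (z0 - z1) * (y0 - y2) - (z0 - z2) * (y0 - y1) ≠ 0 := by
  have g0 : a = x0 * (1 - b * z0) := by rw [← f0]; field_simp; ring
  have g1 : a = x1 * (1 - b * z1) := by rw [← f1]; field_simp; ring
  have g2 : a = x2 * (1 - b * z2) := by rw [← f2]; field_simp; ring
  have k0 : (1 - p * y0) * (1 - b * z0) = q * a := by
    linear_combination (-(1 - b * z0)) * e0 - q * g0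
  have k1 : (1 - p * y1) * (1 - b * z1) = q * a := by
    linear_combination (-(1 - b * z1)) * e1 - q * g1
  have k2 : (1 - p * y2) * (1 - b * z2) = q * a := by
    linear_combination (-(1 - b * z2)) * e2 - q * g2
  constructor
  · apply mul_left_cancel₀ hb
    linear_combination (y0 - y2) * (k0 - k1) - (y0 - y1) * (k0 - k2)
  · intro h
    have m1 : x0 * x1 * (b * (z0 - z1)) = a * (x0 - x1) := by
      linear_combination x1 * g0 - x0 * g1
    have m2 : x0 * x2 * (b * (z0 - z2)) = a * (x0 - x2) := by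
      linear_combination x2 * g0 - x0 * g2
    have n1 : p * (y0 - y1) = q * (x1 - x0) := by linear_combination e0 - e1
    have n2 : p * (y0 - y2) = q * (x2 - x0) := by linear_combination e0 - e2
    have : a * q * (x0 - x1) * (x0 - x2) * (x1 - x2) = 0 := by
      have t : x0 * x1 * x2 * b * p * ((z0 - z1) * (y0 - y2) - (z0 - z2) * (y0 - y1)) =
          x2 * (x0 * x1 * (b * (z0 - z1))) * (p * (y0 - y2)) -
            x1 * (x0 * x2 * (b * (z0 - z2))) * (p * (y0 - y1)) := by ring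
      rw [h, m1, m2, n1, n2] at t
      linear_combination -t
    simp only [mul_eq_zero, sub_eq_zero] at this
    tauto

theorem coef_eq {x0 x1 x2 x0' x1' x2' y0 y1 y2 z0 z1 z2 p q a b p' q' a' b' : ℝ}
    (hx0 : x0 ≠ 0) (hx1 : x1 ≠ 0) (hx2 : x2 ≠ 0) (h01 : x0 ≠ x1) (h02 : x0 ≠ x2) (h12 : x1 ≠ x2)
    (ha : a ≠ 0) (hb : b ≠ 0) (hq : q ≠ 0)
    (e0 : q * x0 + p * y0 = 1) (e1 : q * x1 + p * y1 = 1) (e2 : q * x2 + p * y2 = 1)
    (f0 : a / x0 + b * z0 = 1) (f1 : a / x1 + b * z1 = 1) (f2 : a / x2 + b * z2 = 1)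
    (hx0' : x0' ≠ 0) (hx1' : x1' ≠ 0) (hx2' : x2' ≠ 0) (h01' : x0' ≠ x1') (h02' : x0' ≠ x2')
    (h12' : x1' ≠ x2') (ha' : a' ≠ 0) (hb' : b' ≠ 0) (hq' : q' ≠ 0)
    (e0' : q' * x0' + p' * y0 = 1) (e1' : q' * x1' + p' * y1 = 1) (e2' : q' * x2' + p' * y2 = 1)
    (f0' : a' / x0' + b' * z0 = 1) (f1' : a' / x1' + b' * z1 = 1) (f2' : a' / x2' + b' * z2 = 1) :
    p = p' := by
  obtain ⟨s1, s2⟩ := coef_aux hx0 hx1 hx2 h01 h02 h12 ha hb hq e0 e1 e2 f0 f1 f2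
  obtain ⟨t1, _⟩ := coef_aux hx0' hx1' hx2' h01' h02' h12' ha' hb' hq' e0' e1' e2' f0' f1' f2'
  have hN : (y0 * z0 - y1 * z1) * (y0 - y2) - (y0 * z0 - y2 * z2) * (y0 - y1) ≠ 0 := by
    intro h
    rw [h, mul_zero] at s1
    exact s2 s1.symm
  exact mul_right_cancel₀ hN (s1.trans t1.symm)

theorem mono_iff {m : ℕ} {u v : ℕ → ℝ} (hu : ∀ i < m, ∀ j < m, i < j → u i < u j)
    (hv : ∀ i < m, ∀ j < m, i < j → v j < v i) {P Q : ℝ} (hP : 0 < P) (hQ : 0 < Q)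
    {i i' j j' : ℕ} (hi : i < m) (hi' : i' < m) (hj : j < m) (hj' : j' < m)
    (e : P * u i + Q * v j = P * u i' + Q * v j') : i < i' ↔ j < j' := by
  constructor
  · intro h
    by_contra hc
    have a1 := mul_lt_mul_of_pos_left (hu i hi i' hi' h) hP
    rcases (not_lt.1 hc).lt_or_eq with a2 | a2
    · have := mul_lt_mul_of_pos_left (hv j' hj' j hj a2) hQ
      linarith
    · rw [a2] at e; linarith
  · intro h
    by_contra hc
    have a1 := mul_lt_mul_of_pos_left (hv j hj j' hj' h) hQ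
    rcases (not_lt.1 hc).lt_or_eq with a2 | a2
    · have := mul_lt_mul_of_pos_left (hu i' hi' i hi a2) hP
      linarith
    · rw [a2] at e; linarith

/-- index quadruples -/
abbrev Quad := ℕ × ℕ × ℕ × ℕ

/-- all quadruples below a bound -/
def box (m : ℕ) : Finset Quad := range m ×ˢ range m ×ˢ range m ×ˢ range m

theorem mem_box {m : ℕ} {t : Quad} :
    t ∈ box m ↔ t.1 < m ∧ t.2.1 < m ∧ t.2.2.1 < m ∧ t.2.2.2 < m := by
  simp only [box, mem_product, mem_range]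

theorem card_box (m : ℕ) : (box m).card = m ^ 4 := by
  simp only [box, card_product, card_range]; ring

/-- the sum of the indices -/
def tot (t : Quad) : ℕ := t.1 + t.2.1 + t.2.2.1 + t.2.2.2

/-- the offsets -/
def off (s t : Quad) : Quad := (s.1 - t.1, s.2.1 - t.2.1, s.2.2.1 - t.2.2.1, s.2.2.2 - t.2.2.2)

/-- strict order in all indices -/
def Below (s t : Quad) : Prop := s.1 < t.1 ∧ s.2.1 < t.2.1 ∧ s.2.2.1 < t.2.2.1 ∧ s.2.2.2 < t.2.2.2

/-- a dense class of quadruples with a common pattern of two label mates -/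
theorem dense_class {κ : Type} (K m : ℕ) (hK : 0 < K) (hm : 8 * K ^ 3 ≤ m) (L : Finset κ)
    (hL : L.card ≤ (K * m) ^ 3) (lab : Quad → κ) (hlab : ∀ t ∈ box m, lab t ∈ L)
    (tri : ∀ s ∈ box m, ∀ t ∈ box m, lab s = lab t → Below s t ∨ s = t ∨ Below t s) :
    ∃ (G : Finset Quad) (n1 n2 : Quad → Quad), G ⊆ box m ∧
      m ^ 2 < 2 * (32 * K ^ 3 + 1) ^ 8 * (G.card + 1) ∧
      (∀ t ∈ G, n1 t ∈ box m ∧ n2 t ∈ box m ∧ lab (n1 t) = lab t ∧ lab (n2 t) = lab t ∧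
        Below t (n1 t) ∧ Below (n1 t) (n2 t)) ∧
      ∀ s ∈ G, ∀ t ∈ G, s.2.2.1 = t.2.2.1 ∧ s.2.2.2 = t.2.2.2 ∧ off (n1 s) s = off (n1 t) t ∧
        off (n2 s) s = off (n2 t) t := by
  classical
  set R := 32 * K ^ 3 with hR
  have K3 : 0 < K ^ 3 := by positivity
  have R0 : 0 < R := by omega
  have m0 : 0 < m := by omega
  set Gd := (box m).filter (fun t => ∃ t' ∈ box m, ∃ t'' ∈ box m, lab t' = lab t ∧
    lab t'' = lab t ∧ tot t < tot t' ∧ tot t' < tot t'' ∧ tot t'' ≤ tot t + R) with hGd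
  set Bd := (box m).filter (fun t => ¬ ∃ t' ∈ box m, ∃ t'' ∈ box m, lab t' = lab t ∧
    lab t'' = lab t ∧ tot t < tot t' ∧ tot t' < tot t'' ∧ tot t'' ≤ tot t + R) with hBd
  have hc : Gd.card + Bd.card = m ^ 4 := by
    rw [← card_box]; exact card_filter_add_card_filter_not _
  have b1 : Bd.card ≤ 2 * (4 * m / R + 1) * L.card := by
    refine card_le_mul_card_image_of_maps_to (f := lab)
      (fun t ht => hlab t (mem_filter.1 ht).1) _ ?_
    intro v _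
    refine bad_count ((box m).filter (fun t => lab t = v)) tot ?_ (4 * m) R R0 ?_ _ ?_ ?_
    · intro s hs t ht e
      obtain ⟨s1, s2⟩ := mem_filter.1 hs
      obtain ⟨t1, t2⟩ := mem_filter.1 ht
      rcases tri s s1 t t1 (s2.trans t2.symm) with h | h | h
      · unfold Below at h; unfold tot at e; omega
      · exact h
      · unfold Below at h; unfold tot at e; omega
    · intro t ht
      have := mem_box.1 (mem_filter.1 ht).1
      unfold tot; omega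
    · intro t ht
      obtain ⟨t1, t2⟩ := mem_filter.1 ht
      exact mem_filter.2 ⟨(mem_filter.1 t1).1, t2⟩
    · rintro t ht ⟨t', h1, t'', h2, e1, e2, e3⟩
      obtain ⟨t1, t2⟩ := mem_filter.1 ht
      exact (mem_filter.1 t1).2 ⟨t', (mem_filter.1 h1).1, t'', (mem_filter.1 h2).1,
        (mem_filter.1 h1).2.trans t2.symm, (mem_filter.1 h2).2.trans t2.symm, e1, e2, e3⟩
  have b2 : 2 * Bd.card ≤ m ^ 4 := by
    have e1 : R * (4 * m / R) ≤ 4 * m := Nat.mul_div_le _ _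
    have e2 : 4 * (4 * m / R + 1) * K ^ 3 ≤ m := by
      rw [hR] at e1 ⊢
      nlinarith
    calc 2 * Bd.card ≤ 2 * (2 * (4 * m / R + 1) * (K * m) ^ 3) :=
          Nat.mul_le_mul_left 2 (b1.trans (Nat.mul_le_mul_left _ hL))
      _ = (4 * (4 * m / R + 1) * K ^ 3) * m ^ 3 := by ring
      _ ≤ m * m ^ 3 := Nat.mul_le_mul_right _ e2
      _ = m ^ 4 := by ring
  have g1 : ∀ t ∈ Gd, ∃ t' ∈ box m, ∃ t'' ∈ box m, lab t' = lab t ∧
      lab t'' = lab t ∧ tot t < tot t' ∧ tot t' < tot t'' ∧ tot t'' ≤ tot t + R :=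
    fun t ht => (mem_filter.1 ht).2
  choose! n1 h1 n2 h2 h3 h4 h5 h6 h7 using g1
  have g2 : ∀ t ∈ Gd, Below t (n1 t) ∧ Below (n1 t) (n2 t) := by
    intro t ht
    have a5 := h5 t ht
    have a6 := h6 t ht
    constructor
    · rcases tri t (mem_filter.1 ht).1 _ (h1 t ht) (h3 t ht).symm with h | h | h
      · exact h
      · rw [← h] at a5; omega
      · unfold Below at h; unfold tot at a5; omega
    · rcases tri _ (h1 t ht) _ (h2 t ht) ((h3 t ht).trans (h4 t ht).symm) with h | h | h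
      · exact h
      · rw [← h] at a6; omega
      · unfold Below at h; unfold tot at a6; omega
  set cls : Quad → (ℕ × ℕ) × Quad × Quad :=
    fun t => ((t.2.2.1, t.2.2.2), off (n1 t) t, off (n2 t) t) with hcls
  set W := (range m ×ˢ range m) ×ˢ box (R + 1) ×ˢ box (R + 1) with hW
  have w1 : ∀ t ∈ Gd, cls t ∈ W := by
    intro t ht
    have a1 := mem_box.1 (mem_filter.1 ht).1
    obtain ⟨a2, a3⟩ := g2 t ht
    have a7 := h7 t ht
    unfold Below at a2 a3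
    unfold tot at a7
    simp only [hW, hcls, mem_product, mem_range, mem_box, off]
    omega
  have w2 : W.card = m ^ 2 * (R + 1) ^ 8 := by
    simp only [hW, card_product, card_range, card_box]; ring
  have w3 : W.Nonempty := by
    rw [← card_pos, w2]; positivity
  have w4 : W.card * (m ^ 2 / (2 * (R + 1) ^ 8)) ≤ Gd.card := by
    have e1 : 2 * (R + 1) ^ 8 * (m ^ 2 / (2 * (R + 1) ^ 8)) ≤ m ^ 2 := Nat.mul_div_le _ _
    have e2 := Nat.mul_le_mul_left (m ^ 2) e1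
    rw [w2]
    have e3 : m ^ 2 * m ^ 2 = m ^ 4 := by ring
    have e4 : m ^ 2 * (2 * (R + 1) ^ 8 * (m ^ 2 / (2 * (R + 1) ^ 8))) =
        2 * (m ^ 2 * (R + 1) ^ 8 * (m ^ 2 / (2 * (R + 1) ^ 8))) := by ring
    omega
  obtain ⟨v, _, hv⟩ := exists_le_card_fiber_of_mul_le_card_of_maps_to w1 w3 w4
  refine ⟨Gd.filter (fun t => cls t = v), n1, n2,
    (filter_subset _ _).trans (filter_subset _ _), ?_, ?_, ?_⟩
  · have e1 : m ^ 2 < 2 * (R + 1) ^ 8 * (m ^ 2 / (2 * (R + 1) ^ 8) + 1) :=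
      Nat.lt_mul_div_succ _ (by positivity)
    exact e1.trans_le (Nat.mul_le_mul_left _ (Nat.succ_le_succ hv))
  · intro t ht
    have ht' := (mem_filter.1 ht).1
    exact ⟨h1 t ht', h2 t ht', h3 t ht', h4 t ht', (g2 t ht').1, (g2 t ht').2⟩
  · intro s hs t ht
    have := (mem_filter.1 hs).2.trans (mem_filter.1 ht).2.symm
    simp only [hcls, Prod.mk.injEq] at this
    exact ⟨this.1.1, this.1.2, this.2.1, this.2.2⟩

theorem last_arith {K M S m n : ℕ} (M0 : 0 < M) (hS : S = 2 * M * (K + 1)) (hm : S ^ 3 + S ≤ m)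
    (mpos : 0 < m) (G2 : m ^ 2 < M * (n + 1)) (fin : S * n ≤ S * (S * S * m) + K * m * m) :
    False := by
  have S0 : 0 < S := by rw [hS]; positivity
  have f1 : S * m ^ 2 < M * (S * n) + M * S := by
    have := Nat.mul_lt_mul_of_pos_left G2 S0
    calc S * m ^ 2 < S * (M * (n + 1)) := this
      _ = M * (S * n) + M * S := by ring
  have f2 := Nat.mul_le_mul_left M fin
  have f3 : M * ((K + 1) * m ^ 2) < M * (S ^ 3 * m + S) := by
    have e4 : S * m ^ 2 = M * ((K + 1) * m ^ 2) + M * (K * m * m) + M * m ^ 2 := by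
      rw [hS]; ring
    have e5 : M * (S * (S * S * m) + K * m * m) = M * (S ^ 3 * m) + M * (K * m * m) := by ring
    have e6 : M * (S ^ 3 * m + S) = M * (S ^ 3 * m) + M * S := by ring
    omega
  have f4 := Nat.lt_of_mul_lt_mul_left f3
  have f5 : m ^ 2 ≤ (K + 1) * m ^ 2 := Nat.le_mul_of_pos_left _ (by omega)
  have f6 : (S ^ 3 + S) * m ≤ m * m := Nat.mul_le_mul_right m hm
  have f7 : S ≤ S * m := Nat.le_mul_of_pos_right _ mpos
  have f8 : (S ^ 3 + S) * m = S ^ 3 * m + S * m := by ring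
  have f9 : m * m = m ^ 2 := by ring
  omega

/-- Three grids tied by inversion cannot all be covered by linearly many lines. -/
theorem grid_super (K : ℕ) : ∃ m0 : ℕ, ∀ m : ℕ, m0 ≤ m → ∀ {ι : Type} (C : Finset ι),
    C.card ≤ K * m → ∀ x y z w : ℕ → ℝ, (∀ i < m, 0 < x i) → (∀ j < m, 0 < y j) →
    (∀ i < m, ∀ j < m, i < j → x i < x j) → (∀ i < m, ∀ j < m, i < j → y j < y i) →
    (∀ i < m, ∀ j < m, i < j → z i < z j) → (∀ i < m, ∀ j < m, i < j → w j < w i) →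
    ∀ p q a b g d : ι → ℝ,
    (∀ i < m, ∀ j < m, ∃ c ∈ C, 0 < p c ∧ 0 < q c ∧ q c * x i + p c * y j = 1) →
    (∀ i < m, ∀ k < m, ∃ c ∈ C, 0 < a c ∧ 0 < b c ∧ a c / x i + b c * z k = 1) →
    (∀ j < m, ∀ l < m, ∃ c ∈ C, 0 < g c ∧ 0 < d c ∧ g c / y j + d c * w l = 1) → False := by
  classical
  obtain ⟨K', hK'⟩ : ∃ K', K' = K + 1 := ⟨_, rfl⟩
  obtain ⟨M, hM⟩ : ∃ M, M = 2 * (32 * K' ^ 3 + 1) ^ 8 := ⟨_, rfl⟩
  obtain ⟨S, hS⟩ : ∃ S, S = 2 * M * (K + 1) := ⟨_, rfl⟩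
  refine ⟨S ^ 3 + S + 8 * K' ^ 3 + 1, ?_⟩
  intro m hm ι C hC x y z w x0 y0 xm ym zm wm p q a b g d r1 r2 r3
  have mpos : 0 < m := by omega
  obtain ⟨c0, _⟩ := r1 0 mpos 0 mpos
  have : Nonempty ι := ⟨c0⟩
  choose! c1 c1C p0 q0 e1 using r1
  choose! c2 c2C a0 b0 e2 using r2
  choose! c3 c3C g0 d0 e3 using r3
  have xinv : ∀ i < m, ∀ j < m, i < j → 1 / x j < 1 / x i :=
    fun i hi j hj h => one_div_lt_one_div_of_lt (x0 i hi) (xm i hi j hj h)
  have yinv : ∀ i < m, ∀ j < m, i < j → 1 / y i < 1 / y j :=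
    fun i hi j hj h => one_div_lt_one_div_of_lt (y0 j hj) (ym i hi j hj h)
  set lab : Quad → ι × ι × ι := fun t => (c1 t.1 t.2.1, c2 t.1 t.2.2.1, c3 t.2.1 t.2.2.2) with hlab
  have cmp : ∀ s ∈ box m, ∀ t ∈ box m, lab s = lab t → (s.1 < t.1 ↔ s.2.1 < t.2.1) ∧
      (s.2.2.1 < t.2.2.1 ↔ s.1 < t.1) ∧ (s.2.1 < t.2.1 ↔ s.2.2.2 < t.2.2.2) := by
    intro s hs t ht e
    obtain ⟨s1, s2, s3, s4⟩ := mem_box.1 hs
    obtain ⟨t1, t2, t3, t4⟩ := mem_box.1 ht
    simp only [hlab, Prod.mk.injEq] at e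
    obtain ⟨l1, l2, l3⟩ := e
    refine ⟨mono_iff xm ym (q0 _ s1 _ s2) (p0 _ s1 _ s2) s1 t1 s2 t2 ?_,
      mono_iff zm xinv (b0 _ s1 _ s3) (a0 _ s1 _ s3) s3 t3 s1 t1 ?_,
      mono_iff yinv wm (g0 _ s2 _ s4) (d0 _ s2 _ s4) s2 t2 s4 t4 ?_⟩
    · rw [e1 _ s1 _ s2, l1, e1 _ t1 _ t2]
    · have u1 := e2 _ s1 _ s3
      have u2 := e2 _ t1 _ t3
      rw [← l2] at u2
      rw [mul_one_div, mul_one_div]; linarith
    · have u1 := e3 _ s2 _ s4
      have u2 := e3 _ t2 _ t4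
      rw [← l3] at u2
      rw [mul_one_div, mul_one_div]; linarith
  have tri : ∀ s ∈ box m, ∀ t ∈ box m, lab s = lab t → Below s t ∨ s = t ∨ Below t s := by
    intro s hs t ht e
    have u1 := cmp s hs t ht e
    have u2 := cmp t ht s hs e.symm
    unfold Below
    rcases lt_trichotomy s.1 t.1 with h | h | h
    · left; omega
    · right; left
      refine Prod.ext h (Prod.ext ?_ (Prod.ext ?_ ?_)) <;> omega
    · right; right; omega
  have hCK : C.card ≤ K' * m := hC.trans (Nat.mul_le_mul_right m (by omega))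
  obtain ⟨G, n1, n2, G1, G2, G3, G4⟩ := dense_class K' m (by omega) (by omega) (C ×ˢ C ×ˢ C)
    (by
      rw [card_product, card_product]
      calc C.card * (C.card * C.card) = C.card ^ 3 := by ring
        _ ≤ (K' * m) ^ 3 := Nat.pow_le_pow_left hCK 3)
    lab (fun t ht => by
      obtain ⟨t1, t2, t3, t4⟩ := mem_box.1 ht
      exact mem_product.2 ⟨c1C _ t1 _ t2, mem_product.2 ⟨c2C _ t1 _ t3, c3C _ t2 _ t4⟩⟩) tri
  have xne : ∀ i < m, ∀ j < m, i < j → x i ≠ x j := fun i hi j hj h => (xm i hi j hj h).ne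
  have yne : ∀ i < m, ∀ j < m, i < j → y i ≠ y j := fun i hi j hj h => (ym i hi j hj h).ne'
  have rel : ∀ t ∈ G, ∀ s, s ∈ box m → lab s = lab t →
      q (c1 t.1 t.2.1) * x s.1 + p (c1 t.1 t.2.1) * y s.2.1 = 1 ∧
      a (c2 t.1 t.2.2.1) / x s.1 + b (c2 t.1 t.2.2.1) * z s.2.2.1 = 1 ∧
      g (c3 t.2.1 t.2.2.2) / y s.2.1 + d (c3 t.2.1 t.2.2.2) * w s.2.2.2 = 1 := by
    intro t _ s hs e
    obtain ⟨s1, s2, s3, s4⟩ := mem_box.1 hs
    simp only [hlab, Prod.mk.injEq] at e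
    obtain ⟨l1, l2, l3⟩ := e
    rw [← l1, ← l2, ← l3]
    exact ⟨e1 _ s1 _ s2, e2 _ s1 _ s3, e3 _ s2 _ s4⟩
  have hP : ∀ s ∈ G, ∀ t ∈ G, s.2.1 = t.2.1 → p (c1 s.1 s.2.1) = p (c1 t.1 t.2.1) := by
    intro s hs t ht e
    obtain ⟨s1, s2, s3, _⟩ := mem_box.1 (G1 hs)
    obtain ⟨t1, t2, t3, _⟩ := mem_box.1 (G1 ht)
    obtain ⟨sa, sb, sc, sd, se, sf⟩ := G3 s hs
    obtain ⟨ta, tb, tc, td, te, tf⟩ := G3 t ht
    obtain ⟨k1, _, k3, k4⟩ := G4 s hs t ht
    obtain ⟨u0, v0, _⟩ := rel s hs s (G1 hs) rfl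
    obtain ⟨u1, v1, _⟩ := rel s hs _ sa sc
    obtain ⟨u2, v2, _⟩ := rel s hs _ sb sd
    obtain ⟨u0', v0', _⟩ := rel t ht t (G1 ht) rfl
    obtain ⟨u1', v1', _⟩ := rel t ht _ ta tc
    obtain ⟨u2', v2', _⟩ := rel t ht _ tb td
    have sa1 := (mem_box.1 sa).1
    have sb1 := (mem_box.1 sb).1
    have ta1 := (mem_box.1 ta).1
    have tb1 := (mem_box.1 tb).1
    unfold Below at se sf te tf
    simp only [off, Prod.mk.injEq] at k3 k4
    have j1 : (n1 t).2.1 = (n1 s).2.1 := by omega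
    have j2 : (n2 t).2.1 = (n2 s).2.1 := by omega
    have i1 : (n1 t).2.2.1 = (n1 s).2.2.1 := by omega
    have i2 : (n2 t).2.2.1 = (n2 s).2.2.1 := by omega
    rw [j1] at u1'
    rw [j2] at u2'
    rw [i1] at v1'
    rw [i2] at v2'
    have y1 : y t.2.1 = y s.2.1 := by rw [e]
    have z1 : z t.2.2.1 = z s.2.2.1 := by rw [k1]
    rw [y1] at u0'
    rw [z1] at v0'
    exact coef_eq (x0 _ s1).ne' (x0 _ sa1).ne' (x0 _ sb1).ne' (xne _ s1 _ sa1 se.1)
      (xne _ s1 _ sb1 (se.1.trans sf.1)) (xne _ sa1 _ sb1 sf.1) (a0 _ s1 _ s3).ne'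
      (b0 _ s1 _ s3).ne' (q0 _ s1 _ s2).ne' u0 u1 u2 v0 v1 v2
      (x0 _ t1).ne' (x0 _ ta1).ne' (x0 _ tb1).ne' (xne _ t1 _ ta1 te.1)
      (xne _ t1 _ tb1 (te.1.trans tf.1)) (xne _ ta1 _ tb1 tf.1) (a0 _ t1 _ t3).ne'
      (b0 _ t1 _ t3).ne' (q0 _ t1 _ t2).ne' u0' u1' u2' v0' v1' v2'
  have hQ : ∀ s ∈ G, ∀ t ∈ G, s.1 = t.1 → q (c1 s.1 s.2.1) = q (c1 t.1 t.2.1) := by
    intro s hs t ht e
    obtain ⟨s1, s2, _, s4⟩ := mem_box.1 (G1 hs)
    obtain ⟨t1, t2, _, t4⟩ := mem_box.1 (G1 ht)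
    obtain ⟨sa, sb, sc, sd, se, sf⟩ := G3 s hs
    obtain ⟨ta, tb, tc, td, te, tf⟩ := G3 t ht
    obtain ⟨_, k2, k3, k4⟩ := G4 s hs t ht
    obtain ⟨u0, _, v0⟩ := rel s hs s (G1 hs) rfl
    obtain ⟨u1, _, v1⟩ := rel s hs _ sa sc
    obtain ⟨u2, _, v2⟩ := rel s hs _ sb sd
    obtain ⟨u0', _, v0'⟩ := rel t ht t (G1 ht) rfl
    obtain ⟨u1', _, v1'⟩ := rel t ht _ ta tc
    obtain ⟨u2', _, v2'⟩ := rel t ht _ tb td
    have sa1 := (mem_box.1 sa).2.1
    have sb1 := (mem_box.1 sb).2.1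
    have ta1 := (mem_box.1 ta).2.1
    have tb1 := (mem_box.1 tb).2.1
    unfold Below at se sf te tf
    simp only [off, Prod.mk.injEq] at k3 k4
    have j1 : (n1 t).1 = (n1 s).1 := by omega
    have j2 : (n2 t).1 = (n2 s).1 := by omega
    have i1 : (n1 t).2.2.2 = (n1 s).2.2.2 := by omega
    have i2 : (n2 t).2.2.2 = (n2 s).2.2.2 := by omega
    rw [j1, add_comm] at u1'
    rw [j2, add_comm] at u2'
    rw [i1] at v1'
    rw [i2] at v2'
    have y1 : x t.1 = x s.1 := by rw [e]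
    have z1 : w t.2.2.2 = w s.2.2.2 := by rw [k2]
    rw [y1, add_comm] at u0'
    rw [z1] at v0'
    rw [add_comm] at u0 u1 u2
    exact coef_eq (y0 _ s2).ne' (y0 _ sa1).ne' (y0 _ sb1).ne' (yne _ s2 _ sa1 se.2.1)
      (yne _ s2 _ sb1 (se.2.1.trans sf.2.1)) (yne _ sa1 _ sb1 sf.2.1) (g0 _ s2 _ s4).ne'
      (d0 _ s2 _ s4).ne' (p0 _ s1 _ s2).ne' u0 u1 u2 v0 v1 v2
      (y0 _ t2).ne' (y0 _ ta1).ne' (y0 _ tb1).ne' (yne _ t2 _ ta1 te.2.1)
      (yne _ t2 _ tb1 (te.2.1.trans tf.2.1)) (yne _ ta1 _ tb1 tf.2.1) (g0 _ t2 _ t4).ne'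
      (d0 _ t2 _ t4).ne' (p0 _ t1 _ t2).ne' u0' u1' u2' v0' v1' v2'
  have both : ∀ s ∈ G, ∀ t ∈ G, p (c1 s.1 s.2.1) = p (c1 t.1 t.2.1) →
      q (c1 s.1 s.2.1) = q (c1 t.1 t.2.1) → (s.1 = t.1 ∨ s.2.1 = t.2.1) → s = t := by
    intro s hs t ht ep eq' h
    obtain ⟨s1, s2, _, _⟩ := mem_box.1 (G1 hs)
    obtain ⟨t1, t2, _, _⟩ := mem_box.1 (G1 ht)
    obtain ⟨k1, k2, _, _⟩ := G4 s hs t ht
    have u1 := e1 _ s1 _ s2
    have u2 := e1 _ t1 _ t2
    rw [← ep, ← eq'] at u2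
    have v1 := mono_iff xm ym (q0 _ s1 _ s2) (p0 _ s1 _ s2) s1 t1 s2 t2 (u1.trans u2.symm)
    have v2 := mono_iff xm ym (q0 _ s1 _ s2) (p0 _ s1 _ s2) t1 s1 t2 s2 (u2.trans u1.symm)
    refine Prod.ext ?_ (Prod.ext ?_ (Prod.ext k1 k2)) <;> omega
  have fin := class_count G m (K * m) S (fun t => t.1) (fun t => t.2.1)
    (fun t ht => (mem_box.1 (G1 ht)).1) (fun t ht => (mem_box.1 (G1 ht)).2.1)
    (fun t => p (c1 t.1 t.2.1)) (fun t => q (c1 t.1 t.2.1)) hQ hP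
    (fun s hs t ht a1 a2 a3 => both s hs t ht a1 a2 (Or.inl a3))
    (fun s hs t ht a1 a2 a3 => both s hs t ht a1 a2 (Or.inr a3))
    (C.image (fun c => (p c, q c)))
    (fun t ht => mem_image_of_mem (fun c => (p c, q c))
      (c1C _ (mem_box.1 (G1 ht)).1 _ (mem_box.1 (G1 ht)).2.1))
    (card_image_le.trans hC)
  rw [← hM] at G2
  exact last_arith (by rw [hM]; positivity) hS (by omega) mpos G2 fin

end Pool.Agent.Vis5f
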