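import Pool.Agent.Lib.MP_5f22fc_co.Zig

set_option autoImplicit false
open Finset

namespace Pool.Agent.Vis5f

/-- the coordinate along a side -/
def alo (φ p : Pt) : ℝ := - φ.2 * p.1 + φ.1 * p.2

theorem sq_pos_of_ne {φ : Pt} (h : φ ≠ 0) : 0 < φ.1 ^ 2 + φ.2 ^ 2 := by
  by_contra hc
  apply h
  have e1 : φ.1 = 0 := by nlinarith [sq_nonneg φ.1, sq_nonneg φ.2]
  have e2 : φ.2 = 0 := by nlinarith [sq_nonneg φ.1, sq_nonneg φ.2]
  exact Prod.ext e1 e2

theorem ne_of_unit {φ : Pt} (h : ‖φ‖ = 1) : φ ≠ 0 := by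
  rintro rfl
  simp at h

theorem eq_of_alo {φ p q : Pt} (h : φ ≠ 0) (h1 : dot φ p = dot φ q) (h2 : alo φ p = alo φ q) :
    p = q := by
  have hη := sq_pos_of_ne h
  simp only [dot, alo] at h1 h2
  have k1 : (φ.1 ^ 2 + φ.2 ^ 2) * (p.1 - q.1) = 0 := by linear_combination φ.1 * h1 - φ.2 * h2
  have k2 : (φ.1 ^ 2 + φ.2 ^ 2) * (p.2 - q.2) = 0 := by linear_combination φ.2 * h1 + φ.1 * h2
  have := (mul_eq_zero.1 k1).resolve_left hη.ne'
  have := (mul_eq_zero.1 k2).resolve_left hη.ne'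
  exact Prod.ext (by linarith) (by linarith)

theorem alo_combo (φ u v : Pt) (a b : ℝ) :
    alo φ (a • u + b • v) = a * alo φ u + b * alo φ v := by
  simp only [alo, Prod.fst_add, Prod.snd_add, Prod.smul_fst, Prod.smul_snd, smul_eq_mul]
  ring

theorem mem_seg_of_alo {φ p q z : Pt} (h : φ ≠ 0) (h1 : dot φ p = dot φ z) (h2 : dot φ q = dot φ z)
    (t1 : alo φ p < alo φ z) (t2 : alo φ z < alo φ q) : z ∈ openSegment ℝ p q := by
  have hd : 0 < alo φ q - alo φ p := by linarith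
  have hab : (alo φ q - alo φ z) / (alo φ q - alo φ p) + (alo φ z - alo φ p) / (alo φ q - alo φ p)
      = 1 := by field_simp; ring
  refine ⟨_, _, div_pos (by linarith) hd, div_pos (by linarith) hd, hab, ?_⟩
  refine eq_of_alo h ?_ ?_
  · rw [dot_combo, h1, h2, ← add_mul, hab, one_mul]
  · rw [alo_combo]; field_simp; ring

open Classical in
/-- the points of a side other than its two ends -/
noncomputable def inner (φ : Pt) (X : Finset Pt) : Finset Pt :=
  (face φ X).filter (fun z => ∃ p ∈ face φ X, ∃ q ∈ face φ X, p ≠ q ∧ z ∈ openSegment ℝ p q)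

theorem inner_card {φ : Pt} (h : φ ≠ 0) (X : Finset Pt) :
    (face φ X).card ≤ (inner φ X).card + 2 := by
  classical
  rcases (face φ X).eq_empty_or_nonempty with h0 | h0
  · rw [h0]; simp
  obtain ⟨p, hp, pmin⟩ := exists_min_image _ (alo φ) h0
  obtain ⟨q, hq, qmax⟩ := exists_max_image _ (alo φ) h0
  have : face φ X ⊆ inner φ X ∪ {p, q} := by
    intro z hz
    by_cases e1 : z = p
    · simp [e1]
    by_cases e2 : z = q
    · simp [e2]
    have t1 : alo φ p < alo φ z :=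
      lt_of_le_of_ne (pmin z hz) (fun e => e1 (eq_of_alo h (face_eq hp hz) e).symm)
    have t2 : alo φ z < alo φ q :=
      lt_of_le_of_ne (qmax z hz) (fun e => e2 (eq_of_alo h (face_eq hz hq) e))
    refine mem_union_left _ (mem_filter.2 ⟨hz, p, hp, q, hq, ?_,
      mem_seg_of_alo h (face_eq hp hz) (face_eq hq hz) t1 t2⟩)
    intro e
    rw [e] at t1
    linarith
  exact (card_le_card this).trans ((card_union_le _ _).trans (Nat.add_le_add_left card_le_two _))

/-- `X` does not lie on a line -/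
def NotLine (X : Finset Pt) : Prop := ∀ φ : Pt, φ ≠ 0 → ∃ p ∈ X, ∃ q ∈ X, dot φ p ≠ dot φ q

theorem inner_face {X : Finset Pt} (hnl : NotLine X) {φ ψ z : Pt} (h1 : ‖φ‖ = 1) (h2 : ‖ψ‖ = 1)
    (hz : z ∈ inner φ X) (hz' : z ∈ face ψ X) : ψ = φ := by
  classical
  obtain ⟨hzf, p, hp, q, hq, hpq, a, b, ha, hb, hab, e⟩ := mem_filter.1 hz
  have l1 := (mem_face.1 hz').2 p (face_subset _ _ hp)
  have l2 := (mem_face.1 hz').2 q (face_subset _ _ hq)
  have l3 : dot ψ z = a * dot ψ p + b * dot ψ q := by rw [← e, dot_combo]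
  have m1 : dot ψ p = dot ψ z := by
    have : a * (dot ψ z - dot ψ p) + b * (dot ψ z - dot ψ q) = 0 := by
      linear_combination l3 + dot ψ z * hab
    have k1 := mul_nonneg ha.le (sub_nonneg.2 l1)
    have k2 := mul_nonneg hb.le (sub_nonneg.2 l2)
    have := (mul_eq_zero.1 (by linarith : a * (dot ψ z - dot ψ p) = 0)).resolve_left ha.ne'
    linarith
  have m2 : dot ψ q = dot ψ z := by
    have : a * (dot ψ z - dot ψ p) + b * (dot ψ z - dot ψ q) = 0 := by
      linear_combination l3 + dot ψ z * hab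
    have k1 := mul_nonneg ha.le (sub_nonneg.2 l1)
    have k2 := mul_nonneg hb.le (sub_nonneg.2 l2)
    have := (mul_eq_zero.1 (by linarith : b * (dot ψ z - dot ψ q) = 0)).resolve_left hb.ne'
    linarith
  have f1 := face_eq hp hq
  have hφ := ne_of_unit h1
  have hη := sq_pos_of_ne hφ
  have hal : alo φ p - alo φ q ≠ 0 := fun h => hpq (eq_of_alo hφ f1 (by linarith))
  have hcr : φ.1 * ψ.2 - φ.2 * ψ.1 = 0 := by
    have : (φ.1 * ψ.2 - φ.2 * ψ.1) * (alo φ p - alo φ q) = 0 := by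
      simp only [dot, alo] at m1 m2 f1 ⊢
      linear_combination (φ.1 ^ 2 + φ.2 ^ 2) * (m1 - m2) - (φ.1 * ψ.1 + φ.2 * ψ.2) * f1
    exact (mul_eq_zero.1 this).resolve_right hal
  set s := φ.1 * ψ.1 + φ.2 * ψ.2 with hs
  have e1 : (φ.1 ^ 2 + φ.2 ^ 2) * ψ.1 = s * φ.1 := by rw [hs]; linear_combination (-φ.2) * hcr
  have e2 : (φ.1 ^ 2 + φ.2 ^ 2) * ψ.2 = s * φ.2 := by rw [hs]; linear_combination φ.1 * hcr
  rcases lt_trichotomy s 0 with h0 | h0 | h0
  · exfalso
    have : ψ = -φ := unit_eq h2 (by rw [norm_neg, h1]) hη (neg_pos.2 h0)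
      (by simp only [Prod.fst_neg]; linarith) (by simp only [Prod.snd_neg]; linarith)
    obtain ⟨x, hx, y, hy, hxy⟩ := hnl φ hφ
    apply hxy
    have k : ∀ x ∈ X, dot φ x = dot φ z := by
      intro x hx
      have a1 := (mem_face.1 hzf).2 x hx
      have a2 := (mem_face.1 hz').2 x hx
      rw [this, dot_neg, dot_neg] at a2
      linarith
    rw [k x hx, k y hy]
  · exfalso
    rw [h0, zero_mul] at e1 e2
    exact ne_of_unit h2 (Prod.ext ((mul_eq_zero.1 e1).resolve_left hη.ne')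
      ((mul_eq_zero.1 e2).resolve_left hη.ne'))
  · exact unit_eq h2 h1 hη h0 e1 e2

theorem hull_aux {C X : Finset Pt} {χ : Pt → Bool} (hb : Blocks C χ X) (hnl : NotLine X)
    (Φ : Finset Pt) (hΦ : ∀ φ ∈ Φ, ‖φ‖ = 1) {L : ℕ} (hL1 : 1 ≤ L)
    (hL : ∀ φ ∈ Φ, lam χ (face φ X) ≤ L) {φ0 l r : Pt} (h0 : φ0 ∈ Φ) (hl : l ∈ face φ0 X)
    (hr : r ∈ face φ0 X) (hlr : χ r ≠ χ l) (hor : alo φ0 l < alo φ0 r) :
    2 * ∑ φ ∈ Φ, lam χ (face φ X) + 2 ≤ nb C X + 4 * L := by
  classical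
  have hT : ∀ φ ∈ Φ, ∃ T ⊆ inner φ X, T.card = 2 * lam χ (face φ X) := by
    intro φ hφ
    refine exists_subset_card_eq ?_
    have a1 := inner_card (ne_of_unit (hΦ φ hφ)) X
    have a2 := cnt_add χ (face φ X)
    unfold lam
    omega
  choose! T hT1 hT2 using hT
  have hTf : ∀ φ ∈ Φ, ∀ z ∈ T φ, z ∈ face φ X := fun φ hφ z hz => (mem_filter.1 (hT1 φ hφ hz)).1
  set Z0 := (Φ.erase φ0).biUnion T with hZ0
  have hZ0c : Z0.card = ∑ φ ∈ Φ.erase φ0, 2 * lam χ (face φ X) := by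
    rw [hZ0, card_biUnion]
    · exact sum_congr rfl (fun φ hφ => hT2 φ (mem_erase.1 hφ).2)
    · intro φ hφ ψ hψ hne
      have hφ' := (mem_erase.1 (mem_coe.1 hφ)).2
      have hψ' := (mem_erase.1 (mem_coe.1 hψ)).2
      rw [Function.onFun, disjoint_left]
      intro z z1 z2
      exact hne (inner_face hnl (hΦ ψ hψ') (hΦ φ hφ') (hT1 ψ hψ' z2) (hTf φ hφ' z z1))
  have hφ0 := ne_of_unit (hΦ φ0 h0)
  have hη := sq_pos_of_ne hφ0
  set o : Pt := ((l.1 + r.1) / 2, (l.2 + r.2) / 2) with ho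
  set h : Pt → ℝ := fun p => dot φ0 o - dot φ0 p with hh
  set τ : Pt → ℝ := fun p => alo φ0 p - alo φ0 o with hτ
  have hlr0 := face_eq hl hr
  have hol : dot φ0 o = dot φ0 l := by
    simp only [ho, dot] at hlr0 ⊢; linarith
  have hhl : h l = 0 := by simp only [hh, hol, sub_self]
  have hhr : h r = 0 := by simp only [hh, hol, hlr0, sub_self]
  have hτr : 0 < τ r := by simp only [hτ, ho, alo] at hor ⊢; linarith
  have hτl : τ l < 0 := by simp only [hτ, ho, alo] at hor ⊢; linarith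
  have hcross : ∀ p q, τ p * h q - h p * τ q = (φ0.1 ^ 2 + φ0.2 ^ 2) * det o p q := by
    intro p q
    simp only [hτ, hh, alo, dot, det]; ring
  have hZ : ∀ z ∈ Z0, z ∈ X ∧ 0 < h z ∧ ∃ ψ ∈ Φ, z ∈ T ψ := by
    intro z hz
    obtain ⟨ψ, hψ, hzψ⟩ := mem_biUnion.1 hz
    obtain ⟨hne, hψ⟩ := mem_erase.1 hψ
    have zX := face_subset _ _ (hTf ψ hψ z hzψ)
    refine ⟨zX, ?_, ψ, hψ, hzψ⟩
    have a1 := (mem_face.1 hl).2 z zX
    by_contra hc
    apply hne
    refine (inner_face hnl (hΦ ψ hψ) (hΦ φ0 h0) (hT1 ψ hψ hzψ) (mem_face.2 ⟨zX, ?_⟩)).symm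
    intro q hq
    have a2 := (mem_face.1 hl).2 q hq
    simp only [hh, hol] at hc
    linarith
  have hM : ∀ z ∈ Z0, ∀ ψ ∈ Φ, z ∈ face ψ X → 0 < dot ψ z - dot ψ o := by
    intro z hz ψ hψ hzψ
    obtain ⟨zX, hz0, _⟩ := hZ z hz
    have a1 := (mem_face.1 hzψ).2 l (face_subset _ _ hl)
    have a2 := (mem_face.1 hzψ).2 r (face_subset _ _ hr)
    have a3 : dot ψ l + dot ψ r = 2 * dot ψ o := by simp only [ho, dot]; ring
    by_contra hc
    have b1 : dot ψ r - dot ψ o = 0 := by linarith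
    have b2 : dot ψ z - dot ψ o = 0 := by linarith
    have b3 : det o r z ≠ 0 := by
      intro e
      have := hcross r z
      rw [e, hhr] at this
      nlinarith [mul_pos hτr hz0]
    apply ne_of_unit (hΦ ψ hψ)
    simp only [dot, det] at b1 b2 b3
    have c1 : ψ.1 * ((r.1 - o.1) * (z.2 - o.2) - (r.2 - o.2) * (z.1 - o.1)) = 0 := by
      linear_combination (z.2 - o.2) * b1 - (r.2 - o.2) * b2
    have c2 : ψ.2 * ((r.1 - o.1) * (z.2 - o.2) - (r.2 - o.2) * (z.1 - o.1)) = 0 := by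
      linear_combination (r.1 - o.1) * b2 - (z.1 - o.1) * b1
    exact Prod.ext ((mul_eq_zero.1 c1).resolve_right b3) ((mul_eq_zero.1 c2).resolve_right b3)
  have hrl : r ≠ l := fun e => hlr (by rw [e])
  have hrZ : r ∉ Z0 := fun e => by linarith [(hZ r e).2.1]
  have hlZ : l ∉ Z0 := fun e => by linarith [(hZ l e).2.1]
  set κ : Pt → EReal := fun p => if p = r then ⊥ else if p = l then ⊤ else ((- τ p / h p : ℝ) : EReal)
    with hκ
  have κr : κ r = ⊥ := by simp [hκ]
  have κl : κ l = ⊤ := by simp [hκ, hrl.symm]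
  have κz : ∀ z ∈ Z0, κ z = ((- τ z / h z : ℝ) : EReal) := by
    intro z hz
    have e1 : z ≠ r := fun e => hrZ (e ▸ hz)
    have e2 : z ≠ l := fun e => hlZ (e ▸ hz)
    simp only [hκ, if_neg e1, if_neg e2]
  set Z := insert r (insert l Z0) with hZd
  have hZm : ∀ z ∈ Z, z = r ∨ z = l ∨ z ∈ Z0 := by
    intro z hz
    simpa [hZd] using hz
  have hZX : Z ⊆ X := by
    intro z hz
    rcases hZm z hz with e | e | e
    · exact e ▸ face_subset _ _ hr
    · exact e ▸ face_subset _ _ hl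
    · exact (hZ z e).1
  have hmid : ∀ p q z, z ∈ Z → κ p < κ z → κ z < κ q → z ∈ Z0 := by
    intro p q z hz a1 a2
    rcases hZm z hz with e | e | e
    · rw [e, κr] at a1; simp at a1
    · rw [e, κl] at a2; simp at a2
    · exact e
  have hdet1 : ∀ p ∈ Z, ∀ z ∈ Z0, κ p < κ z → 0 < det o p z := by
    intro p hp z hz a1
    have hz0 := (hZ z hz).2.1
    have : 0 < τ p * h z - h p * τ z := by
      rcases hZm p hp with e | e | e
      · rw [e, hhr]; nlinarith [mul_pos hτr hz0]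
      · rw [e, κl] at a1; simp at a1
      · rw [κz p e, κz z hz, EReal.coe_lt_coe_iff, div_lt_div_iff₀ (hZ p e).2.1 hz0] at a1
        linarith
    rw [hcross] at this
    exact (mul_pos_iff_of_pos_left hη).1 this
  have hdet2 : ∀ z ∈ Z0, ∀ p ∈ Z, κ z < κ p → 0 < det o z p := by
    intro z hz p hp a1
    have hz0 := (hZ z hz).2.1
    have : 0 < τ z * h p - h z * τ p := by
      rcases hZm p hp with e | e | e
      · rw [e, κr] at a1; simp at a1
      · rw [e, hhl]; nlinarith [mul_pos (neg_pos.2 hτl) hz0]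
      · rw [κz p e, κz z hz, EReal.coe_lt_coe_iff, div_lt_div_iff₀ hz0 (hZ p e).2.1] at a1
        linarith
    rw [hcross] at this
    exact (mul_pos_iff_of_pos_left hη).1 this
  have hid : ∀ ψ p q s : Pt, det o q s * (dot ψ p - dot ψ o) + det o p q * (dot ψ s - dot ψ o)
      = det o p s * (dot ψ q - dot ψ o) := by
    intro ψ p q s
    simp only [det, dot]; ring
  have hid2 : ∀ p q s : Pt, det p q s = det o p q + det o q s - det o p s := by
    intro p q s
    simp only [det]; ring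
  have H1 : ∀ p ∈ Z, ∀ q ∈ Z, κ p = κ q → p = q := by
    have k : ∀ p ∈ Z0, ∀ q ∈ Z0, τ p * h q = h p * τ q → h q ≤ h p := by
      intro p hp q hq e
      obtain ⟨_, hp0, ψ, hψ, hpψ⟩ := hZ p hp
      have m := hM p hp ψ hψ (hTf ψ hψ p hpψ)
      have a1 := (mem_face.1 (hTf ψ hψ p hpψ)).2 q (hZ q hq).1
      have d0 : det o p q = 0 := by
        have := hcross p q
        rw [e, sub_self] at this
        exact (mul_eq_zero.1 this.symm).resolve_left hη.ne'
      have a2 : (dot ψ q - dot ψ o) * h p = (dot ψ p - dot ψ o) * h q := by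
        simp only [hh, dot, det] at d0 ⊢
        linear_combination (ψ.1 * φ0.2 - ψ.2 * φ0.1) * d0
      by_contra hc
      push Not at hc
      nlinarith [mul_pos m (sub_pos.2 hc), mul_nonneg (sub_nonneg.2 a1) hp0.le]
    intro p hp q hq e
    rcases hZm p hp with e1 | e1 | e1 <;> rcases hZm q hq with e2 | e2 | e2
    · rw [e1, e2]
    · rw [e1, e2, κr, κl] at e; simp at e
    · rw [e1, κr, κz q e2] at e; exact absurd e.symm (EReal.coe_ne_bot _)
    · rw [e1, e2, κr, κl] at e; simp at e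
    · rw [e1, e2]
    · rw [e1, κl, κz q e2] at e; exact absurd e.symm (EReal.coe_ne_top _)
    · rw [e2, κr, κz p e1] at e; exact absurd e (EReal.coe_ne_bot _)
    · rw [e2, κl, κz p e1] at e; exact absurd e (EReal.coe_ne_top _)
    · have p0 := (hZ p e1).2.1
      have q0 := (hZ q e2).2.1
      rw [κz p e1, κz q e2, EReal.coe_eq_coe_iff, div_eq_div_iff p0.ne' q0.ne'] at e
      have a1 := k p e1 q e2 (by linarith)
      have a2 := k q e2 p e1 (by linarith)
      have a3 : h p = h q := le_antisymm a2 a1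
      have a4 : τ p = τ q := by
        rw [a3] at e
        have := mul_right_cancel₀ q0.ne' e
        linarith
      refine eq_of_alo hφ0 ?_ ?_
      · simp only [hh] at a3; linarith
      · simp only [hτ] at a4; linarith
  have H2 : ∀ p ∈ Z, ∀ q ∈ Z, ∀ s ∈ Z, κ p < κ q → κ q < κ s → 0 ≤ det p q s := by
    intro p hp q hq s hs a1 a2
    have q0 := hmid p s q hq a1 a2
    obtain ⟨_, _, ψ, hψ, hqψ⟩ := hZ q q0
    have hf := hTf ψ hψ q hqψ
    have m := hM q q0 ψ hψ hf
    have d1 := hdet1 p hp q q0 a1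
    have d2 := hdet2 q q0 s hs a2
    have b1 := (mem_face.1 hf).2 p (hZX hp)
    have b2 := (mem_face.1 hf).2 s (hZX hs)
    have e := hid ψ p q s
    rw [hid2]
    by_contra hc
    push Not at hc
    nlinarith [mul_nonneg d1.le (sub_nonneg.2 b2), mul_nonneg d2.le (sub_nonneg.2 b1),
      mul_pos m (neg_pos.2 hc)]
  have H3 : ∀ p ∈ Z, ∀ q ∈ Z, ∀ s ∈ Z, κ p < κ q → κ q < κ s → det p q s = 0 →
      (Z.filter (fun z => κ p ≤ κ z ∧ κ z ≤ κ s)).card ≤ 2 * L + 1 := by
    intro p hp q hq s hs a1 a2 a3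
    have q0 := hmid p s q hq a1 a2
    obtain ⟨_, _, ψ, hψ, hqψ⟩ := hZ q q0
    have hf := hTf ψ hψ q hqψ
    have m := hM q q0 ψ hψ hf
    have d1 := hdet1 p hp q q0 a1
    have d2 := hdet2 q q0 s hs a2
    have b1 := (mem_face.1 hf).2 p (hZX hp)
    have b2 := (mem_face.1 hf).2 s (hZX hs)
    have e := hid ψ p q s
    rw [hid2] at a3
    have d3 : det o p s = det o p q + det o q s := by linarith
    rw [d3] at e
    have k1 := mul_nonneg d1.le (sub_nonneg.2 b2)
    have k2 := mul_nonneg d2.le (sub_nonneg.2 b1)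
    have c1 : dot ψ p = dot ψ q := by
      have : det o q s * (dot ψ q - dot ψ p) = 0 := by nlinarith
      have := (mul_eq_zero.1 this).resolve_left d2.ne'
      linarith
    have c2 : dot ψ s = dot ψ q := by
      have : det o p q * (dot ψ q - dot ψ s) = 0 := by nlinarith
      have := (mul_eq_zero.1 this).resolve_left d1.ne'
      linarith
    have hin : ∀ z ∈ Z.filter (fun z => κ p ≤ κ z ∧ κ z ≤ κ s), dot ψ q ≤ dot ψ z := by
      intro z hz
      obtain ⟨hz, l1, l2⟩ := mem_filter.1 hz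
      rcases eq_or_lt_of_le l1 with e1 | e1
      · rw [← H1 p hp z hz e1, c1]
      rcases eq_or_lt_of_le l2 with e2 | e2
      · rw [H1 z hz s hs e2, c2]
      have z0 := hmid p s z hz e1 e2
      have g1 := hdet1 p hp z z0 e1
      have g2 := hdet2 z z0 s hs e2
      have g3 := H2 p hp z hz s hs e1 e2
      have g4 := hid ψ p z s
      rw [hid2] at g3
      rw [c1, c2] at g4
      by_contra hc
      push Not at hc
      have g5 : 0 < det o p s := by linarith
      nlinarith [mul_pos g5 (sub_pos.2 hc), mul_nonneg g3 m.le]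
    have hsub : ∀ z ∈ Z.filter (fun z => κ p ≤ κ z ∧ κ z ≤ κ s), z ∈ Z0 → z ∈ T ψ := by
      intro z hz z0
      obtain ⟨zX, _, ψ', hψ', hzψ⟩ := hZ z z0
      have : z ∈ face ψ X :=
        mem_face.2 ⟨zX, fun x hx => ((mem_face.1 hf).2 x hx).trans (hin z hz)⟩
      rw [inner_face hnl (hΦ ψ' hψ') (hΦ ψ hψ) (hT1 ψ' hψ' hzψ) this]
      exact hzψ
    have hTc : (T ψ).card ≤ 2 * L := by
      rw [hT2 ψ hψ]; have := hL ψ hψ; omega
    have a3' : dot ψ l + dot ψ r = 2 * dot ψ o := by simp only [ho, dot]; ring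
    by_cases hrin : r ∈ Z.filter (fun z => κ p ≤ κ z ∧ κ z ≤ κ s)
    · have : Z.filter (fun z => κ p ≤ κ z ∧ κ z ≤ κ s) ⊆ insert r (T ψ) := by
        intro z hz
        rcases hZm z (mem_filter.1 hz).1 with e1 | e1 | e1
        · rw [e1]; exact mem_insert_self _ _
        · exfalso
          have x1 := hin r hrin
          have x2 := hin z hz
          rw [e1] at x2
          linarith
        · exact mem_insert_of_mem (hsub z hz e1)
      exact (card_le_card this).trans ((card_insert_le _ _).trans (by omega))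
    · have : Z.filter (fun z => κ p ≤ κ z ∧ κ z ≤ κ s) ⊆ insert l (T ψ) := by
        intro z hz
        rcases hZm z (mem_filter.1 hz).1 with e1 | e1 | e1
        · exact absurd (e1 ▸ hz) hrin
        · rw [e1]; exact mem_insert_self _ _
        · exact mem_insert_of_mem (hsub z hz e1)
      exact (card_le_card this).trans ((card_insert_le _ _).trans (by omega))
  have hz := zigzag C χ κ (2 * L + 1) (by omega) Z.card Z rfl H1 H2 H3 (hb.mono hZX) r
    (mem_insert_self _ _) l (mem_insert_of_mem (mem_insert_self _ _))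
    (fun z _ => by rw [κr]; exact bot_le) (fun z _ => by rw [κl]; exact le_top) hlr
  have hc : Z.card = Z0.card + 2 := by
    rw [hZd, card_insert_of_notMem (by simp [hrl, hrZ]), card_insert_of_notMem hlZ]
  have hn := nb_add (C := C) (T := ∅) hZX (empty_subset _) (by simp) (by simp)
  have hs := add_sum_erase Φ (fun φ => lam χ (face φ X)) h0
  rw [← mul_sum] at hZ0c
  have := hL φ0 h0
  simp only [card_empty] at hn
  omega

theorem hull_bound {C X : Finset Pt} {χ : Pt → Bool} (hb : Blocks C χ X) (hnl : NotLine X)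
    (Φ : Finset Pt) (hΦ : ∀ φ ∈ Φ, ‖φ‖ = 1) {L : ℕ} (hL1 : 1 ≤ L)
    (hL : ∀ φ ∈ Φ, lam χ (face φ X) ≤ L) {φ0 : Pt} (h0 : φ0 ∈ Φ)
    (h1 : 1 ≤ lam χ (face φ0 X)) :
    2 * ∑ φ ∈ Φ, lam χ (face φ X) + 2 ≤ nb C X + 4 * L := by
  unfold lam at h1
  obtain ⟨p, hp, cp⟩ := exists_col (χ := χ) (c := true) (F := face φ0 X) (by omega)
  obtain ⟨q, hq, cq⟩ := exists_col (χ := χ) (c := false) (F := face φ0 X) (by omega)
  have hpq : χ p ≠ χ q := by rw [cp, cq]; simp
  rcases lt_trichotomy (alo φ0 p) (alo φ0 q) with h | h | h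
  · exact hull_aux hb hnl Φ hΦ hL1 hL h0 hp hq hpq.symm h
  · exact absurd (by rw [eq_of_alo (ne_of_unit (hΦ φ0 h0)) (face_eq hp hq) h]) hpq
  · exact hull_aux hb hnl Φ hΦ hL1 hL h0 hq hp hpq h

end Pool.Agent.Vis5f
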