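import Pool.Agent.Lib.MP_5f22fc_co.Chord

set_option autoImplicit false
open Finset

namespace Pool.Agent.Vis5f

theorem det_self_left (a b : Pt) : det a b a = 0 := by simp only [det]; ring

theorem det_self_right (a b : Pt) : det a b b = 0 := by simp only [det]; ring

theorem det_seg {a b c : Pt} (h : c ∈ openSegment ℝ a b) : det a b c = 0 := by
  obtain ⟨x, y, _, _, xy, rfl⟩ := h
  rw [det_combo a b a b xy, det_self_left, det_self_right]; ring

/-- a fractional packing of chords between hull points -/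
theorem pack {C X ZA ZB : Finset Pt} {χ : Pt → Bool} (hb : Blocks C χ X)
    (hA : ∀ a ∈ ZA, χ a = true ∧ ∃ s : Pt, s ≠ 0 ∧ a ∈ face s X)
    (hB : ∀ b ∈ ZB, χ b = false ∧ ∃ s : Pt, s ≠ 0 ∧ b ∈ face s X)
    (W : Finset (Pt × Pt)) (hW : ∀ p ∈ W, p.1 ∈ ZA ∧ p.2 ∈ ZB ∧ Val X p.1 p.2) :
    ∑ p ∈ W, 1 / (1 + ((ZA.filter (fun x => 0 < det p.1 p.2 x)).card : ℝ) +
      ((ZB.filter (fun x => 0 < det p.1 p.2 x)).card : ℝ)) ≤ C.card := by
  classical
  have hX : ∀ a ∈ ZA, a ∈ X := fun a ha => by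
    obtain ⟨_, s, _, h⟩ := hA a ha
    exact face_subset _ _ h
  have hX' : ∀ a ∈ ZB, a ∈ X := fun a ha => by
    obtain ⟨_, s, _, h⟩ := hB a ha
    exact face_subset _ _ h
  have hc : ∀ p ∈ W, ∃ c ∈ C, c ∈ openSegment ℝ p.1 p.2 := by
    intro p hp
    obtain ⟨p1, p2, _⟩ := hW p hp
    exact hb _ (hX _ p1) _ (hX' _ p2) (by rw [(hA _ p1).1, (hB _ p2).1]; simp)
  choose! c hc1 hc2 using hc
  have onA : ∀ p ∈ W, ∀ u ∈ ZA, det p.1 p.2 u = 0 → u = p.1 := by
    intro p hp u hu hz
    obtain ⟨p1, p2, pv⟩ := hW p hp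
    obtain ⟨_, s, hs, fs⟩ := hA _ p1
    obtain ⟨c2, s', hs', fs'⟩ := hB _ p2
    obtain ⟨c3, φ, hφ, fφ⟩ := hA _ hu
    rcases pv.on_line hs hs' hφ fs fs' fφ hz with e | e
    · exact e
    · rw [e, c2] at c3; simp at c3
  have onB : ∀ p ∈ W, ∀ u ∈ ZB, det p.1 p.2 u = 0 → u = p.2 := by
    intro p hp u hu hz
    obtain ⟨p1, p2, pv⟩ := hW p hp
    obtain ⟨c1, s, hs, fs⟩ := hA _ p1
    obtain ⟨_, s', hs', fs'⟩ := hB _ p2
    obtain ⟨c3, φ, hφ, fφ⟩ := hB _ hu
    rcases pv.on_line hs hs' hφ fs fs' fφ hz with e | e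
    · rw [e, c1] at c3; simp at c3
    · exact e
  have rel : ∀ p ∈ W, ∀ q ∈ W, c q = c p →
      ∃ x y : ℝ, 0 < x ∧ 0 < y ∧ x * det p.1 p.2 q.1 + y * det p.1 p.2 q.2 = 0 := by
    intro p hp q hq e
    obtain ⟨x, y, x0, y0, xy, e2⟩ := hc2 q hq
    refine ⟨x, y, x0, y0, ?_⟩
    rw [← det_combo _ _ _ _ xy, e2, e]
    exact det_seg (hc2 p hp)
  have sh1 : ∀ p ∈ W, ∀ q ∈ W, c q = c p → q.1 = p.1 → q = p := by
    intro p hp q hq e e1
    obtain ⟨x, y, _, y0, k⟩ := rel p hp q hq e
    rw [e1, det_self_left, mul_zero, zero_add] at k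
    exact Prod.ext e1 (onB p hp _ (hW q hq).2.1 ((mul_eq_zero.1 k).resolve_left y0.ne'))
  have sh2 : ∀ p ∈ W, ∀ q ∈ W, c q = c p → q.2 = p.2 → q = p := by
    intro p hp q hq e e1
    obtain ⟨x, y, x0, _, k⟩ := rel p hp q hq e
    rw [e1, det_self_right, mul_zero, add_zero] at k
    exact Prod.ext (onA p hp _ (hW q hq).1 ((mul_eq_zero.1 k).resolve_left x0.ne')) e1
  have clique : ∀ p ∈ W, (W.filter (fun q => c q = c p)).card ≤
      1 + (ZA.filter (fun x => 0 < det p.1 p.2 x)).card +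
        (ZB.filter (fun x => 0 < det p.1 p.2 x)).card := by
    intro p hp
    set F := W.filter (fun q => c q = c p) with hF
    have sub : F ⊆ insert p (F.filter (fun q => 0 < det p.1 p.2 q.1) ∪
        F.filter (fun q => 0 < det p.1 p.2 q.2)) := by
      intro q hq
      obtain ⟨qW, qc⟩ := mem_filter.1 hq
      by_cases e : q = p
      · rw [e]; exact mem_insert_self _ _
      refine mem_insert_of_mem ?_
      obtain ⟨x, y, x0, y0, k⟩ := rel p hp q qW qc
      rcases lt_trichotomy 0 (det p.1 p.2 q.1) with t | t | t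
      · exact mem_union_left _ (mem_filter.2 ⟨hq, t⟩)
      · exact absurd (sh1 p hp q qW qc (onA p hp _ (hW q qW).1 t.symm)) e
      · refine mem_union_right _ (mem_filter.2 ⟨hq, ?_⟩)
        by_contra hc
        push Not at hc
        nlinarith [mul_pos x0 (neg_pos.2 t), mul_nonneg y0.le (neg_nonneg.2 hc)]
    have k1 : (F.filter (fun q => 0 < det p.1 p.2 q.1)).card ≤
        (ZA.filter (fun x => 0 < det p.1 p.2 x)).card := by
      refine card_le_card_of_injOn Prod.fst ?_ ?_
      · intro q hq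
        obtain ⟨q1, q2⟩ := mem_filter.1 (mem_coe.1 hq)
        exact mem_coe.2 (mem_filter.2 ⟨(hW q (mem_filter.1 q1).1).1, q2⟩)
      · intro q hq r hr e
        obtain ⟨q1, q2⟩ := mem_filter.1 (mem_filter.1 (mem_coe.1 hq)).1
        obtain ⟨r1, r2⟩ := mem_filter.1 (mem_filter.1 (mem_coe.1 hr)).1
        exact sh1 r r1 q q1 (q2.trans r2.symm) e
    have k2 : (F.filter (fun q => 0 < det p.1 p.2 q.2)).card ≤
        (ZB.filter (fun x => 0 < det p.1 p.2 x)).card := by
      refine card_le_card_of_injOn Prod.snd ?_ ?_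
      · intro q hq
        obtain ⟨q1, q2⟩ := mem_filter.1 (mem_coe.1 hq)
        exact mem_coe.2 (mem_filter.2 ⟨(hW q (mem_filter.1 q1).1).2.1, q2⟩)
      · intro q hq r hr e
        obtain ⟨q1, q2⟩ := mem_filter.1 (mem_filter.1 (mem_coe.1 hq)).1
        obtain ⟨r1, r2⟩ := mem_filter.1 (mem_filter.1 (mem_coe.1 hr)).1
        exact sh2 r r1 q q1 (q2.trans r2.symm) e
    have k3 := (card_le_card sub).trans (card_insert_le _ _)
    have k4 := card_union_le (F.filter (fun q => 0 < det p.1 p.2 q.1))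
      (F.filter (fun q => 0 < det p.1 p.2 q.2))
    omega
  rw [← sum_fiberwise_of_maps_to (g := c) (t := C) hc1]
  refine (sum_le_card_nsmul C _ 1 ?_).trans (by simp)
  intro z _
  set F := W.filter (fun q => c q = z) with hF
  rcases F.eq_empty_or_nonempty with h0 | h0
  · rw [h0]; simp
  have hpos : (0 : ℝ) < F.card := by exact_mod_cast card_pos.2 h0
  refine (sum_le_card_nsmul F _ (1 / (F.card : ℝ)) ?_).trans ?_
  · intro p hp
    obtain ⟨pW, pc⟩ := mem_filter.1 hp
    have := clique p pW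
    rw [pc, ← hF] at this
    refine one_div_le_one_div_of_le hpos ?_
    exact_mod_cast this
  · rw [nsmul_eq_mul, mul_one_div_cancel hpos.ne']

theorem line_bound {X Z : Finset Pt} {l : ℕ}
    (hl : ∀ Q ⊆ X, Collinear ℝ (Q : Set Pt) → Q.card ≤ l) (hZ : Z ⊆ X) {a : Pt} (ha : a ∈ X)
    (haZ : a ∉ Z) (h : ∀ b ∈ Z, ∀ b' ∈ Z, det a b b' = 0) : Z.card + 1 ≤ l := by
  classical
  rw [← card_insert_of_notMem haZ]
  refine hl _ (insert_subset ha hZ) ?_
  rcases Z.eq_empty_or_nonempty with h0 | ⟨b, hb⟩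
  · rw [h0]; simp [collinear_singleton]
  have hab : a ≠ b := fun e => haZ (e ▸ hb)
  rw [collinear_iff_of_mem (p₀ := a) (by simp)]
  refine ⟨b - a, fun p hp => ?_⟩
  rcases mem_insert.1 (mem_coe.1 hp) with e | e
  · exact ⟨0, by rw [e]; simp⟩
  · obtain ⟨τ, k⟩ := exists_param hab (h b hb p e)
    refine ⟨τ, ?_⟩
    rw [k, vadd_eq_add, smul_sub, sub_smul, one_smul]
    abel

theorem face_bound {X : Finset Pt} {l : ℕ}
    (hl : ∀ Q ⊆ X, Collinear ℝ (Q : Set Pt) → Q.card ≤ l) {φ : Pt} (hφ : φ ≠ 0) :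
    (face φ X).card ≤ l := by
  classical
  rcases (face φ X).eq_empty_or_nonempty with h0 | ⟨a, ha⟩
  · rw [h0]; simp
  have := line_bound hl (Z := (face φ X).erase a) ((erase_subset _ _).trans (face_subset _ _))
    (face_subset _ _ ha) (notMem_erase _ _) (by
      intro b hb b' hb'
      have f1 := face_eq ha (mem_erase.1 hb).2
      have f2 := face_eq ha (mem_erase.1 hb').2
      have hη := sq_pos_of_ne hφ
      have : (φ.1 ^ 2 + φ.2 ^ 2) * det a b b' = 0 := by
        simp only [dot, det] at f1 f2 ⊢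
        linear_combination (φ.2 * (b'.1 - a.1) - φ.1 * (b'.2 - a.2)) * f1 +
          (φ.1 * (b.2 - a.2) - φ.2 * (b.1 - a.1)) * f2
      exact (mul_eq_zero.1 this).resolve_left hη.ne')
  rw [card_erase_of_mem ha] at this
  have := card_pos.2 ⟨a, ha⟩
  omega

theorem det_swap (a b c : Pt) : det a c b = - det a b c := by simp only [det]; ring

theorem log_pack {C X : Finset Pt} {χ : Pt → Bool} (hb : Blocks C χ X) (hnl : NotLine X)
    (Φ : Finset Pt) (hΦ : ∀ φ ∈ Φ, ‖φ‖ = 1) {l : ℕ} (hl0 : 1 ≤ l)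
    (hl : ∀ Q ⊆ X, Collinear ℝ (Q : Set Pt) → Q.card ≤ l) {Λ : ℕ}
    (hΛ : Λ = ∑ φ ∈ Φ, lam χ (face φ X)) :
    (Λ : ℝ) * Real.log (Λ / (2 * l)) ≤ 2 * C.card := by
  classical
  have l0 : (0 : ℝ) < l := by exact_mod_cast hl0
  by_cases hsm : Λ ≤ 2 * l
  · have : Real.log ((Λ : ℝ) / (2 * l)) ≤ 0 := by
      refine Real.log_nonpos (by positivity) ?_
      rw [div_le_one (by positivity)]
      exact_mod_cast hsm
    have := mul_nonpos_of_nonneg_of_nonpos (Nat.cast_nonneg (α := ℝ) Λ) this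
    have : (0 : ℝ) ≤ C.card := Nat.cast_nonneg _
    linarith
  push Not at hsm
  have hT : ∀ c : Bool, ∀ φ ∈ Φ, ∃ T ⊆ (low φ X).filter (fun p => χ p = c),
      T.card = lam χ (face φ X) := by
    intro c φ hφ
    refine exists_subset_card_eq ?_
    have a1 := low_cnt (ne_of_unit (hΦ φ hφ)) X χ c
    unfold cnt at a1
    unfold lam cnt
    cases c <;> omega
  choose! T hT1 hT2 using hT
  have Tl : ∀ c, ∀ φ ∈ Φ, ∀ z ∈ T c φ, z ∈ low φ X := fun c φ hφ z hz =>
    (mem_filter.1 (hT1 c φ hφ hz)).1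
  have Tc : ∀ c, ∀ φ ∈ Φ, ∀ z ∈ T c φ, χ z = c := fun c φ hφ z hz =>
    (mem_filter.1 (hT1 c φ hφ hz)).2
  have Tf : ∀ c, ∀ φ ∈ Φ, ∀ z ∈ T c φ, z ∈ face φ X := fun c φ hφ z hz =>
    low_subset _ _ (Tl c φ hφ z hz)
  have hL : ∀ φ ∈ Φ, 2 * lam χ (face φ X) ≤ l := by
    intro φ hφ
    have a1 := face_bound hl (ne_of_unit (hΦ φ hφ))
    have a2 := cnt_add χ (face φ X)
    unfold lam
    omega
  set Z : Bool → Finset Pt := fun c => Φ.biUnion (T c) with hZ
  have hfil : ∀ c, ∀ Q : Pt → Prop, ∀ [DecidablePred Q],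
      ((Z c).filter Q).card = ∑ φ ∈ Φ, ((T c φ).filter Q).card := by
    intro c Q _
    simp only [hZ]
    rw [filter_biUnion, card_biUnion]
    intro φ hφ ψ hψ hne
    rw [Function.onFun, disjoint_left]
    intro z z1 z2
    exact hne (low_disj hnl (hΦ ψ hψ) (hΦ φ hφ) (Tl c ψ hψ z (mem_filter.1 z2).1)
      (Tl c φ hφ z (mem_filter.1 z1).1))
  have Zc : ∀ c, (Z c).card = Λ := by
    intro c
    have := hfil c (fun _ => True)
    simp only [filter_true] at this
    rw [this, hΛ]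
    exact sum_congr rfl (hT2 c)
  have Zm : ∀ c, ∀ z ∈ Z c, ∃ φ ∈ Φ, z ∈ T c φ := fun c z hz => mem_biUnion.1 hz
  have Zp : ∀ c, ∀ z ∈ Z c, χ z = c ∧ ∃ s : Pt, s ≠ 0 ∧ z ∈ face s X := by
    intro c z hz
    obtain ⟨φ, hφ, h⟩ := Zm c z hz
    exact ⟨Tc c φ hφ z h, φ, ne_of_unit (hΦ φ hφ), Tf c φ hφ z h⟩
  have ZX : ∀ c, Z c ⊆ X := by
    intro c z hz
    obtain ⟨_, s, _, h⟩ := Zp c z hz
    exact face_subset _ _ h
  have bal : ∀ a ∈ Z true, ∀ b ∈ Z false, Val X a b →
      ((Z true).filter (fun x => 0 < det a b x)).card ≤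
        ((Z false).filter (fun x => 0 < det a b x)).card + l := by
    intro a ha b hb' hv
    obtain ⟨s, hs, as⟩ := Zm _ a ha
    obtain ⟨s', hs', bs⟩ := Zm _ b hb'
    rw [hfil, hfil]
    have k : ∀ φ ∈ Φ, ((T true φ).filter (fun x => 0 < det a b x)).card ≤
        ((T false φ).filter (fun x => 0 < det a b x)).card +
          ((if φ = s then lam χ (face φ X) else 0) + (if φ = s' then lam χ (face φ X) else 0)) := by
      intro φ hφ
      have t1 : ((T true φ).filter (fun x => 0 < det a b x)).card ≤ lam χ (face φ X) :=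
        (card_filter_le _ _).trans (hT2 true φ hφ).le
      by_cases e1 : φ = s
      · rw [if_pos e1]; omega
      by_cases e2 : φ = s'
      · rw [if_pos e2]; omega
      rcases ((T true φ).filter (fun x => 0 < det a b x)).eq_empty_or_nonempty with h0 | ⟨u, hu⟩
      · rw [h0]; simp
      obtain ⟨hu1, hu2⟩ := mem_filter.1 hu
      have : (T false φ).filter (fun x => 0 < det a b x) = T false φ := by
        refine filter_true_of_mem (fun v hv' => ?_)
        rcases lt_trichotomy 0 (det a b v) with t | t | t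
        · exact t
        · exfalso
          rcases hv.on_line (ne_of_unit (hΦ s hs)) (ne_of_unit (hΦ s' hs')) (ne_of_unit (hΦ φ hφ))
            (Tf _ s hs a as) (Tf _ s' hs' b bs) (Tf _ φ hφ v hv') t.symm with e | e
          · have c1 := Tc _ φ hφ v hv'
            rw [e, Tc _ s hs a as] at c1
            simp at c1
          · exact e2 (low_disj hnl (hΦ s' hs') (hΦ φ hφ) (Tl _ s' hs' b bs) (e ▸ Tl _ φ hφ v hv'))
        · exfalso
          rcases hv.cross hnl (hΦ s hs) (hΦ s' hs') (hΦ φ hφ) (Tf _ s hs a as) (Tf _ s' hs' b bs)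
            (Tf _ φ hφ u hu1) (Tf _ φ hφ v hv') hu2 t with e | e
          · exact e1 e.symm
          · exact e2 e.symm
      rw [this, hT2 false φ hφ]
      omega
    refine (sum_le_sum k).trans ?_
    rw [sum_add_distrib, sum_add_distrib, sum_ite_eq', sum_ite_eq', if_pos hs, if_pos hs']
    have := hL s hs
    have := hL s' hs'
    omega
  have perA : ∀ a ∈ Z true, Real.log (Λ / (2 * l)) ≤
      2 * ∑ b ∈ (Z false).filter (fun b => Val X a b),
        1 / (1 + (((Z true).filter (fun x => 0 < det a b x)).card : ℝ) +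
          (((Z false).filter (fun x => 0 < det a b x)).card : ℝ)) := by
    intro a ha
    obtain ⟨ca, s, hs, as⟩ := Zp _ a ha
    have aX := face_subset _ _ as
    have aZ : a ∉ Z false := fun e => by
      rw [(Zp _ a e).1] at ca
      simp at ca
    set V := (Z false).filter (fun b => Val X a b) with hV
    set I1 := (Z false).filter (fun b => ∀ x ∈ X, det a b x ≤ 0) with hI1
    set I2 := (Z false).filter (fun b => ∀ x ∈ X, 0 ≤ det a b x) with hI2
    have c1 : I1.card + 1 ≤ l := by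
      refine line_bound hl ((filter_subset _ _).trans (ZX _)) aX
        (fun e => aZ (mem_filter.1 e).1) ?_
      intro b hb1 b' hb2
      have t1 := (mem_filter.1 hb1).2 b' (ZX _ (mem_filter.1 hb2).1)
      have t2 := (mem_filter.1 hb2).2 b (ZX _ (mem_filter.1 hb1).1)
      rw [det_swap] at t2
      linarith
    have c2 : I2.card + 1 ≤ l := by
      refine line_bound hl ((filter_subset _ _).trans (ZX _)) aX
        (fun e => aZ (mem_filter.1 e).1) ?_
      intro b hb1 b' hb2
      have t1 := (mem_filter.1 hb1).2 b' (ZX _ (mem_filter.1 hb2).1)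
      have t2 := (mem_filter.1 hb2).2 b (ZX _ (mem_filter.1 hb1).1)
      rw [det_swap] at t2
      linarith
    have cov : ∀ b ∈ Z false, b ∈ V ∨ b ∈ I1 ∨ b ∈ I2 := by
      intro b hb1
      by_cases e1 : ∀ x ∈ X, det a b x ≤ 0
      · exact Or.inr (Or.inl (mem_filter.2 ⟨hb1, e1⟩))
      by_cases e2 : ∀ x ∈ X, 0 ≤ det a b x
      · exact Or.inr (Or.inr (mem_filter.2 ⟨hb1, e2⟩))
      push Not at e1 e2
      exact Or.inl (mem_filter.2 ⟨hb1, e1, e2⟩)
    have cV : Λ + 2 ≤ V.card + 2 * l := by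
      have t1 : Z false ⊆ V ∪ (I1 ∪ I2) := fun b hb1 => by
        simpa only [mem_union] using cov b hb1
      have t2 := card_le_card t1
      have t3 := card_union_le V (I1 ∪ I2)
      have t4 := card_union_le I1 I2
      rw [Zc] at t2
      omega
    have hη := sq_pos_of_ne hs
    have hh : ∀ b ∈ V, 0 < dot s a - dot s b := by
      intro b hb1
      obtain ⟨b1, b2⟩ := mem_filter.1 hb1
      have t1 := (mem_face.1 as).2 b (ZX _ b1)
      by_contra hc
      exact b2.not_face hs as (mem_face.2 ⟨ZX _ b1, fun q hq =>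
        ((mem_face.1 as).2 q hq).trans (by linarith)⟩)
    set θ : Pt → ℝ := fun b => (alo s b - alo s a) / (dot s a - dot s b) with hθ
    have hcross : ∀ b b', (alo s b - alo s a) * (dot s a - dot s b') -
        (alo s b' - alo s a) * (dot s a - dot s b) = (s.1 ^ 2 + s.2 ^ 2) * det a b b' := by
      intro b b'
      simp only [alo, dot, det]; ring
    have inj : ∀ b ∈ V, ∀ b' ∈ V, θ b = θ b' → b = b' := by
      intro b hb1 b' hb2 e
      simp only [hθ] at e
      rw [div_eq_div_iff (hh b hb1).ne' (hh b' hb2).ne'] at e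
      have t1 := hcross b b'
      rw [e, sub_self] at t1
      have t2 := (mul_eq_zero.1 t1.symm).resolve_left hη.ne'
      obtain ⟨b1, b2⟩ := mem_filter.1 hb1
      obtain ⟨_, s', hs', bs⟩ := Zp _ b b1
      obtain ⟨_, φ, hφ, bφ⟩ := Zp _ b' (mem_filter.1 hb2).1
      rcases b2.on_line hs hs' hφ as bs bφ t2 with e2 | e2
      · exact absurd (e2 ▸ (mem_filter.1 hb2).1) aZ
      · exact e2.symm
    have rk : ∀ b ∈ V, ((Z false).filter (fun x => 0 < det a b x)).card + 1 ≤
        (V.filter (fun y => θ y < θ b)).card + l := by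
      intro b hb1
      have t1 : (Z false).filter (fun x => 0 < det a b x) ⊆ V.filter (fun y => θ y < θ b) ∪ I1 := by
        intro y hy
        obtain ⟨y1, y2⟩ := mem_filter.1 hy
        rcases cov y y1 with e | e | e
        · refine mem_union_left _ (mem_filter.2 ⟨e, ?_⟩)
          simp only [hθ]
          rw [div_lt_div_iff₀ (hh y e) (hh b hb1)]
          have := hcross b y
          linarith [mul_pos hη y2]
        · exact mem_union_right _ e
        · exfalso
          have := (mem_filter.1 e).2 b (ZX _ (mem_filter.1 hb1).1)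
          rw [det_swap] at this
          linarith
      have t2 := (card_le_card t1).trans (card_union_le _ _)
      omega
    have s1 : ∑ b ∈ V, 1 / (2 * ((V.filter (fun y => θ y < θ b)).card : ℝ) + 3 * l) ≤
        ∑ b ∈ V, 1 / (1 + (((Z true).filter (fun x => 0 < det a b x)).card : ℝ) +
          (((Z false).filter (fun x => 0 < det a b x)).card : ℝ)) := by
      refine sum_le_sum (fun b hb1 => one_div_le_one_div_of_le (by positivity) ?_)
      have t1 := bal a ha b (mem_filter.1 hb1).1 (mem_filter.1 hb1).2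
      have t2 := rk b hb1
      have t3 : 1 + ((Z true).filter (fun x => 0 < det a b x)).card +
          ((Z false).filter (fun x => 0 < det a b x)).card ≤
          2 * (V.filter (fun y => θ y < θ b)).card + 3 * l := by omega
      exact_mod_cast t3
    rw [rank_sum V θ inj (fun r => 1 / (2 * (r : ℝ) + 3 * l))] at s1
    have s2 := harm (M := 3 * l) (by positivity) V.card
    have s3 : Real.log (Λ / (2 * l)) ≤ Real.log ((2 * V.card + 3 * l) / (3 * l)) := by
      have p0 : (0 : ℝ) < Λ := by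
        have : 0 < Λ := by omega
        exact_mod_cast this
      refine Real.log_le_log (by positivity) ?_
      rw [div_le_div_iff₀ (by positivity) (by positivity)]
      have t1 : (Λ : ℝ) + 2 ≤ V.card + 2 * l := by exact_mod_cast cV
      have t2 : (2 * l : ℝ) < Λ := by exact_mod_cast hsm
      nlinarith
    linarith
  have hp := pack hb (Zp true) (Zp false) ((Z true ×ˢ Z false).filter (fun p => Val X p.1 p.2))
    (fun p hp => ⟨(mem_product.1 (mem_filter.1 hp).1).1, (mem_product.1 (mem_filter.1 hp).1).2,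
      (mem_filter.1 hp).2⟩)
  rw [sum_filter, sum_product] at hp
  have hs := card_nsmul_le_sum (Z true) _ _ perA
  rw [Zc, nsmul_eq_mul, ← mul_sum] at hs
  simp only [sum_filter] at hs
  linarith

theorem core_log {P A B S : Finset Pt} {G : SimpleGraph Pt} (hG : IsVis P G) (h : IsCut P G A B S)
    {d l : ℕ} (hd : ∀ p ∈ P, d ≤ (G.neighborSet p).ncard) (hA : A.Nonempty)
    (hAB : A.card ≤ B.card) (hl : ∀ Q ⊆ P, Collinear ℝ (Q : Set Pt) → Q.card ≤ l) {D : ℝ}
    (hD : D = 2 * d + 1 - 3 * S.card) (hD0 : 0 < D) :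
    D * Real.log (D / (2 * l)) ≤ 2 * S.card := by
  classical
  obtain ⟨B', hB, hc⟩ := exists_subset_card_eq hAB
  obtain ⟨b1, b2, b3⟩ := setup hG h hB hc
  obtain ⟨Φ, hΦ, hlo⟩ := loss S (colA A) _ (A ∪ B') rfl (hA.mono subset_union_left) b2 b1
  have hnb := nb_le S (A ∪ B')
  have hApos := card_pos.2 hA
  obtain ⟨b, hb⟩ : B'.Nonempty := card_pos.1 (by omega)
  obtain ⟨a0, ha0⟩ := hA
  obtain ⟨c, hc0, _⟩ := exists_blocker hG h a0 ha0 b (hB hb)
  have hS := card_pos.2 ⟨c, hc0⟩
  have hl0 : 1 ≤ l := by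
    have := hl {a0} (singleton_subset_iff.2 (h.subA ha0)) (by simp [collinear_singleton])
    simpa using this
  have l0 : (0 : ℝ) < l := by exact_mod_cast hl0
  by_cases hnl : NotLine (A ∪ B')
  swap
  · exfalso
    unfold NotLine at hnl
    push Not at hnl
    obtain ⟨φ, hφ, hline⟩ := hnl
    obtain ⟨a, ha, k⟩ := deg_line hG h hφ (hB hb) A Subset.rfl
      (fun a ha => hline a (mem_union_left _ ha) b (mem_union_right _ hb)) ⟨a0, ha0⟩
    have t1 := hd a (h.subA ha)
    have t2 : 2 * d + 1 ≤ 3 * S.card := by omega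
    have t3 : (2 * d + 1 : ℝ) ≤ 3 * S.card := by exact_mod_cast t2
    linarith
  have hp := log_pack b1 hnl Φ hΦ hl0
    (fun Q hQ => hl Q (hQ.trans (union_subset h.subA (hB.trans h.subB)))) rfl
  set Λ := ∑ φ ∈ Φ, lam (colA A) (face φ (A ∪ B')) with hΛ
  have t1 := deg_triv hG h ha0
  have t2 := hd a0 (h.subA ha0)
  have t3 : 2 * d + 1 ≤ 3 * S.card + Λ := by omega
  have t4 : (2 * d + 1 : ℝ) ≤ 3 * S.card + Λ := by exact_mod_cast t3
  have t5 : D ≤ Λ := by linarith
  rcases le_total (Real.log (D / (2 * l))) 0 with e | e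
  · have := mul_nonpos_of_nonneg_of_nonpos hD0.le e
    have : (0 : ℝ) ≤ S.card := Nat.cast_nonneg _
    linarith
  · have t6 : Real.log (D / (2 * l)) ≤ Real.log (Λ / (2 * l)) :=
      Real.log_le_log (by positivity) (div_le_div_of_nonneg_right t5 (by positivity))
    exact (mul_le_mul t5 t6 e (Nat.cast_nonneg _)).trans hp

end Pool.Agent.Vis5f
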