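import Pool.Agent.Lib.MP_5f22fc_co.Cut

set_option autoImplicit false
open Finset

namespace Pool.Agent.Vis5f

theorem exists_col {χ : Pt → Bool} {c : Bool} {F : Finset Pt} (h : 0 < cnt χ c F) :
    ∃ p ∈ F, χ p = c := by
  obtain ⟨p, hp⟩ := card_pos.1 h
  exact ⟨p, (mem_filter.1 hp).1, (mem_filter.1 hp).2⟩

theorem one_le_nb {C X : Finset Pt} {χ : Pt → Bool} (hb : Blocks C χ X) {p q : Pt} (hp : p ∈ X)
    (hq : q ∈ X) (h : χ p ≠ χ q) : 1 ≤ nb C X := by
  classical
  obtain ⟨c, hc, hc'⟩ := hb p hp q hq h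
  unfold nb
  exact card_pos.2 ⟨c, mem_filter.2 ⟨hc, openSegment_sub_hull hp hq hc'⟩⟩

theorem face_sub_of_not_cov {φ : Pt} {X1 X2 : Finset Pt} (h : ¬ Cov φ X1 X2) :
    face φ X1 ⊆ face φ (X1 ∪ X2) := by
  intro p hp
  obtain ⟨hp1, hp2⟩ := mem_face.1 hp
  refine mem_face.2 ⟨mem_union_left _ hp1, fun q hq => ?_⟩
  rcases mem_union.1 hq with h1 | h1
  · exact hp2 q h1
  · by_contra hc
    exact h ⟨q, h1, fun u hu => (hp2 u hu).trans_lt (not_le.1 hc)⟩

theorem Sep.disjoint {X1 X2 : Finset Pt} {ξ : ℝ × ℝ × ℝ} (hs : Sep X1 X2 ξ) : Disjoint X1 X2 := by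
  rw [disjoint_left]
  intro p h1 h2
  linarith [hs.1 p h1, hs.2 p h2]

theorem dot_smul (t : ℝ) (φ p : Pt) : dot (t • φ) p = t * dot φ p := by
  simp only [dot, Prod.smul_fst, Prod.smul_snd, smul_eq_mul]; ring

theorem dot_neg (φ p : Pt) : dot (-φ) p = - dot φ p := by
  simp only [dot, Prod.fst_neg, Prod.snd_neg]; ring

theorem loss (C : Finset Pt) (χ : Pt → Bool) : ∀ (n : ℕ) (X : Finset Pt), X.card = n →
    X.Nonempty → cnt χ true X = cnt χ false X → Blocks C χ X →
    ∃ Φ : Finset Pt, (∀ φ ∈ Φ, ‖φ‖ = 1) ∧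
      X.card ≤ nb C X + 1 + ∑ φ ∈ Φ, lam χ (face φ X) := by
  classical
  intro n
  induction n using Nat.strong_induction_on with
  | _ n ih =>
  intro X hn hne bal hb
  rcases cut_or_line hne bal with ⟨φ, hφ, hline⟩ | hcut
  · set ψ : Pt := ‖φ‖⁻¹ • φ with hψ
    have hn0 : ‖φ‖ ≠ 0 := norm_ne_zero_iff.2 hφ
    have hψ1 : ‖ψ‖ = 1 := by
      rw [hψ, norm_smul, norm_inv, norm_norm, inv_mul_cancel₀ hn0]
    have hne' : ψ ≠ -ψ := by
      intro h
      have : ψ = 0 := by
        have h2 : (2 : ℝ) • ψ = 0 := by rw [two_smul]; nth_rewrite 2 [h]; simp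
        simpa using h2
      rw [this] at hψ1
      simp at hψ1
    have f1 : face ψ X = X := by
      refine Subset.antisymm (face_subset _ _) (fun p hp => mem_face.2 ⟨hp, fun q hq => ?_⟩)
      rw [hψ, dot_smul, dot_smul, hline p hp q hq]
    have f2 : face (-ψ) X = X := by
      refine Subset.antisymm (face_subset _ _) (fun p hp => mem_face.2 ⟨hp, fun q hq => ?_⟩)
      rw [dot_neg, dot_neg, hψ, dot_smul, dot_smul, hline p hp q hq]
    refine ⟨{ψ, -ψ}, ?_, ?_⟩
    · intro x hx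
      rcases mem_insert.1 hx with h | h
      · rw [h, hψ1]
      · rw [mem_singleton.1 h, norm_neg, hψ1]
    · rw [sum_pair hne', f1, f2]
      have h1 := cnt_add χ X
      have h2 := card_pos.2 hne
      obtain ⟨p, hp, cp⟩ := exists_col (χ := χ) (c := true) (F := X) (by omega)
      obtain ⟨q, hq, cq⟩ := exists_col (χ := χ) (c := false) (F := X) (by omega)
      have h3 := one_le_nb hb hp hq (by rw [cp, cq]; simp)
      unfold lam
      omega
  · obtain ⟨X1, X2, ξ, φ0, a, b, hu, hs, b1, b2, n1, n2, hc0, ha, hb', hab⟩ := hcut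
    subst hu
    have hdis := hs.disjoint
    have hcard := card_union_of_disjoint hdis
    have p1 := card_pos.2 n1
    have p2 := card_pos.2 n2
    obtain ⟨Φ1, u1, i1⟩ := ih X1.card (by omega) X1 rfl n1 b1 (hb.mono subset_union_left)
    obtain ⟨Φ2, u2, i2⟩ := ih X2.card (by omega) X2 rfl n2 b2 (hb.mono subset_union_right)
    have hp := pocket hs hb n1 n2 (Φ1.filter (fun φ => Cov φ X1 X2))
      (Φ2.filter (fun φ => Cov φ X2 X1))
      (fun φ h => ⟨u1 φ (mem_filter.1 h).1, (mem_filter.1 h).2⟩)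
      (fun φ h => ⟨u2 φ (mem_filter.1 h).1, (mem_filter.1 h).2⟩) hc0 ha hb' hab
    set U1 := Φ1.filter (fun φ => ¬ Cov φ X1 X2) with hU1
    set U2 := Φ2.filter (fun φ => ¬ Cov φ X2 X1) with hU2
    have s1 := sum_filter_add_sum_filter_not Φ1 (fun φ => Cov φ X1 X2)
      (fun φ => lam χ (face φ X1))
    have s2 := sum_filter_add_sum_filter_not Φ2 (fun φ => Cov φ X2 X1)
      (fun φ => lam χ (face φ X2))
    rw [← hU1] at s1
    rw [← hU2] at s2
    have hU : ∑ φ ∈ U1, lam χ (face φ X1) + ∑ φ ∈ U2, lam χ (face φ X2) ≤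
        ∑ φ ∈ U1 ∪ U2, lam χ (face φ (X1 ∪ X2)) := by
      have e1 : ∑ φ ∈ U1, lam χ (face φ X1) =
          ∑ φ ∈ U1 ∪ U2, (if φ ∈ U1 then lam χ (face φ X1) else 0) := by
        rw [sum_ite_mem, inter_eq_right.2 subset_union_left]
      have e2 : ∑ φ ∈ U2, lam χ (face φ X2) =
          ∑ φ ∈ U1 ∪ U2, (if φ ∈ U2 then lam χ (face φ X2) else 0) := by
        rw [sum_ite_mem, inter_eq_right.2 subset_union_right]
      rw [e1, e2, ← sum_add_distrib]
      refine sum_le_sum (fun φ _ => ?_)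
      have k1 : φ ∈ U1 → face φ X1 ⊆ face φ (X1 ∪ X2) :=
        fun h => face_sub_of_not_cov (mem_filter.1 h).2
      have k2 : φ ∈ U2 → face φ X2 ⊆ face φ (X1 ∪ X2) :=
        fun h => by rw [union_comm]; exact face_sub_of_not_cov (mem_filter.1 h).2
      split_ifs with c1 c2 c2
      · exact lam_add χ (hdis.mono (face_subset _ _) (face_subset _ _)) (k1 c1) (k2 c2)
      · exact lam_mono χ (k1 c1)
      · rw [zero_add]; exact lam_mono χ (k2 c2)
      · exact Nat.zero_le _
    have hnb : nb C X1 + nb C X2 +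
        (C.filter (fun c => c ∈ convexHull ℝ ((X1 ∪ X2 : Finset Pt) : Set Pt) ∧
        c ∉ convexHull ℝ (X1 : Set Pt) ∧ c ∉ convexHull ℝ (X2 : Set Pt))).card ≤
        nb C (X1 ∪ X2) := by
      unfold nb
      rw [← card_union_of_disjoint, ← card_union_of_disjoint]
      · refine card_le_card ?_
        intro c hc
        simp only [mem_union, mem_filter] at hc ⊢
        rcases hc with (h | h) | h
        · exact ⟨h.1, convexHull_mono (by simp) h.2⟩
        · exact ⟨h.1, convexHull_mono (by simp) h.2⟩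
        · exact ⟨h.1, h.2.1⟩
      · rw [disjoint_left]
        intro c h1 h2
        simp only [mem_union, mem_filter] at h1 h2
        rcases h1 with h | h
        · exact h2.2.2.1 h.2
        · exact h2.2.2.2 h.2
      · rw [disjoint_left]
        intro c h1 h2
        have k1 := hull_lt hs.1 (mem_filter.1 h1).2
        have k2 := hull_lt hs.swap.1 (mem_filter.1 h2).2
        rw [ev_neg] at k2
        linarith
    refine ⟨U1 ∪ U2, ?_, by omega⟩
    intro φ hφ
    rcases mem_union.1 hφ with h | h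
    · exact u1 φ (mem_filter.1 h).1
    · exact u2 φ (mem_filter.1 h).1

end Pool.Agent.Vis5f
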