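import Pool.Agent.Lib.MP_5f22fc_co.Basic

set_option autoImplicit false
open Finset

namespace Pool.Agent.Vis5f

/-- affine functions below the lifted points -/
def Adm (X1 X2 : Finset Pt) (ξ l : ℝ × ℝ × ℝ) : Prop :=
  (∀ p ∈ X1, ev l p ≤ - ev ξ p) ∧ (∀ q ∈ X2, ev l q ≤ ev ξ q)

/-- pairs touched by an affine function -/
def Tight (X1 X2 : Finset Pt) (ξ l : ℝ × ℝ × ℝ) (e : Pt × Pt) : Prop :=
  e.1 ∈ X1 ∧ e.2 ∈ X2 ∧ ev l e.1 = - ev ξ e.1 ∧ ev l e.2 = ev ξ e.2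

/-- no four-sided cells -/
def Gen (X1 X2 : Finset Pt) (ξ : ℝ × ℝ × ℝ) : Prop :=
  ∀ l e e', Tight X1 X2 ξ l e → Tight X1 X2 ξ l e' → e.1 = e'.1 ∨ e.2 = e'.2

/-- strict separation -/
def Sep (X1 X2 : Finset Pt) (ξ : ℝ × ℝ × ℝ) : Prop :=
  (∀ p ∈ X1, ev ξ p < 0) ∧ (∀ q ∈ X2, 0 < ev ξ q)

variable {X1 X2 : Finset Pt} {ξ : ℝ × ℝ × ℝ}

theorem tight_le {l l' : ℝ × ℝ × ℝ} {e : Pt × Pt} (ha' : Adm X1 X2 ξ l')
    (ht : Tight X1 X2 ξ l e) {z : Pt} (hz : z ∈ openSegment ℝ e.1 e.2) : ev l' z ≤ ev l z := by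
  obtain ⟨a, b, ha0, hb0, hab, rfl⟩ := hz
  rw [ev_combo _ _ _ hab, ev_combo _ _ _ hab, ht.2.2.1, ht.2.2.2]
  have h1 := ha'.1 _ ht.1
  have h2 := ha'.2 _ ht.2.1
  nlinarith [mul_le_mul_of_nonneg_left h1 ha0.le, mul_le_mul_of_nonneg_left h2 hb0.le]

theorem tight_of_eq {l l' : ℝ × ℝ × ℝ} {e : Pt × Pt} (ha' : Adm X1 X2 ξ l')
    (ht : Tight X1 X2 ξ l e) {z : Pt} (hz : z ∈ openSegment ℝ e.1 e.2)
    (h : ev l' z = ev l z) : Tight X1 X2 ξ l' e := by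
  obtain ⟨a, b, ha0, hb0, hab, rfl⟩ := hz
  rw [ev_combo _ _ _ hab, ev_combo _ _ _ hab, ht.2.2.1, ht.2.2.2] at h
  have h1 := ha'.1 _ ht.1
  have h2 := ha'.2 _ ht.2.1
  have h3 : a * (ev l' e.1 + ev ξ e.1) ≤ 0 := mul_nonpos_of_nonneg_of_nonpos ha0.le (by linarith)
  have h4 : b * (ev l' e.2 - ev ξ e.2) ≤ 0 := mul_nonpos_of_nonneg_of_nonpos hb0.le (by linarith)
  have h5 : a * (ev l' e.1 + ev ξ e.1) = 0 := by nlinarith
  have h6 : b * (ev l' e.2 - ev ξ e.2) = 0 := by nlinarith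
  refine ⟨ht.1, ht.2.1, ?_, ?_⟩
  · have := (mul_eq_zero.1 h5).resolve_left ha0.ne'
    linarith
  · have := (mul_eq_zero.1 h6).resolve_left hb0.ne'
    linarith

theorem good_eq (hs : Sep X1 X2 ξ) (hg : Gen X1 X2 ξ) {l l' : ℝ × ℝ × ℝ} {e e' : Pt × Pt}
    (ha : Adm X1 X2 ξ l) (ha' : Adm X1 X2 ξ l') (ht : Tight X1 X2 ξ l e)
    (ht' : Tight X1 X2 ξ l' e') {z : Pt} (hz : z ∈ openSegment ℝ e.1 e.2)
    (hz' : z ∈ openSegment ℝ e'.1 e'.2) : e = e' := by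
  have h1 := tight_le ha' ht hz
  have h2 := tight_le ha ht' hz'
  have ht2 : Tight X1 X2 ξ l' e := tight_of_eq ha' ht hz (le_antisymm h1 h2)
  obtain ⟨u, v⟩ := e
  obtain ⟨u', v'⟩ := e'
  obtain ⟨a, b, ha0, hb0, hab, hz1⟩ := hz
  obtain ⟨a', b', ha0', hb0', hab', hz2⟩ := hz'
  have hzz : a • u + b • v = a' • u' + b' • v' := by rw [hz1, hz2]
  have e1 := congrArg (ev l') hzz
  have e2 := congrArg (ev ξ) hzz
  rw [ev_combo _ _ _ hab, ev_combo _ _ _ hab'] at e1 e2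
  obtain ⟨hu, hv, tu, tv⟩ := ht2
  obtain ⟨hu', hv', tu', tv'⟩ := ht'
  simp only at hu hv tu tv hu' hv' tu' tv'
  rw [tu, tv, tu', tv'] at e1
  have hxu := hs.1 u hu
  have hxv := hs.2 v hv
  rcases hg l' (u, v) (u', v') ⟨hu, hv, tu, tv⟩ ⟨hu', hv', tu', tv'⟩ with h | h
  · simp only at h
    subst h
    have haa : a = a' := by
      have : (a - a') * ev ξ u = 0 := by linarith
      have := (mul_eq_zero.1 this).resolve_right hxu.ne
      linarith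
    have hbb : b = b' := by linarith
    subst haa hbb
    have : b • v = b • v' := add_left_cancel hzz
    rw [smul_right_injective _ hb0.ne' this]
  · simp only at h
    subst h
    have hbb : b = b' := by
      have : (b - b') * ev ξ v = 0 := by linarith
      have := (mul_eq_zero.1 this).resolve_right hxv.ne'
      linarith
    have haa : a = a' := by linarith
    subst haa hbb
    have : a • u = a • u' := add_right_cancel hzz
    rw [smul_right_injective _ ha0.ne' this]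

theorem good_not_hull (hs : Sep X1 X2 ξ) {l : ℝ × ℝ × ℝ} {e : Pt × Pt}
    (ha : Adm X1 X2 ξ l) (ht : Tight X1 X2 ξ l e) {z : Pt} (hz : z ∈ openSegment ℝ e.1 e.2) :
    z ∉ convexHull ℝ (X1 : Set Pt) ∧ z ∉ convexHull ℝ (X2 : Set Pt) := by
  obtain ⟨a, b, ha0, hb0, hab, rfl⟩ := hz
  have hxu := hs.1 _ ht.1
  have hxv := hs.2 _ ht.2.1
  constructor
  · intro h
    have := hull_le (m := l + ξ) (fun p hp => by rw [ev_add]; linarith [ha.1 p hp]) h
    rw [ev_add, ev_combo _ _ _ hab, ev_combo _ _ _ hab, ht.2.2.1, ht.2.2.2] at this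
    nlinarith [mul_pos hb0 hxv]
  · intro h
    have := hull_le (m := l - ξ) (fun p hp => by rw [ev_sub]; linarith [ha.2 p hp]) h
    rw [ev_sub, ev_combo _ _ _ hab, ev_combo _ _ _ hab, ht.2.2.1, ht.2.2.2] at this
    nlinarith [mul_pos ha0 (neg_pos.2 hxu)]

/-- the point where a segment crosses the separating line -/
noncomputable def cr (ξ : ℝ × ℝ × ℝ) (e : Pt × Pt) : Pt :=
  (ev ξ e.2 / (ev ξ e.2 - ev ξ e.1)) • e.1 + (- ev ξ e.1 / (ev ξ e.2 - ev ξ e.1)) • e.2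

/-- the coordinate along the separating line -/
def tau (ξ : ℝ × ℝ × ℝ) (z : Pt) : ℝ := - ξ.2.1 * z.1 + ξ.1 * z.2

theorem cr_spec (hs : Sep X1 X2 ξ) {e : Pt × Pt} (h1 : e.1 ∈ X1) (h2 : e.2 ∈ X2) :
    cr ξ e ∈ openSegment ℝ e.1 e.2 ∧ ev ξ (cr ξ e) = 0 := by
  have hxu := hs.1 _ h1
  have hxv := hs.2 _ h2
  have hd : 0 < ev ξ e.2 - ev ξ e.1 := by linarith
  have hab : ev ξ e.2 / (ev ξ e.2 - ev ξ e.1) + - ev ξ e.1 / (ev ξ e.2 - ev ξ e.1) = 1 := by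
    field_simp
    ring
  refine ⟨⟨_, _, div_pos hxv hd, div_pos (neg_pos.2 hxu) hd, hab, rfl⟩, ?_⟩
  unfold cr
  rw [ev_combo _ _ _ hab]
  field_simp
  ring

theorem eta_pos (hs : Sep X1 X2 ξ) {u v : Pt} (h1 : u ∈ X1) (h2 : v ∈ X2) :
    0 < ξ.1 ^ 2 + ξ.2.1 ^ 2 := by
  have hxu := hs.1 _ h1
  have hxv := hs.2 _ h2
  by_contra h
  have h3 : ξ.1 = 0 := by nlinarith [sq_nonneg ξ.1, sq_nonneg ξ.2.1]
  have h4 : ξ.2.1 = 0 := by nlinarith [sq_nonneg ξ.1, sq_nonneg ξ.2.1]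
  simp only [ev, h3, h4] at hxu hxv
  linarith

theorem eq_of_tau {z z' : Pt} (hη : 0 < ξ.1 ^ 2 + ξ.2.1 ^ 2) (h : ev ξ z = 0) (h' : ev ξ z' = 0)
    (ht : tau ξ z = tau ξ z') : z = z' := by
  simp only [ev, tau] at h h' ht
  have h1 : (ξ.1 ^ 2 + ξ.2.1 ^ 2) * (z.1 - z'.1) = 0 := by
    linear_combination ξ.1 * (h - h') - ξ.2.1 * ht
  have h2 : (ξ.1 ^ 2 + ξ.2.1 ^ 2) * (z.2 - z'.2) = 0 := by
    linear_combination ξ.2.1 * (h - h') + ξ.1 * ht
  have h3 := (mul_eq_zero.1 h1).resolve_left hη.ne'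
  have h4 := (mul_eq_zero.1 h2).resolve_left hη.ne'
  exact Prod.ext (by linarith) (by linarith)

theorem aff_zero {D : ℝ × ℝ × ℝ} {z z1 z2 u : Pt} (hη : 0 < ξ.1 ^ 2 + ξ.2.1 ^ 2)
    (h : ev ξ z = 0) (h1 : ev ξ z1 = 0) (h2 : ev ξ z2 = 0) (hu : ev ξ u ≠ 0)
    (t1 : tau ξ z < tau ξ z1) (t2 : tau ξ z < tau ξ z2)
    (d : ev D z = 0) (d1 : 0 ≤ ev D z1) (d2 : ev D z2 ≤ 0) (du : ev D u = 0) : D = 0 := by
  obtain ⟨a, b, c⟩ := D
  obtain ⟨x, y, g⟩ := ξ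
  simp only [ev, tau] at *
  have k1 : (x ^ 2 + y ^ 2) * (a * z1.1 + b * z1.2 + c) =
      (- y * a + x * b) * ((- y * z1.1 + x * z1.2) - (- y * z.1 + x * z.2)) := by
    linear_combination (x ^ 2 + y ^ 2) * d + (a * x + b * y) * (h1 - h)
  have k2 : (x ^ 2 + y ^ 2) * (a * z2.1 + b * z2.2 + c) =
      (- y * a + x * b) * ((- y * z2.1 + x * z2.2) - (- y * z.1 + x * z.2)) := by
    linear_combination (x ^ 2 + y ^ 2) * d + (a * x + b * y) * (h2 - h)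
  have p1 : 0 ≤ (- y * a + x * b) := by
    by_contra hc
    push Not at hc
    have := mul_neg_of_neg_of_pos hc (sub_pos.2 t1)
    nlinarith [mul_nonneg hη.le d1]
  have p2 : (- y * a + x * b) ≤ 0 := by
    by_contra hc
    push Not at hc
    have := mul_pos hc (sub_pos.2 t2)
    nlinarith [mul_nonneg hη.le (neg_nonneg.2 d2)]
  have p3 : - y * a + x * b = 0 := le_antisymm p2 p1
  have k3 : (a * x + b * y) * (x * u.1 + y * u.2 + g) = 0 := by
    linear_combination (x ^ 2 + y ^ 2) * (du - d) + (a * x + b * y) * h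
      - ((- y * u.1 + x * u.2) - (- y * z.1 + x * z.2)) * p3
  have p4 : a * x + b * y = 0 := (mul_eq_zero.1 k3).resolve_right hu
  have ha : (x ^ 2 + y ^ 2) * a = 0 := by linear_combination x * p4 - y * p3
  have hb : (x ^ 2 + y ^ 2) * b = 0 := by linear_combination y * p4 + x * p3
  have ha' := (mul_eq_zero.1 ha).resolve_left hη.ne'
  have hb' := (mul_eq_zero.1 hb).resolve_left hη.ne'
  subst ha' hb'
  have hc : c = 0 := by linarith
  subst hc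
  rfl

theorem pocket_count {ι : Type*} (hs : Sep X1 X2 ξ) (hg : Gen X1 X2 ξ) (I : Finset ι)
    (l : ι → ℝ × ℝ × ℝ) (S : ι → Finset (Pt × Pt))
    (hadm : ∀ i ∈ I, Adm X1 X2 ξ (l i)) (ht : ∀ i ∈ I, ∀ e ∈ S i, Tight X1 X2 ξ (l i) e)
    (hinj : ∀ i ∈ I, ∀ j ∈ I, l i = l j → 1 < (S i).card → 1 < (S j).card → i = j)
    {l0 : ℝ × ℝ × ℝ} {e0 : Pt × Pt} (ht0 : Tight X1 X2 ξ l0 e0) :
    1 + ∑ i ∈ I, ((S i).card - 1) ≤ (insert e0 (I.biUnion S)).card := by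
  classical
  have hη := eta_pos hs ht0.1 ht0.2.1
  set H : Pt × Pt → ℝ := fun e => tau ξ (cr ξ e) with hH
  have hHinj : ∀ {m m' : ℝ × ℝ × ℝ} {e e' : Pt × Pt}, Adm X1 X2 ξ m → Adm X1 X2 ξ m' →
      Tight X1 X2 ξ m e → Tight X1 X2 ξ m' e' → H e = H e' → e = e' := by
    intro m m' e e' a1 a2 t1 t2 hh
    have c1 := cr_spec hs t1.1 t1.2.1
    have c2 := cr_spec hs t2.1 t2.2.1
    have := eq_of_tau hη c1.2 c2.2 hh
    exact good_eq hs hg a1 a2 t1 t2 c1.1 (this ▸ c2.1)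
  set S' : ι → Finset (Pt × Pt) := fun i => (S i).filter (fun e => ∃ e' ∈ S i, H e < H e')
    with hS'
  have hcard : ∀ i ∈ I, (S i).card - 1 ≤ (S' i).card := by
    intro i hi
    have h1 := Finset.card_filter_add_card_filter_not (s := S i)
      (fun e => ∃ e' ∈ S i, H e < H e')
    have h2 : ((S i).filter (fun e => ¬ ∃ e' ∈ S i, H e < H e')).card ≤ 1 := by
      rw [card_le_one]
      intro e he e' he'
      simp only [mem_filter, not_exists, not_and, not_lt] at he he'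
      exact hHinj (hadm i hi) (hadm i hi) (ht i hi e he.1) (ht i hi e' he'.1)
        (le_antisymm (he'.2 e he.1) (he.2 e' he'.1))
    simp only [hS']
    omega
  have hdisj : (I : Set ι).PairwiseDisjoint S' := by
    intro i hi j hj hij
    rw [Function.onFun, disjoint_left]
    intro e hei hej
    simp only [hS', mem_filter] at hei hej
    obtain ⟨hei, e1, he1, lt1⟩ := hei
    obtain ⟨hej, e2, he2, lt2⟩ := hej
    have ti := ht i hi e hei
    have tj := ht j hj e hej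
    have t1 := ht i hi e1 he1
    have t2 := ht j hj e2 he2
    have c := cr_spec hs ti.1 ti.2.1
    have c1 := cr_spec hs t1.1 t1.2.1
    have c2 := cr_spec hs t2.1 t2.2.1
    have hD : l i - l j = 0 := by
      refine aff_zero (z := cr ξ e) (z1 := cr ξ e1) (z2 := cr ξ e2) (u := e.1) hη c.2 c1.2 c2.2
        (hs.1 _ ti.1).ne lt1 lt2 ?_ ?_ ?_ ?_
      · rw [ev_sub]
        linarith [tight_le (hadm i hi) tj c.1, tight_le (hadm j hj) ti c.1]
      · rw [ev_sub]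
        linarith [tight_le (hadm j hj) t1 c1.1]
      · rw [ev_sub]
        linarith [tight_le (hadm i hi) t2 c2.1]
      · rw [ev_sub, ti.2.2.1, tj.2.2.1, sub_self]
    refine hij (hinj i hi j hj (sub_eq_zero.1 hD) ?_ ?_)
    · exact one_lt_card.2 ⟨e, hei, e1, he1, fun h => by rw [h] at lt1; exact lt_irrefl _ lt1⟩
    · exact one_lt_card.2 ⟨e, hej, e2, he2, fun h => by rw [h] at lt2; exact lt_irrefl _ lt2⟩
  obtain ⟨et, het, hmax⟩ := exists_max_image (insert e0 (I.biUnion S)) H (insert_nonempty _ _)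
  have hnot : et ∉ I.biUnion S' := by
    intro h
    obtain ⟨i, hi, h⟩ := mem_biUnion.1 h
    simp only [hS', mem_filter] at h
    obtain ⟨_, e', he', lt⟩ := h
    have := hmax e' (mem_insert_of_mem (mem_biUnion.2 ⟨i, hi, he'⟩))
    linarith
  have hsub : insert et (I.biUnion S') ⊆ insert e0 (I.biUnion S) := by
    intro e he
    rcases mem_insert.1 he with h | h
    · exact h ▸ het
    · obtain ⟨i, hi, h⟩ := mem_biUnion.1 h
      exact mem_insert_of_mem (mem_biUnion.2 ⟨i, hi, (mem_filter.1 h).1⟩)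
  have h1 := card_le_card hsub
  rw [card_insert_of_notMem hnot, card_biUnion hdisj] at h1
  have h2 := sum_le_sum hcard
  omega

end Pool.Agent.Vis5f
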