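import Pool.Agent.Lib.MP_5f22fc_co.Three

set_option autoImplicit false
open Finset

namespace Pool.Agent.Vis5f

theorem exists_four {X : Finset Pt} (hnl : NotLine X) :
    ∃ F ⊆ X, F.card ≤ 4 ∧ ∀ Y : Finset Pt, F ⊆ Y → NotLine Y := by
  classical
  obtain ⟨p, hp, q, hq, hpq⟩ := hnl (1, 0) (by simp)
  have hd : (-(q.2 - p.2), q.1 - p.1) ≠ (0 : Pt) := by
    intro h
    apply hpq
    have e2 := congrArg Prod.snd h
    simp only [Prod.snd_zero] at e2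
    simp only [dot]
    linarith
  obtain ⟨r, hr, s, hs, hrs⟩ := hnl _ hd
  refine ⟨{p, q, r, s}, ?_, card_le_four, ?_⟩
  · intro x hx
    simp only [mem_insert, mem_singleton] at hx
    rcases hx with e | e | e | e <;> rw [e] <;> assumption
  · intro Y hY φ hφ
    by_cases e : dot φ p = dot φ q
    · refine ⟨r, hY (by simp), s, hY (by simp), fun e2 => hrs ?_⟩
      have hη := sq_pos_of_ne hφ
      have : (φ.1 ^ 2 + φ.2 ^ 2) * (dot (-(q.2 - p.2), q.1 - p.1) r -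
          dot (-(q.2 - p.2), q.1 - p.1) s) = 0 := by
        simp only [dot] at e e2 ⊢
        linear_combination (φ.2 * (q.1 - p.1) - φ.1 * (q.2 - p.2)) * e2 +
          (φ.2 * (r.1 - s.1) - φ.1 * (r.2 - s.2)) * e
      exact sub_eq_zero.1 ((mul_eq_zero.1 this).resolve_left hη.ne')
    · exact ⟨p, hY (by simp), q, hY (by simp), e⟩

theorem collinear_dot {Q : Finset Pt} (h : Collinear ℝ (Q : Set Pt)) :
    ∃ φ : Pt, φ ≠ 0 ∧ ∀ p ∈ Q, ∀ q ∈ Q, dot φ p = dot φ q := by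
  obtain ⟨o, v, hv⟩ := (collinear_iff_exists_forall_eq_smul_vadd _).1 h
  by_cases e : v = 0
  · refine ⟨(1, 0), by simp, fun p hp q hq => ?_⟩
    obtain ⟨a, ha⟩ := hv p hp
    obtain ⟨b, hb⟩ := hv q hq
    rw [ha, hb, e]; simp
  · refine ⟨(-v.2, v.1), ?_, fun p hp q hq => ?_⟩
    · intro h0
      apply e
      have e1 := congrArg Prod.fst h0
      have e2 := congrArg Prod.snd h0
      simp only [Prod.fst_zero, Prod.snd_zero] at e1 e2
      exact Prod.ext e2 (by simp only [Prod.snd_zero]; linarith)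
    · obtain ⟨a, ha⟩ := hv p hp
      obtain ⟨b, hb⟩ := hv q hq
      rw [ha, hb]
      simp only [dot, vadd_eq_add, Prod.fst_add, Prod.snd_add, Prod.smul_fst, Prod.smul_snd,
        smul_eq_mul]
      ring

/-- a collinear set of at least three boundary points lies on one side -/
theorem collinear_face {X Q : Finset Pt} (hQ : Q ⊆ X) (h : Collinear ℝ (Q : Set Pt))
    (h3 : 3 ≤ Q.card) : ∃ z ∈ Q, ∀ ψ : Pt, z ∈ face ψ X → Q ⊆ face ψ X := by
  classical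
  obtain ⟨φ, hφ, hd⟩ := collinear_dot h
  have e : face φ Q = Q := by
    ext p
    rw [mem_face]
    exact ⟨fun h => h.1, fun hp => ⟨hp, fun q hq => (hd q hq p hp).le⟩⟩
  have a1 := inner_card hφ Q
  rw [e] at a1
  obtain ⟨z, hz⟩ : (inner φ Q).Nonempty := card_pos.1 (by omega)
  obtain ⟨hzf, p, hp, q, hq, hpq, a, b, ha, hb, hab, e2⟩ := mem_filter.1 hz
  rw [e] at hzf hp hq
  refine ⟨z, hzf, fun ψ hz' y hy => ?_⟩
  have l1 := (mem_face.1 hz').2 p (hQ hp)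
  have l2 := (mem_face.1 hz').2 q (hQ hq)
  have l3 : dot ψ z = a * dot ψ p + b * dot ψ q := by rw [← e2, dot_combo]
  have k0 : a * (dot ψ z - dot ψ p) + b * (dot ψ z - dot ψ q) = 0 := by
    linear_combination l3 + dot ψ z * hab
  have k1 := mul_nonneg ha.le (sub_nonneg.2 l1)
  have k2 := mul_nonneg hb.le (sub_nonneg.2 l2)
  have m1 := (mul_eq_zero.1 (by linarith : a * (dot ψ z - dot ψ p) = 0)).resolve_left ha.ne'
  have m2 := (mul_eq_zero.1 (by linarith : b * (dot ψ z - dot ψ q) = 0)).resolve_left hb.ne'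
  have f1 := hd p hp q hq
  have f2 := hd p hp y hy
  have hη := sq_pos_of_ne hφ
  have hal : alo φ p - alo φ q ≠ 0 := fun h => hpq (eq_of_alo hφ f1 (by linarith))
  have hcr : φ.1 * ψ.2 - φ.2 * ψ.1 = 0 := by
    have : (φ.1 * ψ.2 - φ.2 * ψ.1) * (alo φ p - alo φ q) = 0 := by
      simp only [dot, alo] at m1 m2 f1 ⊢
      linear_combination (φ.1 ^ 2 + φ.2 ^ 2) * (m2 - m1) - (φ.1 * ψ.1 + φ.2 * ψ.2) * f1
    exact (mul_eq_zero.1 this).resolve_right hal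
  have f3 : dot ψ y = dot ψ p := by
    have : (φ.1 ^ 2 + φ.2 ^ 2) * (dot ψ y - dot ψ p) = 0 := by
      simp only [dot] at f2 ⊢
      linear_combination (-(φ.1 * ψ.1 + φ.2 * ψ.2)) * f2 +
        (φ.1 * (y.2 - p.2) - φ.2 * (y.1 - p.1)) * hcr
    exact sub_eq_zero.1 ((mul_eq_zero.1 this).resolve_left hη.ne')
  refine mem_face.2 ⟨hQ hy, fun x hx => ?_⟩
  have := (mem_face.1 hz').2 x hx
  linarith

/-- the logarithmic bound for a family of sides with small losses -/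
theorem log_rest {C X : Finset Pt} {χ : Pt → Bool} (hb : Blocks C χ X) (hnl : NotLine X)
    (Φ : Finset Pt) (hΦ : ∀ φ ∈ Φ, ‖φ‖ = 1) {L : ℕ} (hL : ∀ φ ∈ Φ, lam χ (face φ X) ≤ L) {D : ℝ}
    (hD0 : 0 < D) (hD : D ≤ (∑ φ ∈ Φ, lam χ (face φ X) : ℕ)) :
    D * Real.log (D / (2 * (2 * L + 8 : ℕ))) ≤ 2 * C.card := by
  classical
  rcases le_total (Real.log (D / (2 * (2 * L + 8 : ℕ)))) 0 with e | e
  · have := mul_nonpos_of_nonneg_of_nonpos hD0.le e
    have : (0 : ℝ) ≤ C.card := Nat.cast_nonneg _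
    linarith
  set Ψ := Φ.filter (fun φ => 1 ≤ lam χ (face φ X)) with hΨ
  have hsum : ∑ φ ∈ Φ, lam χ (face φ X) = ∑ φ ∈ Ψ, lam χ (face φ X) := by
    rw [hΨ, sum_filter_of_ne]
    intro φ _ hne
    omega
  have hT : ∀ c : Bool, ∀ φ ∈ Ψ, ∃ T ⊆ (face φ X).filter (fun p => χ p = c),
      T.card = lam χ (face φ X) + 1 := by
    intro c φ hφ
    refine exists_subset_card_eq ?_
    have a1 := (mem_filter.1 hφ).2
    unfold lam cnt at a1 ⊢
    cases c <;> omega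
  choose! T hT1 hT2 using hT
  obtain ⟨F, F1, F2, F3⟩ := exists_four hnl
  set U := Ψ.biUnion (fun φ => T true φ ∪ T false φ) with hU
  have Uf : ∀ φ ∈ Ψ, T true φ ∪ T false φ ⊆ face φ X := fun φ hφ =>
    union_subset ((hT1 _ φ hφ).trans (filter_subset _ _)) ((hT1 _ φ hφ).trans (filter_subset _ _))
  have UX : U ⊆ X := by
    intro z hz
    obtain ⟨φ, hφ, h⟩ := mem_biUnion.1 hz
    exact face_subset _ _ (Uf φ hφ h)
  have YX : U ∪ F ⊆ X := union_subset UX F1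
  have hcol : ∀ Q ⊆ U ∪ F, Collinear ℝ (Q : Set Pt) → Q.card ≤ 2 * L + 8 := by
    intro Q hQ hc
    have a1 : Q ⊆ Q ∩ U ∪ F := by
      intro z hz
      rcases mem_union.1 (hQ hz) with h | h
      · exact mem_union_left _ (mem_inter.2 ⟨hz, h⟩)
      · exact mem_union_right _ h
    have a2 := (card_le_card a1).trans (card_union_le _ _)
    by_cases h3 : 3 ≤ (Q ∩ U).card
    swap
    · omega
    obtain ⟨z, hz, hz2⟩ := collinear_face (inter_subset_right.trans UX)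
      (hc.subset (coe_subset.2 inter_subset_left)) h3
    obtain ⟨ψ, hψ, hzψ⟩ := mem_biUnion.1 (mem_inter.1 hz).2
    have b1 := hz2 ψ (Uf ψ hψ hzψ)
    have uψ := hΦ ψ (mem_filter.1 hψ).1
    have b2 : Q ∩ U ⊆ (T true ψ ∪ T false ψ) ∪ (face ψ X \ inner ψ X) := by
      intro y hy
      obtain ⟨σ, hσ, hyσ⟩ := mem_biUnion.1 (mem_inter.1 hy).2
      by_cases e2 : σ = ψ
      · exact mem_union_left _ (e2 ▸ hyσ)
      · exact mem_union_right _ (mem_sdiff.2 ⟨b1 hy, fun hi =>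
          e2 (inner_face hnl uψ (hΦ σ (mem_filter.1 hσ).1) hi (Uf σ hσ hyσ))⟩)
    have b3 := (card_le_card b2).trans (card_union_le _ _)
    have b4 := card_union_le (T true ψ) (T false ψ)
    have b5 := card_sdiff_add_card_eq_card (inner_subset ψ X)
    have b6 := inner_card (ne_of_unit uψ) X
    have b7 := hT2 true ψ hψ
    have b8 := hT2 false ψ hψ
    have b9 := hL ψ (mem_filter.1 hψ).1
    omega
  have hp := log_pack (hb.mono YX) (F3 _ subset_union_right) Ψ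
    (fun φ hφ => hΦ φ (mem_filter.1 hφ).1) (by omega : 1 ≤ 2 * L + 8) hcol rfl
  have hge : ∑ φ ∈ Ψ, lam χ (face φ X) ≤ ∑ φ ∈ Ψ, lam χ (face φ (U ∪ F)) := by
    refine sum_le_sum (fun φ hφ => ?_)
    have c1 : ∀ c, lam χ (face φ X) + 1 ≤ cnt χ c (face φ (U ∪ F)) := by
      intro c
      rw [← hT2 c φ hφ]
      refine card_le_card (fun z hz => ?_)
      obtain ⟨z1, z2⟩ := mem_filter.1 (hT1 c φ hφ hz)
      refine mem_filter.2 ⟨mem_face.2 ⟨mem_union_left _ (mem_biUnion.2 ⟨φ, hφ, ?_⟩),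
        fun q hq => (mem_face.1 z1).2 q (YX hq)⟩, z2⟩
      cases c
      · exact mem_union_right _ hz
      · exact mem_union_left _ hz
    have c2 := c1 true
    have c3 := c1 false
    unfold lam at c2 c3 ⊢
    omega
  set Λ := ∑ φ ∈ Ψ, lam χ (face φ (U ∪ F)) with hΛ
  have t5 : D ≤ Λ := by
    refine hD.trans ?_
    rw [hsum]
    exact_mod_cast hge
  have l0 : (0 : ℝ) < (2 * L + 8 : ℕ) := by positivity
  have t6 : Real.log (D / (2 * (2 * L + 8 : ℕ))) ≤ Real.log (Λ / (2 * (2 * L + 8 : ℕ))) :=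
    Real.log_le_log (by positivity) (div_le_div_of_nonneg_right t5 (by positivity))
  exact (mul_le_mul t5 t6 e (Nat.cast_nonneg _)).trans hp

theorem drop_two (Φ : Finset Pt) (f : Pt → ℕ) : ∃ Ψ ⊆ Φ, ∃ M : ℕ,
    ∑ φ ∈ Φ, f φ ≤ ∑ φ ∈ Ψ, f φ + 2 * M ∧ (M = 0 ∨ ∃ φ ∈ Φ, f φ = M) ∧
      ∀ ρ ∈ Ψ, ∃ φ ∈ Φ, ∃ ψ ∈ Φ, φ ≠ ψ ∧ φ ≠ ρ ∧ ψ ≠ ρ ∧ f ρ ≤ f φ ∧ f ρ ≤ f ψ := by
  classical
  rcases Φ.eq_empty_or_nonempty with e | e
  · exact ⟨∅, empty_subset _, 0, by rw [e]; simp, Or.inl rfl, by simp⟩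
  obtain ⟨φ, hφ, m1⟩ := exists_max_image Φ f e
  have s1 := add_sum_erase Φ f hφ
  rcases (Φ.erase φ).eq_empty_or_nonempty with e2 | e2
  · refine ⟨∅, empty_subset _, f φ, ?_, Or.inr ⟨φ, hφ, rfl⟩, by simp⟩
    rw [e2, sum_empty] at s1
    rw [sum_empty]
    omega
  obtain ⟨ψ, hψ, m2⟩ := exists_max_image (Φ.erase φ) f e2
  have s2 := add_sum_erase (Φ.erase φ) f hψ
  have := m1 ψ (mem_of_mem_erase hψ)
  refine ⟨(Φ.erase φ).erase ψ, (erase_subset _ _).trans (erase_subset _ _), f φ, by omega,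
    Or.inr ⟨φ, hφ, rfl⟩, fun ρ hρ => ?_⟩
  obtain ⟨r1, r2⟩ := mem_erase.1 hρ
  obtain ⟨r3, r4⟩ := mem_erase.1 r2
  exact ⟨φ, hφ, ψ, mem_of_mem_erase hψ, (mem_erase.1 hψ).1.symm, r3.symm, r1.symm, m1 ρ r4, m2 ρ r2⟩

theorem core_asym (K : ℕ) : ∃ m0 : ℕ, ∀ {P A B S : Finset Pt} {G : SimpleGraph Pt}, IsVis P G →
    IsCut P G A B S → ∀ {d : ℕ}, (∀ p ∈ P, d ≤ (G.neighborSet p).ncard) → A.Nonempty →
    A.card ≤ B.card → ∀ {D : ℝ}, D = 2 * d + 1 - 3 * S.card → 0 < D →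
    ∃ L : ℕ, (L ≤ m0 ∨ K * L ≤ S.card + K) ∧
      D * Real.log (D / (2 * (2 * L + 8 : ℕ))) ≤ 2 * S.card := by
  classical
  obtain ⟨m0, H⟩ := three_sides K
  refine ⟨m0, ?_⟩
  intro P A B S G hG h d hd hA hAB D hD hD0
  obtain ⟨B', hB, hc⟩ := exists_subset_card_eq hAB
  obtain ⟨b1, b2, b3⟩ := setup hG h hB hc
  obtain ⟨Φ, hΦ, hlo⟩ := loss S (colA A) _ (A ∪ B') rfl (hA.mono subset_union_left) b2 b1
  have hnb := nb_le S (A ∪ B')
  have hApos := card_pos.2 hA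
  obtain ⟨b, hb⟩ : B'.Nonempty := card_pos.1 (by omega)
  obtain ⟨a0, ha0⟩ := hA
  obtain ⟨c, hc0, _⟩ := exists_blocker hG h a0 ha0 b (hB hb)
  have hS := card_pos.2 ⟨c, hc0⟩
  by_cases hnl : NotLine (A ∪ B')
  swap
  · exfalso
    unfold NotLine at hnl
    push Not at hnl
    obtain ⟨φ, hφ, hline⟩ := hnl
    obtain ⟨a, ha, k⟩ := deg_line hG h hφ (hB hb) A Subset.rfl
      (fun a ha => hline a (mem_union_left _ ha) b (mem_union_right _ hb)) ⟨a0, ha0⟩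
    have t1 := hd a (h.subA ha)
    have t2 : 2 * d + 1 ≤ 3 * S.card := by omega
    have t3 : (2 * d + 1 : ℝ) ≤ 3 * S.card := by exact_mod_cast t2
    linarith
  obtain ⟨Ψ, Ψ1, M, Ψ2, Ψ3, Ψ4⟩ := drop_two Φ (fun φ => lam (colA A) (face φ (A ∪ B')))
  have hM : d + M + 1 ≤ S.card + A.card := by
    have t1 := deg_triv hG h ha0
    have t2 := hd a0 (h.subA ha0)
    rcases Nat.eq_zero_or_pos M with e | e
    · omega
    rcases Ψ3 with e2 | ⟨φ, hφ, e2⟩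
    · omega
    obtain ⟨a, ha, k⟩ := deg_face hG h hB (hΦ φ hφ) (by omega)
    have := hd a (h.subA ha)
    omega
  set L := Ψ.sup (fun φ => lam (colA A) (face φ (A ∪ B'))) with hL
  refine ⟨L, ?_, log_rest b1 hnl Ψ (fun φ hφ => hΦ φ (Ψ1 hφ))
    (fun φ hφ => le_sup (f := fun φ => lam (colA A) (face φ (A ∪ B'))) hφ) hD0 ?_⟩
  · by_cases e : L ≤ m0
    · exact Or.inl e
    right
    rcases Ψ.eq_empty_or_nonempty with e0 | e0
    · rw [hL, e0] at e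
      simp at e
    obtain ⟨ρ, hρ, e1⟩ := exists_mem_eq_sup Ψ e0 (fun φ => lam (colA A) (face φ (A ∪ B')))
    rw [← hL] at e1
    obtain ⟨φ, hφ, ψ, hψ, n1, n2, n3, l1, l2⟩ := Ψ4 ρ hρ
    have := H (L - 1) (by omega) S _ _ b1 hnl φ ψ ρ (hΦ φ hφ) (hΦ ψ hψ) (hΦ ρ (Ψ1 hρ)) n1 n2 n3
      (by omega) (by omega) (by omega)
    have e3 : K * L = K * (L - 1) + K := by
      obtain ⟨n, hn⟩ : ∃ n, L = n + 1 := ⟨L - 1, by omega⟩
      rw [hn, Nat.add_sub_cancel]; ring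
    omega
  · have t3 : 2 * d + 1 ≤ 3 * S.card + ∑ φ ∈ Ψ, lam (colA A) (face φ (A ∪ B')) := by omega
    have t4 : (2 * d + 1 : ℝ) ≤ 3 * S.card +
        (∑ φ ∈ Ψ, lam (colA A) (face φ (A ∪ B')) : ℕ) := by exact_mod_cast t3
    linarith

end Pool.Agent.Vis5f
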