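import Pool.Agent.Lib.MP_5f22fc_co.Graph

set_option autoImplicit false
open Finset

namespace Pool.Agent.Vis5f

/-- If the hulls of `A` and `B` are disjoint, at most two directions have a side of the hull of
`A ∪ B` meeting both `A` and `B`. -/
theorem sep_two {A B : Finset Pt}
    (h : Disjoint (convexHull ℝ (A : Set Pt)) (convexHull ℝ (B : Set Pt))) :
    {φ : Pt | ‖φ‖ = 1 ∧ (∃ a ∈ A, a ∈ face φ (A ∪ B)) ∧ ∃ b ∈ B, b ∈ face φ (A ∪ B)}.encard ≤ 2 := by
  obtain ⟨f, u, v, h1, huv, h2⟩ := geometric_hahn_banach_compact_closed (convex_convexHull ℝ _)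
    (A.finite_toSet.isCompact_convexHull ℝ) (convex_convexHull ℝ _)
    (B.finite_toSet.isClosed_convexHull ℝ) h
  set η : Pt := (f (1, 0), f (0, 1)) with hη
  have hf : ∀ p : Pt, f p = dot η p := by
    intro p
    have : p = p.1 • ((1, 0) : Pt) + p.2 • ((0, 1) : Pt) := by ext <;> simp
    conv_lhs => rw [this]
    rw [map_add, map_smul, map_smul]
    simp only [hη, dot, smul_eq_mul]; ring
  have hA : ∀ a ∈ A, dot η a < u := fun a ha => hf a ▸ h1 a (subset_convexHull ℝ _ (mem_coe.2 ha))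
  have hB : ∀ b ∈ B, u < dot η b :=
    fun b hb => huv.trans (hf b ▸ h2 b (subset_convexHull ℝ _ (mem_coe.2 hb)))
  set T := {φ : Pt | ‖φ‖ = 1 ∧ (∃ a ∈ A, a ∈ face φ (A ∪ B)) ∧ ∃ b ∈ B, b ∈ face φ (A ∪ B)}
    with hT
  have hne : ∀ φ ∈ T, alo η φ ≠ 0 := by
    rintro φ ⟨n1, ⟨a, ha, fa⟩, b, hb, fb⟩ h0
    have e := face_eq fa fb
    have k := (hA a ha).trans (hB b hb)
    apply ne_of_unit n1
    simp only [alo, dot] at h0 e k
    have c1 : φ.1 * (η.1 * b.1 + η.2 * b.2 - (η.1 * a.1 + η.2 * a.2)) = 0 := by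
      linear_combination (-η.1) * e - (b.2 - a.2) * h0
    have c2 : φ.2 * (η.1 * b.1 + η.2 * b.2 - (η.1 * a.1 + η.2 * a.2)) = 0 := by
      linear_combination (-η.2) * e + (b.1 - a.1) * h0
    exact Prod.ext ((mul_eq_zero.1 c1).resolve_right (by linarith))
      ((mul_eq_zero.1 c2).resolve_right (by linarith))
  have hsame : ∀ φ ∈ T, ∀ ψ ∈ T, 0 < alo η φ * alo η ψ → φ = ψ := by
    rintro φ ⟨n1, ⟨a, ha, fa⟩, b, hb, fb⟩ ψ ⟨n2, ⟨a', ha', fa'⟩, b', hb', fb'⟩ hs
    have e := face_eq fa fb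
    have e' := face_eq fa' fb'
    have l1 := (mem_face.1 fa).2 a' (mem_union_left _ ha')
    have l2 := (mem_face.1 fa).2 b' (mem_union_right _ hb')
    have l3 := (mem_face.1 fa').2 a (mem_union_left _ ha)
    have l4 := (mem_face.1 fa').2 b (mem_union_right _ hb)
    have k1 := hA a ha
    have k2 := hA a' ha'
    have k3 := hB b hb
    have k4 := hB b' hb'
    set s := alo η φ with hs1
    set t := alo η ψ with ht1
    set μ := φ.1 * ψ.2 - φ.2 * ψ.1 with hμ
    have hD : ∀ p : Pt, t * dot φ p - s * dot ψ p = μ * dot η p := by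
      intro p
      simp only [hs1, ht1, hμ, alo, dot]; ring
    have hμ0 : μ = 0 := by
      have d1 := hD a
      have d2 := hD a'
      have d3 := hD b
      have d4 := hD b'
      rcases pos_and_pos_or_neg_and_neg_of_mul_pos hs with ⟨s0, t0⟩ | ⟨s0, t0⟩
      · have x1 : μ * dot η a' ≤ μ * dot η b := by
          nlinarith [mul_le_mul_of_nonneg_left l1 t0.le, mul_le_mul_of_nonneg_left l4 s0.le]
        have x2 : μ * dot η b' ≤ μ * dot η a := by
          nlinarith [mul_le_mul_of_nonneg_left l2 t0.le, mul_le_mul_of_nonneg_left l3 s0.le]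
        nlinarith
      · have x1 : μ * dot η b ≤ μ * dot η a' := by
          nlinarith [mul_le_mul_of_nonpos_left l1 t0.le, mul_le_mul_of_nonpos_left l4 s0.le]
        have x2 : μ * dot η a ≤ μ * dot η b' := by
          nlinarith [mul_le_mul_of_nonpos_left l2 t0.le, mul_le_mul_of_nonpos_left l3 s0.le]
        nlinarith
    have q1 := hD (1, 0)
    have q2 := hD (0, 1)
    simp only [hμ0, dot, mul_one, mul_zero, add_zero, zero_add, zero_mul] at q1 q2
    rcases pos_and_pos_or_neg_and_neg_of_mul_pos hs with ⟨s0, t0⟩ | ⟨s0, t0⟩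
    · exact unit_eq n1 n2 t0 s0 (by linarith) (by linarith)
    · exact unit_eq n1 n2 (neg_pos.2 t0) (neg_pos.2 s0) (by linarith) (by linarith)
  have hsub : T ⊆ {φ ∈ T | 0 < alo η φ} ∪ {φ ∈ T | alo η φ < 0} := by
    intro φ hφ
    rcases lt_or_gt_of_ne (hne φ hφ) with e | e
    · exact Or.inr ⟨hφ, e⟩
    · exact Or.inl ⟨hφ, e⟩
  have c1 : {φ ∈ T | 0 < alo η φ}.encard ≤ 1 :=
    Set.encard_le_one_iff.2 (fun a b ha hb => hsame a ha.1 b hb.1 (mul_pos ha.2 hb.2))
  have c2 : {φ ∈ T | alo η φ < 0}.encard ≤ 1 :=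
    Set.encard_le_one_iff.2 (fun a b ha hb => hsame a ha.1 b hb.1 (mul_pos_of_neg_of_neg ha.2 hb.2))
  calc T.encard ≤ _ := Set.encard_le_encard hsub
    _ ≤ _ := Set.encard_union_le _ _
    _ ≤ 1 + 1 := add_le_add c1 c2
    _ = 2 := one_add_one_eq_two

end Pool.Agent.Vis5f
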