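import Pool.Agent.Lib.MP_5f22fc_co.LogPack
import Pool.Agent.Lib.MP_5f22fc_co.Grid

set_option autoImplicit false
open Finset

namespace Pool.Agent.Vis5f

theorem seq_of_inj (T : Finset Pt) (r : Pt → ℝ) (hr : ∀ s ∈ T, ∀ t ∈ T, r s = r t → s = t) {m : ℕ}
    (hm : m ≤ T.card) :
    ∃ u : ℕ → Pt, (∀ i < m, u i ∈ T) ∧ ∀ i < m, ∀ j < m, i < j → r (u i) < r (u j) := by
  classical
  have hc : (T.image r).card = T.card := card_image_of_injOn (fun s hs t ht e => hr s hs t ht e)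
  have h1 : ∀ i, ∀ hi : i < m, ∃ u ∈ T,
      r u = (T.image r).orderEmbOfFin hc ⟨i, hi.trans_le hm⟩ := fun i hi =>
    mem_image.1 (orderEmbOfFin_mem _ hc _)
  choose! u u1 u2 using h1
  refine ⟨u, u1, fun i hi j hj h => ?_⟩
  rw [u2 i hi, u2 j hj]
  exact ((T.image r).orderEmbOfFin hc).strictMono (Fin.mk_lt_mk.2 h)

theorem inner_subset (φ : Pt) (X : Finset Pt) : inner φ X ⊆ face φ X := by
  classical
  exact filter_subset _ _

theorem inner_cnt {φ : Pt} (h : φ ≠ 0) (X : Finset Pt) (χ : Pt → Bool) (c : Bool) :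
    cnt χ c (face φ X) ≤ cnt χ c (inner φ X) + 2 := by
  classical
  have a1 := inner_card h X
  have a2 := cnt_add χ (face φ X)
  have a3 := cnt_add χ (inner φ X)
  have a4 := cnt_mono χ true (inner_subset φ X)
  have a5 := cnt_mono χ false (inner_subset φ X)
  cases c <;> omega

/-- the distance below a side -/
def dep (φ o p : Pt) : ℝ := dot φ o - dot φ p

theorem dep_combo (φ o u v : Pt) {s t : ℝ} (h : s + t = 1) :
    dep φ o (s • u + t • v) = s * dep φ o u + t * dep φ o v := by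
  unfold dep
  rw [dot_combo]
  linear_combination (-(dot φ o)) * h

theorem dep_zero {X : Finset Pt} {φ o p : Pt} (ho : o ∈ face φ X) (hp : p ∈ face φ X) :
    dep φ o p = 0 := sub_eq_zero.2 (face_eq ho hp)

theorem dep_pos {X : Finset Pt} (hnl : NotLine X) {φ ψ o p : Pt} (h1 : ‖φ‖ = 1) (h2 : ‖ψ‖ = 1)
    (hne : φ ≠ ψ) (ho : o ∈ face φ X) (hp : p ∈ inner ψ X) : 0 < dep φ o p := by
  have pX := face_subset _ _ (inner_subset _ _ hp)
  refine sub_pos.2 (lt_of_le_of_ne ((mem_face.1 ho).2 p pX) (fun e => hne ?_))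
  exact inner_face hnl h2 h1 hp (mem_face.2 ⟨pX, fun q hq => e ▸ (mem_face.1 ho).2 q hq⟩)

/-- on a side the ratio of the depths below two other sides is injective -/
theorem ratio_inj {X : Finset Pt} (hnl : NotLine X) {φ ψ ρ o1 o2 o3 : Pt} (h1 : ‖φ‖ = 1)
    (h2 : ‖ψ‖ = 1) (h3 : ‖ρ‖ = 1) (n12 : φ ≠ ψ) (n13 : φ ≠ ρ) (n23 : ψ ≠ ρ)
    (i1 : o1 ∈ inner φ X) (i2 : o2 ∈ inner ψ X) (i3 : o3 ∈ inner ρ X) {u u' : Pt}
    (hu : u ∈ inner φ X) (hu' : u' ∈ inner φ X)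
    (e : dep ρ o3 u / dep ψ o2 u = dep ρ o3 u' / dep ψ o2 u') : u = u' := by
  have f1 := inner_subset _ _ i1
  have f2 := inner_subset _ _ i2
  have f3 := inner_subset _ _ i3
  have a1 := dep_pos hnl h2 h1 n12.symm f2 hu
  have a2 := dep_pos hnl h2 h1 n12.symm f2 hu'
  have a3 := dep_pos hnl h3 h1 n13.symm f3 hu
  have b1 := dep_pos hnl h1 h2 n12 f1 i2
  have b2 := dep_pos hnl h3 h2 n23.symm f3 i2
  have b3 := dep_pos hnl h1 h3 n13 f1 i3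
  have b4 := dep_pos hnl h2 h3 n23 f2 i3
  have z1 := dep_zero f1 (inner_subset _ _ hu)
  have z2 := dep_zero f1 (inner_subset _ _ hu')
  rw [div_eq_div_iff a1.ne' a2.ne'] at e
  by_contra hne
  have hd : (u'.1 - u.1, u'.2 - u.2) ≠ (0 : Pt) := by
    intro h
    apply hne
    have e1 := congrArg Prod.fst h
    have e2 := congrArg Prod.snd h
    simp only [Prod.fst_zero, Prod.snd_zero] at e1 e2
    exact Prod.ext (by linarith) (by linarith)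
  have hη := sq_pos_of_ne hd
  simp only at hη
  obtain ⟨A, hA⟩ : ∃ A, A = dep ρ o3 u := ⟨_, rfl⟩
  obtain ⟨B, hB⟩ : ∃ B, B = dep ψ o2 u := ⟨_, rfl⟩
  have k1 : (A * ψ.1 - B * ρ.1) * (u'.1 - u.1) + (A * ψ.2 - B * ρ.2) * (u'.2 - u.2) = 0 := by
    rw [← hA, ← hB] at e
    simp only [dep, dot] at e hA hB
    linear_combination (-1 : ℝ) * e - A * hB + B * hA
  have k2 : φ.1 * (u'.1 - u.1) + φ.2 * (u'.2 - u.2) = 0 := by
    simp only [dep, dot] at z1 z2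
    linear_combination z1 - z2
  have k3 : (A * ψ.1 - B * ρ.1) * φ.2 - (A * ψ.2 - B * ρ.2) * φ.1 = 0 := by
    have : ((u'.1 - u.1) ^ 2 + (u'.2 - u.2) ^ 2) *
        ((A * ψ.1 - B * ρ.1) * φ.2 - (A * ψ.2 - B * ρ.2) * φ.1) = 0 := by
      linear_combination (φ.2 * (u'.1 - u.1) - φ.1 * (u'.2 - u.2)) * k1 +
        ((A * ψ.1 - B * ρ.1) * (u'.2 - u.2) - (A * ψ.2 - B * ρ.2) * (u'.1 - u.1)) * k2
    exact (mul_eq_zero.1 this).resolve_left hη.ne'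
  have k4 : (- (B * dep ρ o3 o2)) * dep φ o1 o3 = (A * dep ψ o2 o3) * dep φ o1 o2 := by
    simp only [dep, dot] at hA hB z1 ⊢
    linear_combination ((o2.1 - u.1) * (o3.2 - u.2) - (o2.2 - u.2) * (o3.1 - u.1)) * k3 +
      (-(B * (ρ.1 * o3.1 + ρ.2 * o3.2 - (ρ.1 * o2.1 + ρ.2 * o2.2))) -
        A * (ψ.1 * o2.1 + ψ.2 * o2.2 - (ψ.1 * o3.1 + ψ.2 * o3.2))) * z1 -
      (B * (φ.1 * (o3.1 - o2.1) + φ.2 * (o3.2 - o2.2))) * hA +
      (A * (φ.1 * (o3.1 - o2.1) + φ.2 * (o3.2 - o2.2))) * hB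
  rw [← hA] at a3
  rw [← hB] at a1
  nlinarith [mul_pos (mul_pos a1 b2) b3, mul_pos (mul_pos a3 b4) b1]

/-- a blocker of two points on different sides, in the depths below three sides -/
theorem blk_rel {C X : Finset Pt} {χ : Pt → Bool} (hb : Blocks C χ X) (hnl : NotLine X)
    {φ ψ ρ o1 o2 o3 : Pt} (h1 : ‖φ‖ = 1) (h2 : ‖ψ‖ = 1) (h3 : ‖ρ‖ = 1) (n12 : φ ≠ ψ)
    (n13 : φ ≠ ρ) (n23 : ψ ≠ ρ) (i1 : o1 ∈ inner φ X) (i2 : o2 ∈ inner ψ X) (i3 : o3 ∈ inner ρ X)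
    {u v : Pt} (hu : u ∈ inner φ X) (hv : v ∈ inner ψ X) (hc : χ u ≠ χ v) :
    ∃ c ∈ C, 0 < dep φ o1 c / dep ρ o3 c ∧ 0 < dep ψ o2 c / dep ρ o3 c ∧
      dep ψ o2 c / dep ρ o3 c * (dep ρ o3 u / dep ψ o2 u) +
        dep φ o1 c / dep ρ o3 c * (dep ρ o3 v / dep φ o1 v) = 1 := by
  have f1 := inner_subset _ _ i1
  have f2 := inner_subset _ _ i2
  have f3 := inner_subset _ _ i3
  obtain ⟨c, hC, s, t, s0, t0, st, e⟩ := hb u (face_subset _ _ (inner_subset _ _ hu)) v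
    (face_subset _ _ (inner_subset _ _ hv)) hc
  have a1 := dep_pos hnl h2 h1 n12.symm f2 hu
  have a2 := dep_pos hnl h3 h1 n13.symm f3 hu
  have a3 := dep_pos hnl h1 h2 n12 f1 hv
  have a4 := dep_pos hnl h3 h2 n23.symm f3 hv
  have c1 : dep φ o1 c = t * dep φ o1 v := by
    rw [← e, dep_combo _ _ _ _ st, dep_zero f1 (inner_subset _ _ hu)]; ring
  have c2 : dep ψ o2 c = s * dep ψ o2 u := by
    rw [← e, dep_combo _ _ _ _ st, dep_zero f2 (inner_subset _ _ hv)]; ring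
  have c3 : dep ρ o3 c = s * dep ρ o3 u + t * dep ρ o3 v := by rw [← e, dep_combo _ _ _ _ st]
  have d3 : 0 < s * dep ρ o3 u + t * dep ρ o3 v := by positivity
  refine ⟨c, hC, ?_, ?_, ?_⟩
  · rw [c1, c3]; positivity
  · rw [c2, c3]; positivity
  · rw [c1, c2, c3]; field_simp

/-- Three sides of the hull with many points of both colours need more than linearly many
blockers. -/
theorem three_sides (K : ℕ) : ∃ m0 : ℕ, ∀ m : ℕ, m0 ≤ m → ∀ (C X : Finset Pt) (χ : Pt → Bool),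
    Blocks C χ X → NotLine X → ∀ φ ψ ρ : Pt, ‖φ‖ = 1 → ‖ψ‖ = 1 → ‖ρ‖ = 1 → φ ≠ ψ → φ ≠ ρ → ψ ≠ ρ →
    m + 1 ≤ lam χ (face φ X) → m + 1 ≤ lam χ (face ψ X) → m + 1 ≤ lam χ (face ρ X) →
    K * m < C.card := by
  classical
  obtain ⟨m0, H⟩ := grid_super K
  refine ⟨m0 + 1, fun m hm C X χ hb hnl φ ψ ρ h1 h2 h3 n12 n13 n23 l1 l2 l3 => ?_⟩
  by_contra hC
  push Not at hC
  have cn : ∀ σ : Pt, ‖σ‖ = 1 → m + 1 ≤ lam χ (face σ X) → ∀ c : Bool,
      m ≤ ((inner σ X).filter (fun p => χ p = c)).card := by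
    intro σ hσ hl c
    have := inner_cnt (ne_of_unit hσ) X χ c
    unfold lam at hl
    unfold cnt at this hl
    cases c <;> omega
  have ne : ∀ σ : Pt, ‖σ‖ = 1 → m + 1 ≤ lam χ (face σ X) → ∃ o, o ∈ inner σ X := by
    intro σ hσ hl
    obtain ⟨o, ho⟩ := card_pos.1 (lt_of_lt_of_le (by omega : 0 < m) (cn σ hσ hl true))
    exact ⟨o, (mem_filter.1 ho).1⟩
  obtain ⟨o1, i1⟩ := ne φ h1 l1
  obtain ⟨o2, i2⟩ := ne ψ h2 l2
  obtain ⟨o3, i3⟩ := ne ρ h3 l3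
  obtain ⟨u, u1, u2⟩ := seq_of_inj _ (fun p => dep ρ o3 p / dep ψ o2 p)
    (fun s hs t ht e => ratio_inj hnl h1 h2 h3 n12 n13 n23 i1 i2 i3 (mem_filter.1 hs).1
      (mem_filter.1 ht).1 e) (cn φ h1 l1 true)
  obtain ⟨v, v1, v2⟩ := seq_of_inj _ (fun p => - (dep ρ o3 p / dep φ o1 p))
    (fun s hs t ht e => ratio_inj hnl h2 h1 h3 n12.symm n23 n13 i2 i1 i3 (mem_filter.1 hs).1
      (mem_filter.1 ht).1 (neg_injective e)) (cn ψ h2 l2 false)
  obtain ⟨z, z1, z2⟩ := seq_of_inj _ (fun p => dep ψ o2 p / dep φ o1 p)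
    (fun s hs t ht e => ratio_inj hnl h3 h1 h2 n13.symm n23.symm n12 i3 i1 i2 (mem_filter.1 hs).1
      (mem_filter.1 ht).1 e) (cn ρ h3 l3 false)
  obtain ⟨w, w1, w2⟩ := seq_of_inj _ (fun p => - (dep φ o1 p / dep ψ o2 p))
    (fun s hs t ht e => ratio_inj hnl h3 h2 h1 n23.symm n13.symm n12.symm i3 i2 i1
      (mem_filter.1 hs).1 (mem_filter.1 ht).1 (neg_injective e)) (cn ρ h3 l3 true)
  have f1 := inner_subset _ _ i1
  have f2 := inner_subset _ _ i2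
  have f3 := inner_subset _ _ i3
  refine H m (by omega) C hC (fun i => dep ρ o3 (u i) / dep ψ o2 (u i))
    (fun i => dep ρ o3 (v i) / dep φ o1 (v i)) (fun i => dep ψ o2 (z i) / dep φ o1 (z i))
    (fun i => dep φ o1 (w i) / dep ψ o2 (w i)) ?_ ?_ u2
    (fun i hi j hj h => neg_lt_neg_iff.1 (v2 i hi j hj h)) z2
    (fun i hi j hj h => neg_lt_neg_iff.1 (w2 i hi j hj h))
    (fun c => dep φ o1 c / dep ρ o3 c) (fun c => dep ψ o2 c / dep ρ o3 c)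
    (fun c => dep ρ o3 c / dep ψ o2 c) (fun c => dep φ o1 c / dep ψ o2 c)
    (fun c => dep ρ o3 c / dep φ o1 c) (fun c => dep ψ o2 c / dep φ o1 c) ?_ ?_ ?_
  · intro i hi
    exact div_pos (dep_pos hnl h3 h1 n13.symm f3 (mem_filter.1 (u1 i hi)).1)
      (dep_pos hnl h2 h1 n12.symm f2 (mem_filter.1 (u1 i hi)).1)
  · intro i hi
    exact div_pos (dep_pos hnl h3 h2 n23.symm f3 (mem_filter.1 (v1 i hi)).1)
      (dep_pos hnl h1 h2 n12 f1 (mem_filter.1 (v1 i hi)).1)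
  · intro i hi j hj
    exact blk_rel hb hnl h1 h2 h3 n12 n13 n23 i1 i2 i3 (mem_filter.1 (u1 i hi)).1
      (mem_filter.1 (v1 j hj)).1
      (by rw [(mem_filter.1 (u1 i hi)).2, (mem_filter.1 (v1 j hj)).2]; simp)
  · intro i hi j hj
    obtain ⟨c, hc, a1, a2, a3⟩ := blk_rel hb hnl h1 h3 h2 n13 n12 n23.symm i1 i3 i2
      (mem_filter.1 (u1 i hi)).1 (mem_filter.1 (z1 j hj)).1
      (by rw [(mem_filter.1 (u1 i hi)).2, (mem_filter.1 (z1 j hj)).2]; simp)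
    refine ⟨c, hc, a2, a1, ?_⟩
    rw [← a3, div_div_eq_mul_div, mul_div_assoc]
  · intro i hi j hj
    obtain ⟨c, hc, a1, a2, a3⟩ := blk_rel hb hnl h2 h3 h1 n23 n12.symm n13.symm i2 i3 i1
      (mem_filter.1 (v1 i hi)).1 (mem_filter.1 (w1 j hj)).1
      (by rw [(mem_filter.1 (v1 i hi)).2, (mem_filter.1 (w1 j hj)).2]; simp)
    refine ⟨c, hc, a2, a1, ?_⟩
    rw [← a3, div_div_eq_mul_div, mul_div_assoc]

end Pool.Agent.Vis5f
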