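import Pool.Agent.Lib.MP_5f22fc_co.Loss

set_option autoImplicit false
open Finset

namespace Pool.Agent.Vis5f

/-- the middle argument of `det` as an affine function -/
def dm (p r : Pt) : ℝ × ℝ × ℝ :=
  (r.2 - p.2, -(r.1 - p.1), - p.1 * (r.2 - p.2) + p.2 * (r.1 - p.1))

theorem ev_dm (p r z : Pt) : ev (dm p r) z = det p z r := by
  simp only [ev, dm, det]; ring

theorem nb_add {C Z Z' T : Finset Pt} (hZ : Z' ⊆ Z) (hT : T ⊆ C)
    (h1 : ∀ c ∈ T, c ∈ convexHull ℝ (Z : Set Pt))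
    (h2 : ∀ c ∈ T, c ∉ convexHull ℝ (Z' : Set Pt)) : nb C Z' + T.card ≤ nb C Z := by
  classical
  unfold nb
  rw [← card_union_of_disjoint]
  · refine card_le_card ?_
    intro c hc
    simp only [mem_union, mem_filter] at hc ⊢
    rcases hc with h | h
    · exact ⟨h.1, convexHull_mono (coe_subset.2 hZ) h.2⟩
    · exact ⟨hT h, h1 c h⟩
  · rw [disjoint_left]
    intro c k1 k2
    exact h2 c k2 (mem_filter.1 k1).2

theorem not_hull_of {Z : Finset Pt} {m : ℝ × ℝ × ℝ} (h : ∀ z ∈ Z, 0 ≤ ev m z) {u x c : Pt}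
    (hu : ev m u < 0) (hx : ev m x = 0) (hc : c ∈ openSegment ℝ u x) :
    c ∉ convexHull ℝ (Z : Set Pt) := by
  intro hh
  have := hull_le (m := -m) (fun p hp => by rw [ev_neg]; linarith [h p hp]) hh
  obtain ⟨a, b, ha, hb, hab, rfl⟩ := hc
  rw [ev_neg, ev_combo _ _ _ hab, hx] at this
  nlinarith [mul_pos ha (neg_pos.2 hu)]

theorem zigzag {β : Type*} [LinearOrder β] (C : Finset Pt) (χ : Pt → Bool) (κ : Pt → β) (w : ℕ)
    (hw : 2 ≤ w) : ∀ (n : ℕ) (Z : Finset Pt), Z.card = n →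
    (∀ p ∈ Z, ∀ q ∈ Z, κ p = κ q → p = q) →
    (∀ p ∈ Z, ∀ q ∈ Z, ∀ r ∈ Z, κ p < κ q → κ q < κ r → 0 ≤ det p q r) →
    (∀ p ∈ Z, ∀ q ∈ Z, ∀ r ∈ Z, κ p < κ q → κ q < κ r → det p q r = 0 →
      (Z.filter (fun z => κ p ≤ κ z ∧ κ z ≤ κ r)).card ≤ w) →
    Blocks C χ Z → ∀ u ∈ Z, ∀ v ∈ Z, (∀ z ∈ Z, κ u ≤ κ z) → (∀ z ∈ Z, κ z ≤ κ v) →
    χ u ≠ χ v → Z.card + 1 ≤ nb C Z + w := by
  classical
  intro n
  induction n using Nat.strong_induction_on with
  | _ n ih =>
  intro Z hn H1 H2 H3 hb u hu v hv hmin hmax huv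
  have hnb := one_le_nb hb hu hv huv
  have huv' : u ≠ v := fun h => huv (by rw [h])
  have hlt1 : ∀ z ∈ Z, z ≠ u → κ u < κ z := fun z hz h =>
    lt_of_le_of_ne (hmin z hz) (fun e => h (H1 u hu z hz e).symm)
  have hlt2 : ∀ z ∈ Z, z ≠ v → κ z < κ v := fun z hz h =>
    lt_of_le_of_ne (hmax z hz) (fun e => h (H1 z hz v hv e))
  have ih' : ∀ Z' : Finset Pt, Z' ⊆ Z → Z'.card < Z.card → ∀ u' ∈ Z', ∀ v' ∈ Z',
      (∀ z ∈ Z', κ u' ≤ κ z) → (∀ z ∈ Z', κ z ≤ κ v') → χ u' ≠ χ v' →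
      Z'.card + 1 ≤ nb C Z' + w := by
    intro Z' hs hc
    refine ih Z'.card (by omega) Z' rfl (fun p hp q hq => H1 p (hs hp) q (hs hq))
      (fun p hp q hq r hr => H2 p (hs hp) q (hs hq) r (hs hr)) ?_ (hb.mono hs)
    intro p hp q hq r hr a1 a2 a3
    exact (card_le_card (filter_subset_filter _ hs)).trans (H3 p (hs hp) q (hs hq) r (hs hr) a1 a2 a3)
  by_cases hdeg : ∃ z ∈ Z, z ≠ u ∧ z ≠ v ∧ det u z v = 0
  · obtain ⟨z, hz, z1, z2, z3⟩ := hdeg
    have := H3 u hu z hz v hv (hlt1 z hz z1) (hlt2 z hz z2) z3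
    rw [filter_true_of_mem (fun x hx => ⟨hmin x hx, hmax x hx⟩)] at this
    omega
  have hpos : ∀ z ∈ Z, z ≠ u → z ≠ v → 0 < det u z v := by
    intro z hz z1 z2
    exact lt_of_le_of_ne (H2 u hu z hz v hv (hlt1 z hz z1) (hlt2 z hz z2))
      (fun e => hdeg ⟨z, hz, z1, z2, e.symm⟩)
  by_cases hsm : ∃ z ∈ Z, z ≠ u ∧ z ≠ v
  swap
  · have : Z ⊆ {u, v} := by
      intro z hz
      by_contra hc
      simp only [mem_insert, mem_singleton, not_or] at hc
      exact hsm ⟨z, hz, hc⟩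
    have := (card_le_card this).trans card_le_two
    omega
  obtain ⟨z0, hz0, z01, z02⟩ := hsm
  obtain ⟨u', hu', hu'min⟩ := exists_min_image (Z.erase u) κ ⟨v, mem_erase.2 ⟨huv'.symm, hv⟩⟩
  obtain ⟨v', hv', hv'max⟩ := exists_max_image (Z.erase v) κ ⟨u, mem_erase.2 ⟨huv', hu⟩⟩
  obtain ⟨u'u, hu'Z⟩ := mem_erase.1 hu'
  obtain ⟨v'v, hv'Z⟩ := mem_erase.1 hv'
  have u'v : u' ≠ v := by
    intro h
    have := hu'min z0 (mem_erase.2 ⟨z01, hz0⟩)
    rw [h] at this
    exact absurd (hlt2 z0 hz0 z02) (not_lt.2 this)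
  have v'u : v' ≠ u := by
    intro h
    have := hv'max z0 (mem_erase.2 ⟨z02, hz0⟩)
    rw [h] at this
    exact absurd (hlt1 z0 hz0 z01) (not_lt.2 this)
  obtain ⟨c1, hc1, hc1'⟩ := hb u hu v hv huv
  have d1 : ∀ z ∈ Z.erase u, 0 ≤ ev (dm u' v) z := by
    intro z hz
    rw [ev_dm]
    by_cases e1 : z = u'
    · rw [e1]; simp [det]
    by_cases e2 : z = v
    · rw [e2]; simp only [det]; linarith
    exact H2 u' hu'Z z (mem_erase.1 hz).2 v hv
      (lt_of_le_of_ne (hu'min z hz) (fun e => e1 (H1 u' hu'Z z (mem_erase.1 hz).2 e).symm))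
      (hlt2 z (mem_erase.1 hz).2 e2)
  have d1u : ev (dm u' v) u < 0 := by
    rw [ev_dm]
    have := hpos u' hu'Z u'u u'v
    simp only [det] at this ⊢
    linarith
  have d1v : ev (dm u' v) v = 0 := by rw [ev_dm]; simp only [det]; ring
  have d1u' : ev (dm u' v) u' = 0 := by rw [ev_dm]; simp only [det]; ring
  have d2 : ∀ z ∈ Z.erase v, 0 ≤ ev (dm u v') z := by
    intro z hz
    rw [ev_dm]
    by_cases e1 : z = u
    · rw [e1]; simp [det]
    by_cases e2 : z = v'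
    · rw [e2]; simp only [det]; linarith
    exact H2 u hu z (mem_erase.1 hz).2 v' hv'Z (hlt1 z (mem_erase.1 hz).2 e1)
      (lt_of_le_of_ne (hv'max z hz) (fun e => e2 (H1 z (mem_erase.1 hz).2 v' hv'Z e)))
  have d2v : ev (dm u v') v < 0 := by
    rw [ev_dm]
    have := hpos v' hv'Z v'u v'v
    simp only [det] at this ⊢
    linarith
  have d2u : ev (dm u v') u = 0 := by rw [ev_dm]; simp only [det]; ring
  have cu := card_erase_of_mem hu
  have cv := card_erase_of_mem hv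
  have cpos := card_pos.2 ⟨u, hu⟩
  by_cases k1 : χ u' = χ u
  · have a1 := ih' (Z.erase u) (erase_subset _ _) (by omega) u' hu' v
      (mem_erase.2 ⟨huv'.symm, hv⟩) hu'min (fun z hz => hmax z (mem_erase.1 hz).2)
      (by rw [k1]; exact huv)
    have a2 := nb_add (C := C) (T := {c1}) (erase_subset u Z) (by simpa using hc1)
      (by simpa using openSegment_sub_hull hu hv hc1')
      (by simpa using not_hull_of d1 d1u d1v hc1')
    rw [card_singleton] at a2
    omega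
  by_cases k2 : χ v' = χ v
  · have a1 := ih' (Z.erase v) (erase_subset _ _) (by omega) u (mem_erase.2 ⟨huv', hu⟩) v' hv'
      (fun z hz => hmin z (mem_erase.1 hz).2) hv'max (by rw [k2]; exact huv)
    have a2 := nb_add (C := C) (T := {c1}) (erase_subset v Z) (by simpa using hc1)
      (by simpa using openSegment_sub_hull hu hv hc1')
      (by simpa using not_hull_of d2 d2v d2u (by rw [openSegment_symm]; exact hc1'))
    rw [card_singleton] at a2
    omega
  obtain ⟨c2, hc2, hc2'⟩ := hb u hu u' hu'Z (fun h => k1 h.symm)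
  have hc12 : c1 ≠ c2 := by
    intro h
    obtain ⟨a, b, ha, hb, hab, e⟩ := hc1'
    obtain ⟨a', b', ha', hb', hab', e'⟩ := hc2'
    have := congrArg (ev (dm u v)) (e.trans (h.trans e'.symm))
    rw [ev_combo _ _ _ hab, ev_combo _ _ _ hab', ev_dm, ev_dm, ev_dm] at this
    have p1 := hpos u' hu'Z u'u u'v
    have p2 : det u u v = 0 := by simp only [det]; ring
    have p3 : det u v v = 0 := by simp only [det]; ring
    rw [p2, p3] at this
    nlinarith [mul_pos hb' p1]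
  have hsub : (Z.erase u).erase v ⊆ Z.erase u := erase_subset _ _
  have cuv := card_erase_of_mem (mem_erase.2 ⟨huv'.symm, hv⟩ : v ∈ Z.erase u)
  have cpos2 := card_pos.2 ⟨u', hu'⟩
  have a1 := ih' ((Z.erase u).erase v) (hsub.trans (erase_subset _ _)) (by omega) u'
    (mem_erase.2 ⟨u'v, hu'⟩) v' (mem_erase.2 ⟨v'v, mem_erase.2 ⟨v'u, hv'Z⟩⟩)
    (fun z hz => hu'min z (hsub hz))
    (fun z hz => hv'max z (mem_erase.2 ⟨(mem_erase.1 hz).1, (mem_erase.1 (hsub hz)).2⟩))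
    (by revert k1 k2 huv; cases χ u <;> cases χ v <;> cases χ u' <;> cases χ v' <;> simp)
  have a2 := nb_add (C := C) (T := {c1, c2}) (hsub.trans (erase_subset u Z))
    (by intro c hc; rcases mem_insert.1 hc with h | h
        · exact h ▸ hc1
        · exact (mem_singleton.1 h) ▸ hc2)
    (by intro c hc; rcases mem_insert.1 hc with h | h
        · exact h ▸ openSegment_sub_hull hu hv hc1'
        · exact (mem_singleton.1 h) ▸ openSegment_sub_hull hu hu'Z hc2')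
    (by intro c hc hh
        have hh' := convexHull_mono (coe_subset.2 hsub) hh
        rcases mem_insert.1 hc with h | h
        · exact not_hull_of d1 d1u d1v hc1' (h ▸ hh')
        · exact not_hull_of d1 d1u d1u' hc2' ((mem_singleton.1 h) ▸ hh'))
  rw [card_pair hc12] at a2
  omega

end Pool.Agent.Vis5f
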